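import Mathlib

/-! Expectation over uniformly random lists of a given length. -/

set_option autoImplicit false

namespace Pool.Agent.Lib.MP_c1e253_pr

variable {G : Type*} [Fintype G]

/-- average of `F` over lists of length `t` -/
noncomputable def Ex : ℕ → (List G → ℝ) → ℝ
  | 0, F => F []
  | t + 1, F => (∑ y : G, Ex t (fun l => F (y :: l))) / Fintype.card G

lemma Ex_mono : ∀ (t : ℕ) {F H : List G → ℝ}, (∀ l, l.length = t → F l ≤ H l) → Ex t F ≤ Ex t H
  | 0, _, _, h => h [] rfl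
  | t + 1, F, H, h => by
    simp only [Ex]
    refine div_le_div_of_nonneg_right (Finset.sum_le_sum fun y _ => ?_) (Nat.cast_nonneg _)
    exact Ex_mono t fun l hl => h _ (by simp [hl])

lemma Ex_add : ∀ (t : ℕ) (F H : List G → ℝ), Ex t (fun l => F l + H l) = Ex t F + Ex t H
  | 0, _, _ => rfl
  | t + 1, F, H => by
    simp only [Ex]
    rw [← add_div, ← Finset.sum_add_distrib]
    congr 1
    exact Finset.sum_congr rfl fun y _ => Ex_add t _ _

lemma Ex_const_mul : ∀ (t : ℕ) (c : ℝ) (F : List G → ℝ), Ex t (fun l => c * F l) = c * Ex t F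
  | 0, _, _ => rfl
  | t + 1, c, F => by
    simp only [Ex]
    rw [← mul_div_assoc, Finset.mul_sum]
    congr 1
    exact Finset.sum_congr rfl fun y _ => Ex_const_mul t _ _

lemma Ex_const [Nonempty G] : ∀ (t : ℕ) (c : ℝ), Ex t (fun _ : List G => c) = c
  | 0, _ => rfl
  | t + 1, c => by
    simp only [Ex, Ex_const t c, Finset.sum_const, Finset.card_univ, nsmul_eq_mul]
    have : (Fintype.card G : ℝ) ≠ 0 := by positivity
    field_simp

lemma Ex_zero (t : ℕ) : Ex t (fun _ : List G => (0 : ℝ)) = 0 := by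
  have := Ex_const_mul (G := G) t 0 (fun _ => 0)
  simpa using this

lemma Ex_sum {ι : Type*} (s : Finset ι) (t : ℕ) (F : ι → List G → ℝ) :
    Ex t (fun l => ∑ i ∈ s, F i l) = ∑ i ∈ s, Ex t (F i) := by
  classical
  induction s using Finset.induction_on with
  | empty => simpa using Ex_zero t
  | insert a s ha ih =>
    simp only [Finset.sum_insert ha]
    rw [Ex_add, ih]

lemma Ex_pot [Nonempty G] {Ψ : List G → ℝ} {γ : ℝ} (hγ : 0 ≤ γ)
    (h : ∀ l, ∑ y : G, Ψ (y :: l) ≤ Fintype.card G * (γ * Ψ l)) :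
    ∀ t : ℕ, Ex t Ψ ≤ γ ^ t * Ψ []
  | 0 => by simp [Ex]
  | t + 1 => by
    have ih := Ex_pot hγ h t
    have hc : (0 : ℝ) < Fintype.card G := by positivity
    simp only [Ex]
    rw [← Ex_sum, div_le_iff₀ hc]
    refine (Ex_mono t fun l _ => h l).trans ?_
    rw [Ex_const_mul, Ex_const_mul, pow_succ]
    have := mul_le_mul_of_nonneg_left ih hγ
    nlinarith

lemma Ex_append : ∀ (t₁ t₂ : ℕ) (F : List G → ℝ),
    Ex (t₁ + t₂) F = Ex t₁ (fun l₁ => Ex t₂ (fun l₂ => F (l₁ ++ l₂)))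
  | 0, t₂, F => by simp [Ex]
  | t₁ + 1, t₂, F => by
    rw [Nat.add_right_comm]
    simp only [Ex]
    congr 1
    refine Finset.sum_congr rfl fun y _ => ?_
    rw [Ex_append t₁ t₂]
    rfl

lemma Ex_eq_sum : ∀ (t : ℕ) (F : List G → ℝ),
    Ex t F = (∑ Z : Fin t → G, F (List.ofFn Z)) / (Fintype.card G : ℝ) ^ t
  | 0, F => by simp [Ex]
  | t + 1, F => by
    simp only [Ex]
    rw [← (Fin.consEquiv (fun _ : Fin (t + 1) => G)).sum_comp, Fintype.sum_prod_type,
      pow_succ, ← div_div, Finset.sum_div _ _ ((Fintype.card G : ℝ) ^ t)]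
    congr 1
    refine Finset.sum_congr rfl fun y _ => ?_
    rw [Ex_eq_sum t]
    congr 1
    refine Finset.sum_congr rfl fun Z _ => ?_
    simp [Fin.consEquiv, List.ofFn_succ]

open Classical in
/-- probability of an event for a uniformly random list of length `t` -/
noncomputable def Pr (t : ℕ) (p : List G → Prop) : ℝ := Ex t (fun l => if p l then 1 else 0)

lemma Pr_le_Ex {t : ℕ} {p : List G → Prop} {Ψ : List G → ℝ}
    (h0 : ∀ l, l.length = t → 0 ≤ Ψ l) (h1 : ∀ l, l.length = t → p l → 1 ≤ Ψ l) :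
    Pr t p ≤ Ex t Ψ := by
  refine Ex_mono t fun l hl => ?_
  split_ifs with h
  · exact h1 l hl h
  · exact h0 l hl

lemma Pr_markov {t : ℕ} {p : List G → Prop} {Ψ : List G → ℝ} {c : ℝ} (hc : 0 < c)
    (h0 : ∀ l, l.length = t → 0 ≤ Ψ l) (h1 : ∀ l, l.length = t → p l → c ≤ Ψ l) :
    Pr t p ≤ c⁻¹ * Ex t Ψ := by
  rw [← Ex_const_mul]
  refine Pr_le_Ex (fun l hl => mul_nonneg (inv_nonneg.mpr hc.le) (h0 l hl)) fun l hl hp => ?_
  rw [← div_eq_inv_mul, le_div_iff₀ hc, one_mul]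
  exact h1 l hl hp

lemma Pr_nonneg (t : ℕ) (p : List G → Prop) : 0 ≤ Pr t p := by
  rw [← Ex_zero (G := G) t]
  refine Ex_mono t fun l _ => ?_
  split_ifs <;> norm_num

lemma Pr_le_one [Nonempty G] (t : ℕ) (p : List G → Prop) : Pr t p ≤ 1 := by
  rw [← Ex_const (G := G) t 1]
  refine Ex_mono t fun l _ => ?_
  split_ifs <;> norm_num

lemma Pr_union {t : ℕ} {p q r : List G → Prop} (h : ∀ l, l.length = t → p l → q l ∨ r l) :
    Pr t p ≤ Pr t q + Pr t r := by
  rw [Pr, Pr, Pr, ← Ex_add]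
  refine Ex_mono t fun l hl => ?_
  have := h l hl
  by_cases hp : p l <;> by_cases hq : q l <;> by_cases hr : r l <;> simp_all

lemma Pr_mono {t : ℕ} {p q : List G → Prop} (h : ∀ l, l.length = t → p l → q l) :
    Pr t p ≤ Pr t q := by
  refine Ex_mono t fun l hl => ?_
  have := h l hl
  by_cases hp : p l <;> by_cases hq : q l <;> simp_all

lemma Pr_eq_zero {t : ℕ} {p : List G → Prop} (h : ∀ l, l.length = t → ¬ p l) : Pr t p = 0 := by
  refine le_antisymm ?_ (Pr_nonneg t p)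
  rw [← Ex_zero (G := G) t]
  refine Ex_mono t fun l hl => ?_
  simp [h l hl]

/-- two-stage bound -/
lemma Pr_append [Nonempty G] {t₁ t₂ : ℕ} {p q : List G → Prop} {b : ℝ} (hb : 0 ≤ b)
    (h : ∀ l₁, l₁.length = t₁ → ¬ q l₁ → Pr t₂ (fun l₂ => p (l₁ ++ l₂)) ≤ b) :
    Pr (t₁ + t₂) p ≤ Pr t₁ q + b := by
  classical
  have e : Pr t₁ q + b = Ex t₁ (fun l => (if q l then 1 else 0) + b) := by
    rw [Ex_add, Ex_const]; rfl
  rw [e, Pr, Ex_append]
  refine Ex_mono t₁ fun l₁ hl => ?_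
  by_cases hq : q l₁
  · have := Pr_le_one t₂ (fun l₂ => p (l₁ ++ l₂))
    rw [Pr] at this
    simp only [hq, if_true]
    linarith
  · have := h l₁ hl hq
    rw [Pr] at this
    simp only [hq, if_false]
    linarith

end Pool.Agent.Lib.MP_c1e253_pr
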