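import Mathlib

set_option autoImplicit false

namespace Pool.Agent.Lib.MP_c1e253_pr

/-- The group of upper unitriangular `d × d` matrices over `ZMod p`. -/
def Unitri (p d : ℕ) : Subgroup (GL (Fin d) (ZMod p)) where
  carrier := {g | (∀ i j, j < i → g.val i j = 0) ∧ ∀ i, g.val i i = 1}
  one_mem' := ⟨fun _ _ h => Matrix.one_apply_ne h.ne', fun i => Matrix.one_apply_eq i⟩
  mul_mem' := fun {a b} ha hb => by
    constructor
    · intro i j h
      rw [Units.val_mul, Matrix.mul_apply]
      refine Finset.sum_eq_zero fun c _ => ?_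
      rcases lt_or_ge c i with hc | hc
      · rw [ha.1 i c hc, zero_mul]
      · rw [hb.1 c j (lt_of_lt_of_le h hc), mul_zero]
    · intro i
      rw [Units.val_mul, Matrix.mul_apply, Finset.sum_eq_single i]
      · rw [ha.2 i, hb.2 i, one_mul]
      · intro c _ hc
        rcases lt_or_gt_of_ne hc with hc | hc
        · rw [ha.1 i c hc, zero_mul]
        · rw [hb.1 c i hc, mul_zero]
      · simp
  inv_mem' := fun {g} hg => by
    have h1 : ∀ i j, j < i → g⁻¹.val i j = 0 := by
      let := g.invertible
      have := Matrix.blockTriangular_inv_of_blockTriangular (M := g.val) (b := id)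
        (fun i j h => hg.1 i j h)
      intro i j h
      rw [Matrix.coe_units_inv]
      exact this h
    refine ⟨h1, fun i => ?_⟩
    have h2 := congrFun (congrFun g.inv_mul i) i
    rw [Matrix.mul_apply, Finset.sum_eq_single i, hg.2 i, mul_one, Matrix.one_apply_eq] at h2
    · exact h2
    · intro c _ hc
      rcases lt_or_gt_of_ne hc with hc | hc
      · rw [h1 i c hc, zero_mul]
      · rw [hg.1 c i hc, mul_zero]
    · simp

/-- The spectral gap of simple random walk on the undirected Cayley graph of a finite group `G`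
with generators `Z i`: the least value of the Dirichlet form on real functions of sum zero and
norm one. -/
noncomputable def specGap {G : Type} [Group G] {k : ℕ} (Z : Fin k → G) : ℝ :=
  sInf {r | ∃ f : G → ℝ, ∑ᶠ g, f g = 0 ∧ ∑ᶠ g, f g ^ 2 = 1 ∧
    r = (∑ i, ∑ᶠ g, (f (g * Z i) - f g) ^ 2) / (2 * k)}

end Pool.Agent.Lib.MP_c1e253_pr
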