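import Pool.Agent.Lib.MP_c1e253_pr.NonLin
import Pool.Agent.Lib.MP_c1e253_pr.GapDef

/-! Comparison of the spectral gap of a group with that of a quotient. -/

set_option autoImplicit false

namespace Pool.Agent.Lib.MP_c1e253_pr

section general

variable {G : Type} [Group G] [Fintype G] {k : ℕ}

lemma dirichlet_eq (f : G → ℝ) (z : G) :
    ∑ g, (f (g * z) - f g) ^ 2 = 2 * ∑ g, f g ^ 2 - 2 * ∑ g, f g * f (g * z) := by
  have h : ∑ g, f (g * z) ^ 2 = ∑ g, f g ^ 2 :=
    Equiv.sum_comp (Equiv.mulRight z) fun g => f g ^ 2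
  simp only [sub_sq, Finset.sum_add_distrib, Finset.sum_sub_distrib, h, Finset.mul_sum]
  have : ∀ g, 2 * f (g * z) * f g = 2 * (f g * f (g * z)) := fun g => by ring
  simp only [this, ← Finset.mul_sum]
  ring

lemma gap_bdd (Z : Fin k → G) : BddBelow {r | ∃ f : G → ℝ, ∑ᶠ g, f g = 0 ∧ ∑ᶠ g, f g ^ 2 = 1 ∧
    r = (∑ i, ∑ᶠ g, (f (g * Z i) - f g) ^ 2) / (2 * k)} := by
  refine ⟨0, ?_⟩
  rintro r ⟨f, -, -, rfl⟩
  simp only [finsum_eq_sum_of_fintype]
  positivity

lemma gap_mul_le (hk : 0 < k) (Z : Fin k → G) (f : G → ℝ) (h0 : ∑ g, f g = 0) :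
    specGap Z * (2 * k * ∑ g, f g ^ 2) ≤ ∑ i, ∑ g, (f (g * Z i) - f g) ^ 2 := by
  have hk' : (0 : ℝ) < k := by exact_mod_cast hk
  rcases (show 0 ≤ ∑ g, f g ^ 2 by positivity).eq_or_lt with h | h
  · rw [← h, mul_zero, mul_zero]
    positivity
  · set a := ∑ g, f g ^ 2 with ha
    have hs : √a ^ 2 = a := Real.sq_sqrt h.le
    have h1 := csInf_le (gap_bdd Z) ⟨fun g => f g / √a, by
      rw [finsum_eq_sum_of_fintype, ← Finset.sum_div, h0, zero_div], by
      simp only [finsum_eq_sum_of_fintype, div_pow, ← Finset.sum_div, hs]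
      exact div_self h.ne', rfl⟩
    simp only [finsum_eq_sum_of_fintype, ← sub_div, div_pow, hs, ← Finset.sum_div] at h1
    rw [div_div, le_div_iff₀ (by positivity)] at h1
    refine le_trans (le_of_eq ?_) h1
    rw [mul_comm a]
    simp only [specGap, finsum_eq_sum_of_fintype]

omit [Group G] in
lemma exists_test [Nontrivial G] : ∃ f : G → ℝ, ∑ g, f g = 0 ∧ ∑ g, f g ^ 2 = 1 := by
  classical
  obtain ⟨a, b, hab⟩ := exists_pair_ne G
  have hs : (√2 : ℝ) ^ 2 = 2 := Real.sq_sqrt (by norm_num)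
  refine ⟨fun g => ((if g = a then 1 else 0) - if g = b then 1 else 0) / √2, ?_, ?_⟩
  · simp [← Finset.sum_div]
  · simp only [div_pow, hs, ← Finset.sum_div]
    have : ∀ g, ((if g = a then (1 : ℝ) else 0) - if g = b then 1 else 0) ^ 2
        = (if g = a then 1 else 0) + if g = b then 1 else 0 := by
      intro g
      by_cases h1 : g = a
      · simp [h1, hab]
      · by_cases h2 : g = b
        · simp [h2, hab.symm]
        · simp [h1, h2]
    simp only [this, Finset.sum_add_distrib, Finset.sum_ite_eq', Finset.mem_univ, if_true]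
    norm_num

variable {A : Type} [Group A] [Fintype A] (π : G →* A) (hπ : Function.Surjective π)
  [Fintype π.ker]

omit [Fintype A] in
lemma fiber_sum [DecidableEq A] (f : G → ℝ) (g : G) :
    ∑ c : π.ker, f (g * c) = ∑ x with π x = π g, f x := by
  refine Finset.sum_bij (fun c _ => g * c) ?_ ?_ ?_ fun _ _ => rfl
  · intro c _
    simp [(MonoidHom.mem_ker).1 c.2]
  · intro c _ c' _ h
    exact Subtype.ext (mul_left_cancel h)
  · intro x hx
    refine ⟨⟨g⁻¹ * x, ?_⟩, Finset.mem_univ _, by simp⟩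
    rw [MonoidHom.mem_ker, map_mul, (Finset.mem_filter.1 hx).2, map_inv, inv_mul_cancel]

include hπ

lemma sum_lift (F : A → ℝ) : ∑ g, F (π g) = Fintype.card π.ker * ∑ a, F a := by
  classical
  rw [← Finset.sum_fiberwise Finset.univ π, Finset.mul_sum]
  refine Finset.sum_congr rfl fun a _ => ?_
  obtain ⟨g, rfl⟩ := hπ a
  rw [← fiber_sum π (fun x => F (π x)) g]
  simp [(MonoidHom.mem_ker).1 (Subtype.property _)]

lemma gap_le_quot [Nontrivial A] (hk : 0 < k) (Z : Fin k → G) :
    specGap Z ≤ specGap fun i => π (Z i) := by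
  have hk' : (0 : ℝ) < k := by exact_mod_cast hk
  have hm : (0 : ℝ) < Fintype.card π.ker := by positivity
  refine le_csInf ?_ ?_
  · obtain ⟨F, h0, h1⟩ := exists_test (G := A)
    exact ⟨_, F, by rwa [finsum_eq_sum_of_fintype], by rwa [finsum_eq_sum_of_fintype], rfl⟩
  · rintro r ⟨F, h0, h1, rfl⟩
    simp only [finsum_eq_sum_of_fintype] at h0 h1 ⊢
    have h2 := gap_mul_le hk Z (fun g => F (π g)) (by rw [sum_lift π hπ, h0, mul_zero])
    rw [sum_lift π hπ fun a => F a ^ 2, h1] at h2
    have h3 : ∀ i, ∑ g, (F (π (g * Z i)) - F (π g)) ^ 2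
        = Fintype.card π.ker * ∑ a, (F (a * π (Z i)) - F a) ^ 2 := fun i => by
      rw [← sum_lift π hπ]
      simp only [map_mul]
    simp only [h3, ← Finset.mul_sum] at h2
    rw [le_div_iff₀ (by positivity)]
    refine le_of_mul_le_mul_left ?_ hm
    linarith

lemma dirichlet_ge (hk : 0 < k) (Z : Fin k → G)
    (hZ : ∀ f : G → ℝ, (∀ g, ∑ c : π.ker, f (g * c) = 0) →
      ∑ i, ∑ g, f g * f (g * Z i) ≤ 299 / 300 * k * ∑ g, f g ^ 2)
    (f : G → ℝ) (h0 : ∑ g, f g = 0) :
    min (1 / 300) (specGap fun i => π (Z i)) * (2 * k * ∑ g, f g ^ 2)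
      ≤ ∑ i, ∑ g, (f (g * Z i) - f g) ^ 2 := by
  classical
  have hk' : (0 : ℝ) < k := by exact_mod_cast hk
  have hm : (0 : ℝ) < Fintype.card π.ker := by positivity
  let F : A → ℝ := fun a => (∑ x with π x = a, f x) / Fintype.card π.ker
  let e : G → ℝ := fun g => f g - F (π g)
  have he : ∀ g, ∑ c : π.ker, e (g * c) = 0 := by
    intro g
    simp only [e, Finset.sum_sub_distrib, map_mul, (MonoidHom.mem_ker).1 (Subtype.property _),
      mul_one, Finset.sum_const, Finset.card_univ, nsmul_eq_mul, fiber_sum π f g, F]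
    field_simp
    ring
  have horth : ∀ B : A → ℝ, ∑ g, B (π g) * e g = 0 := by
    intro B
    rw [← Finset.sum_fiberwise Finset.univ π]
    refine Finset.sum_eq_zero fun a _ => ?_
    obtain ⟨g, rfl⟩ := hπ a
    rw [← fiber_sum π (fun x => B (π x) * e x) g]
    simp only [map_mul, (MonoidHom.mem_ker).1 (Subtype.property _), mul_one, ← Finset.mul_sum,
      he g, mul_zero]
  have hf : ∀ g, f g = F (π g) + e g := fun g => by simp [e]
  have hF0 : ∑ a, F a = 0 := by
    simp only [F, ← Finset.sum_div]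
    rw [Finset.sum_fiberwise Finset.univ π f, h0, zero_div]
  have hn : ∑ g, f g ^ 2 = Fintype.card π.ker * ∑ a, F a ^ 2 + ∑ g, e g ^ 2 := by
    have := horth fun a => 2 * F a
    rw [← sum_lift π hπ fun a => F a ^ 2]
    simp only [hf, add_sq, Finset.sum_add_distrib, this, add_zero]
  have hc : ∀ z, ∑ g, f g * f (g * z)
      = Fintype.card π.ker * ∑ a, F a * F (a * π z) + ∑ g, e g * e (g * z) := by
    intro z
    have a1 := horth fun a => F (a * π z)
    have a2 := horth fun a => F (a * (π z)⁻¹)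
    rw [← Equiv.sum_comp (Equiv.mulRight z)] at a2
    simp only [Equiv.coe_mulRight, map_mul, mul_inv_cancel_right] at a2
    rw [← sum_lift π hπ fun a => F a * F (a * π z)]
    have : ∀ g, f g * f (g * z) = F (π g) * F (π g * π z) + e g * e (g * z)
        + F (π g * π z) * e g + F (π g) * e (g * z) := fun g => by
      rw [hf g, hf (g * z), map_mul]; ring
    simp only [this, Finset.sum_add_distrib, a1, a2, add_zero]
  have h1 := gap_mul_le hk (fun i => π (Z i)) F hF0
  have h2 := hZ e he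
  simp only [dirichlet_eq, Finset.sum_sub_distrib, Finset.sum_const, Finset.card_univ,
    Fintype.card_fin, nsmul_eq_mul, ← Finset.mul_sum] at h1 ⊢
  simp only [hc, Finset.sum_add_distrib, ← Finset.mul_sum]
  rw [hn]
  have b1 : 0 ≤ 2 * k * ∑ a, F a ^ 2 := by positivity
  have b2 : 0 ≤ 2 * k * ∑ g, e g ^ 2 := by positivity
  have c1 := mul_le_mul_of_nonneg_right (min_le_right (1 / 300) (specGap fun i => π (Z i))) b1
  have c2 := mul_le_mul_of_nonneg_right (min_le_left (1 / 300) (specGap fun i => π (Z i))) b2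
  have c3 := mul_le_mul_of_nonneg_left (c1.trans h1) hm.le
  nlinarith

end general

variable {d p : ℕ} [NeZero p]

/-- the two models of the unitriangular group agree -/
noncomputable def toUT (p d : ℕ) [NeZero p] : Unitri p d ≃* UT d p :=
  MulEquiv.ofBijective
    (MonoidHom.mk' (G := UT d p) (fun g : Unitri p d =>
      ((⟨g.val.val, fun i j => ⟨g.2.1 i j, g.2.2 i⟩⟩ : UTm d p) : UT d p)) fun _ _ => rfl)
    ⟨fun _ _ h => Subtype.ext (Units.ext (congrArg UT.val h)), fun g => by
      have hdet : g.val.det = 1 := by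
        rw [Matrix.det_of_isUpperTriangular (fun i j hij => (g.prop i j).1 hij)]
        exact Finset.prod_eq_one fun i _ => (g.prop i i).2
      have hu : IsUnit g.val := by
        rw [Matrix.isUnit_iff_isUnit_det, hdet]; exact isUnit_one
      obtain ⟨u, hu⟩ := hu
      exact ⟨⟨u, fun i j => hu ▸ (g.prop i j).1, fun i => hu ▸ (g.prop i i).2⟩, UT.ext' hu⟩⟩

theorem ab_nontrivial (hp : p.Prime) (hd : 3 ≤ d) : Nontrivial (Abelianization (Unitri p d)) := by
  have := Fact.mk hp
  let a : Fin d := ⟨0, by omega⟩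
  let b : Fin d := ⟨1, by omega⟩
  let g : UT d p := rowEl a (Pi.single b 1)
  refine ⟨Abelianization.of ((toUT p d).symm g), 1, fun h => ?_⟩
  have h1 := congrArg (Abelianization.lift ((supHom d p).comp (toUT p d).toMonoidHom)) h
  rw [Abelianization.lift_apply_of, map_one] at h1
  have h2 : g ∈ NN d p 1 := mem_NN_one.2 (by simpa using h1)
  have h3 := mem_NN.1 h2 a b (by simp [a, b, Fin.lt_def]) (by simp [a, b])
  have hab : a ≠ b := by simp [a, b]
  have hlt : a < b := by simp [a, b, Fin.lt_def]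
  simp [g, rowEl_val, rowMat, Matrix.one_apply_ne hab, hlt] at h3

theorem gap_count (hp : p.Prime) (hd : 3 ≤ d) {k : ℕ}
    (hk : 2000 * (d : ℝ) * √(Real.log p) ≤ k) :
    (1 - 6 * Real.exp (-(d * Real.log p))) * (Nat.card (Unitri p d) : ℝ) ^ k ≤
      ({Z : Fin k → Unitri p d | min (1 / 300) (specGap Z) =
        min (1 / 300) (specGap fun i => Abelianization.of (Z i))}.ncard : ℝ) := by
  classical
  let e := toUT p d
  have : Fintype (Unitri p d) := Fintype.ofEquiv _ e.symm.toEquiv
  have : Fintype (Abelianization (Unitri p d)) :=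
    Fintype.ofSurjective Abelianization.of (QuotientGroup.mk'_surjective _)
  have := ab_nontrivial hp hd
  have hk0 : 0 < k := by
    have hd' : (3 : ℝ) ≤ d := by exact_mod_cast hd
    have : 0 < √(Real.log p) := Real.sqrt_pos.2 (Real.log_pos (by exact_mod_cast hp.one_lt))
    have : (0 : ℝ) < k := lt_of_lt_of_le (by positivity) hk
    exact_mod_cast this
  have hk' : (0 : ℝ) < k := by exact_mod_cast hk0
  have hs : Function.Surjective (Abelianization.of : Unitri p d →* _) :=
    QuotientGroup.mk'_surjective _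
  let π : UT d p →* Abelianization (Unitri p d) := Abelianization.of.comp e.symm.toMonoidHom
  have hπ : Function.Surjective π := hs.comp e.symm.surjective
  have hK : ∀ c ∈ π.ker, supHom d p c = 1 := by
    intro c hc
    have h1 := congrArg (Abelianization.lift ((supHom d p).comp e.toMonoidHom))
      ((MonoidHom.mem_ker).1 hc)
    simpa [π] using h1
  have h1 := card_good (ut_prob_off hp hd hk π.ker hK)
  rw [Nat.card_congr e.toEquiv, Nat.card_eq_fintype_card]
  refine h1.trans ?_
  rw [Nat.cast_le, Set.ncard_eq_toFinset_card']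
  refine Finset.card_le_card_of_injOn (fun W i => e.symm (W i)) ?_ ?_
  · intro W hW
    rw [Finset.mem_coe, Finset.mem_filter] at hW
    rw [Finset.mem_coe, Set.mem_toFinset, Set.mem_ofPred_eq]
    refine le_antisymm (min_le_min_left _ (gap_le_quot _ hs hk0 _))
      (le_min (min_le_left _ _) (le_csInf ?_ ?_))
    · have : Nontrivial (Unitri p d) := hs.nontrivial
      obtain ⟨F, h0, h1⟩ := exists_test (G := Unitri p d)
      exact ⟨_, F, by rwa [finsum_eq_sum_of_fintype], by rwa [finsum_eq_sum_of_fintype], rfl⟩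
    · rintro r ⟨f, h0, h1, rfl⟩
      simp only [finsum_eq_sum_of_fintype] at h0 h1 ⊢
      have h2 := dirichlet_ge π hπ hk0 W (gap_test π.ker W hW.2) (fun g => f (e.symm g))
        ((Equiv.sum_comp e.symm.toEquiv f).trans h0)
      have h3 : ∑ g, f (e.symm g) ^ 2 = 1 :=
        (Equiv.sum_comp e.symm.toEquiv fun g => f g ^ 2).trans h1
      have h4 : ∀ i, ∑ g, (f (e.symm (g * W i)) - f (e.symm g)) ^ 2
          = ∑ g, (f (g * e.symm (W i)) - f g) ^ 2 := fun i => by
        simp only [map_mul]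
        exact Equiv.sum_comp e.symm.toEquiv fun g => (f (g * e.symm (W i)) - f g) ^ 2
      simp only [h3, h4, mul_one] at h2
      rw [le_div_iff₀ (by positivity)]
      exact h2
  · intro W _ W' _ h
    funext i
    exact e.symm.injective (congrFun h i)

end Pool.Agent.Lib.MP_c1e253_pr
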