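import Pool.Agent.Lib.MP_c1e253_pr.Unitri

/-! The probability bound for unitriangular groups. -/

set_option autoImplicit false

open scoped MatrixOrder ComplexOrder Pointwise Matrix.Norms.L2Operator
open Matrix

namespace Pool.Agent.Lib.MP_c1e253_pr

variable {d p : ℕ} [NeZero p]

theorem ut_prob (hp : p.Prime) (hd : 3 ≤ d) {k : ℕ}
    (hk : 1152 * ((d : ℝ) - 1) * Real.log p ≤ k) (hu : 3 ≤ d * Real.log p) :
    Pr k (fun l : List (UT d p) => ¬ Gap (reg (UT d p)) (Q0 (UT d p)) l)
      ≤ 6 * Real.exp (-(d * Real.log p)) := by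
  set u : ℝ := d * Real.log p with hudef
  have hd' : (3 : ℝ) ≤ d := by exact_mod_cast hd
  have hp2 : (2 : ℝ) ≤ p := by exact_mod_cast hp.two_le
  have hp0 : (0 : ℝ) < p := by linarith
  have hlog : 1 / 2 ≤ Real.log p := by
    have := Real.log_le_log two_pos hp2
    have := Real.log_two_gt_d9
    linarith
  have hdu : (d : ℝ) ≤ 2 * u := by rw [hudef]; nlinarith
  have hku : 768 * u ≤ k := by rw [hudef]; nlinarith
  obtain ⟨t, r, hr, rfl⟩ : ∃ t r, r ≤ 1 ∧ k = t + t + r := ⟨k / 2, k % 2, by omega, by omega⟩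
  have hr' : (r : ℝ) ≤ 1 := by exact_mod_cast hr
  have htu : 256 * u ≤ t := by push_cast at hku; linarith
  have ht : 17 ≤ t := by
    have : (17 : ℝ) ≤ t := by linarith
    exact_mod_cast this
  have hpow : ∀ m : ℕ, ((p ^ (d * m) : ℕ) : ℝ) = Real.exp (u * m) := by
    intro m
    have : u * m = ((d * m : ℕ) : ℝ) * Real.log p := by rw [hudef]; push_cast; ring
    rw [this, Real.exp_nat_mul, Real.exp_log hp0]
    push_cast
    rfl
  let w : ℕ → ℝ := fun s => if s < 64 then Real.exp (1 - ((t + t + r : ℕ) : ℝ) / 8)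
    else Real.exp (-(s * t / 64)) + Real.exp (3 * t - t ^ 2 / 96)
  have hw : ∀ s, 0 ≤ w s := fun s => by
    simp only [w]
    split_ifs <;> positivity
  refine (regular_bound (t + t + r) d (fun s => NN d p (s + 1))
    (fun s => ⟨1, one_mem_NN _⟩) w hw ?_).trans ?_
  · intro Q hQ h0
    obtain ⟨s, hs, h1, h2⟩ := exists_level hp hQ h0
    refine ⟨s, hs, h1, ?_⟩
    simp only [w]
    split_ifs with h
    · exact rep_small reg_star hQ h0 _
    · exact rep_large reg_star hQ h0 (not_lt.mp h) h2 ht hr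
  · have hterm : ∀ s ∈ Finset.range d, w s * (Fintype.card (UT d p) / (NN d p (s + 1)).card)
        ≤ 3 * Real.exp (-(2 * u)) := by
      intro s _
      have hc : (0 : ℝ) < (NN d p (s + 1)).card := by
        exact_mod_cast Finset.card_pos.mpr ⟨1, one_mem_NN _⟩
      have hc1 : (1 : ℝ) ≤ (NN d p (s + 1)).card := by
        exact_mod_cast Finset.card_pos.mpr ⟨1, one_mem_NN _⟩
      have r1 : (Fintype.card (UT d p) : ℝ) / (NN d p (s + 1)).card
          ≤ Real.exp (u * (s + 1 : ℕ)) := by
        rw [div_le_iff₀ hc, ← hpow]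
        exact_mod_cast card_le_mul_NN (s + 1)
      have r2 : (Fintype.card (UT d p) : ℝ) / (NN d p (s + 1)).card ≤ Real.exp (u * d) := by
        refine (div_le_self (Nat.cast_nonneg _) hc1).trans ?_
        rw [← hpow]
        exact_mod_cast card_UT_le
      have hE := Real.exp_pos (-(2 * u))
      simp only [w]
      split_ifs with h
      · have hs : (s : ℝ) + 1 ≤ 64 := by exact_mod_cast h
        refine (mul_le_mul_of_nonneg_left r1 (Real.exp_pos _).le).trans ?_
        rw [← Real.exp_add]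
        have h1 : Real.exp 1 ≤ 3 := (Real.exp_one_lt_d9.le).trans (by norm_num)
        calc Real.exp (1 - ((t + t + r : ℕ) : ℝ) / 8 + u * (s + 1 : ℕ))
            ≤ Real.exp (1 + -(2 * u)) := by
              refine Real.exp_le_exp.mpr ?_
              push_cast at hku ⊢
              nlinarith
          _ ≤ 3 * Real.exp (-(2 * u)) := by
              rw [Real.exp_add]; gcongr
      · have hs : (64 : ℝ) ≤ s := by exact_mod_cast not_lt.mp h
        rw [add_mul]
        have b1 : Real.exp (-(s * t / 64)) * (Fintype.card (UT d p) / (NN d p (s + 1)).card)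
            ≤ Real.exp (-(2 * u)) := by
          refine (mul_le_mul_of_nonneg_left r1 (Real.exp_pos _).le).trans ?_
          rw [← Real.exp_add]
          refine Real.exp_le_exp.mpr ?_
          push_cast
          nlinarith
        have b2 : Real.exp (3 * t - t ^ 2 / 96) * (Fintype.card (UT d p) / (NN d p (s + 1)).card)
            ≤ Real.exp (-(2 * u)) := by
          refine (mul_le_mul_of_nonneg_left r2 (Real.exp_pos _).le).trans ?_
          rw [← Real.exp_add]
          refine Real.exp_le_exp.mpr ?_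
          have c1 : u * d ≤ 2 * u ^ 2 := by nlinarith
          have c2 : 3 * (t : ℝ) ≤ t ^ 2 / 192 := by nlinarith
          have c3 : (256 * u) ^ 2 ≤ (t : ℝ) ^ 2 := by gcongr
          nlinarith
        linarith
    refine (Finset.sum_le_sum hterm).trans ?_
    rw [Finset.sum_const, Finset.card_range, nsmul_eq_mul]
    have h1 : u ≤ Real.exp u := by linarith [Real.add_one_le_exp u]
    have h2 : Real.exp (-u) = Real.exp u * Real.exp (-(2 * u)) := by
      rw [← Real.exp_add]; congr 1; ring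
    rw [h2]
    have hE := Real.exp_pos (-(2 * u))
    nlinarith

theorem card_good {G : Type*} [Fintype G] [Nonempty G] {k : ℕ} {q : List G → Prop} {δ : ℝ}
    [DecidablePred fun Z : Fin k → G => q (List.ofFn Z)] (h : Pr k (fun l => ¬ q l) ≤ δ) :
    (1 - δ) * (Fintype.card G : ℝ) ^ k
      ≤ ((Finset.univ.filter fun Z : Fin k → G => q (List.ofFn Z)).card : ℝ) := by
  have hc : (0 : ℝ) < (Fintype.card G : ℝ) ^ k := by positivity
  rw [Pr, Ex_eq_sum, div_le_iff₀ hc] at h
  have h1 : ((Finset.univ.filter fun Z : Fin k → G => q (List.ofFn Z)).card : ℝ)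
      = ∑ Z : Fin k → G, (if q (List.ofFn Z) then (1 : ℝ) else 0) := by
    rw [Finset.card_filter]
    push_cast
    rfl
  have h2 : (Fintype.card G : ℝ) ^ k = ∑ _Z : Fin k → G, (1 : ℝ) := by simp
  rw [h1, sub_mul, one_mul, sub_le_iff_le_add]
  refine le_trans ?_ (add_le_add_right h _)
  rw [h2, ← Finset.sum_add_distrib]
  refine Finset.sum_le_sum fun Z _ => ?_
  by_cases hq : q (List.ofFn Z) <;> simp [hq]

theorem main_count (hp : p.Prime) (hd : 3 ≤ d) {k : ℕ}
    (hk : 1152 * ((d : ℝ) - 1) * Real.log p ≤ k) (hu : 3 ≤ d * Real.log p) {δ : ℝ}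
    (hδ : 6 * Real.exp (-(d * Real.log p)) ≤ δ) (H : Finset (Matrix (Fin d) (Fin d) (ZMod p)))
    (hH : ∀ M, M ∈ H ↔ ∀ i j, (j < i → M i j = 0) ∧ M i i = 1)
    (T : Finset (Fin k → Matrix (Fin d) (Fin d) (ZMod p)))
    [DecidableEq (Matrix (Fin d) (Fin d) (ZMod p))]
    (hT : ∀ Z : Fin k → Matrix (Fin d) (Fin d) (ZMod p), (∀ i, Z i ∈ H) →
      (∀ S : Finset (Matrix (Fin d) (Fin d) (ZMod p)), S ⊆ H → 2 * S.card ≤ H.card →
        1 / 600 * (k : ℝ) * (S.card : ℝ) ≤
          (((S ×ˢ (Finset.univ : Finset (Fin k))).filter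
            (fun x => x.1 * Z x.2 ∉ S)).card : ℝ)) → Z ∈ T) :
    (1 - δ) * (H.card : ℝ) ^ k ≤ T.card := by
  classical
  have hcard : Fintype.card (UT d p) = H.card :=
    @Fintype.card_of_subtype _ _ H hH (instFintypeUT (d := d) (p := p))
  have h1 := card_good ((ut_prob hp hd hk hu).trans hδ)
  rw [hcard] at h1
  refine h1.trans ?_
  rw [Nat.cast_le]
  refine Finset.card_le_card_of_injOn (fun Z i => (Z i).val) ?_ ?_
  · intro Z hZ
    rw [Finset.mem_coe, Finset.mem_filter] at hZ
    refine hT _ (fun i => (hH _).mpr (Z i).prop) fun S hS hS2 => ?_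
    let S' : Finset (UT d p) := Finset.univ.filter fun g => g.val ∈ S
    have hS' : S'.card = S.card := by
      refine Finset.card_bij (fun g _ => g.val) ?_ ?_ ?_
      · intro g hg
        exact (Finset.mem_filter.mp hg).2
      · intro g _ h _ e
        exact UT.ext' e
      · intro M hM
        exact ⟨(⟨M, (hH M).mp (hS hM)⟩ : UTm d p), Finset.mem_filter.mpr ⟨Finset.mem_univ _, hM⟩,
          rfl⟩
    have h2 := cheeger Z hZ.2 S' (by rw [hS', hcard]; exact hS2)
    rw [hS'] at h2
    refine h2.trans ?_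
    rw [Nat.cast_le]
    refine Finset.card_le_card_of_injOn (fun x => (x.1.val, x.2)) ?_ ?_
    · intro x hx
      rw [Finset.mem_coe, Finset.mem_filter, Finset.mem_product] at hx ⊢
      refine ⟨⟨(Finset.mem_filter.mp hx.1.1).2, Finset.mem_univ _⟩, fun h => hx.2 ?_⟩
      exact Finset.mem_filter.mpr ⟨Finset.mem_univ _, h⟩
    · intro x _ y _ e
      obtain ⟨e1, e2⟩ := Prod.mk.inj e
      exact Prod.ext (UT.ext' e1) e2
  · intro Z _ Z' _ e
    funext i
    exact UT.ext' (congrFun e i)

theorem large_of_card (hp : p.Prime) {u₀ : ℝ} {N : ℕ} (hN : Real.exp (2 * u₀ ^ 2) < N)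
    (hu₀ : 0 ≤ u₀) (H : Finset (Matrix (Fin d) (Fin d) (ZMod p))) (h : N ≤ H.card) :
    u₀ ≤ d * Real.log p := by
  by_contra hc
  push Not at hc
  have hp2 : (2 : ℝ) ≤ p := by exact_mod_cast hp.two_le
  have hp0 : (0 : ℝ) < p := by linarith
  have hlog : 1 / 2 ≤ Real.log p := by
    have := Real.log_le_log two_pos hp2
    have := Real.log_two_gt_d9
    linarith
  have hd0 : (0 : ℝ) ≤ d := Nat.cast_nonneg d
  have h1 : H.card ≤ p ^ (d * d) := by
    have := Finset.card_le_univ H
    rwa [show Fintype.card (Matrix (Fin d) (Fin d) (ZMod p))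
      = Fintype.card (Fin d → Fin d → ZMod p) from Fintype.card_congr Matrix.of.symm,
      Fintype.card_fun, Fintype.card_fun, ZMod.card, Fintype.card_fin, ← pow_mul] at this
  have h2 : ((p ^ (d * d) : ℕ) : ℝ) = Real.exp (d * Real.log p * d) := by
    have : d * Real.log p * d = ((d * d : ℕ) : ℝ) * Real.log p := by push_cast; ring
    rw [this, Real.exp_nat_mul, Real.exp_log hp0]
    push_cast
    rfl
  have h3 : (N : ℝ) ≤ Real.exp (d * Real.log p * d) := by
    rw [← h2]
    exact_mod_cast h.trans h1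
  have h4 : d * Real.log p * d ≤ 2 * u₀ ^ 2 := by
    have h5 : (d : ℝ) ≤ 2 * (d * Real.log p) := by nlinarith
    have h6 : 0 ≤ d * Real.log p := by positivity
    nlinarith
  have := Real.exp_le_exp.mpr h4
  linarith

end Pool.Agent.Lib.MP_c1e253_pr
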