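import Pool.Agent.Lib.MP_c1e253_pr.Schur
import Pool.Agent.Lib.MP_c1e253_pr.Ex

/-! Tail bounds for the two stages. -/

set_option autoImplicit false

open scoped MatrixOrder ComplexOrder Pointwise Matrix.Norms.L2Operator
open Matrix

namespace Pool.Agent.Lib.MP_c1e253_pr

variable {n : Type*} [Fintype n] [DecidableEq n] {G : Type*} [Group G]

/-- Hermitian part of `π g` -/
noncomputable def AA (π : G →* Matrix n n ℂ) (g : G) : Matrix n n ℂ :=
  (1 / 2 : ℝ) • (π g + π g⁻¹)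

/-- compression of the Hermitian part -/
noncomputable def AP (π : G →* Matrix n n ℂ) (P : Matrix n n ℂ) (g : G) : Matrix n n ℂ :=
  P * AA π g * P

variable {π : G →* Matrix n n ℂ} {Q : Matrix n n ℂ}

lemma norm_rep_le (hπ : ∀ g, star (π g) = π g⁻¹) (g : G) : ‖π g‖ ≤ 1 := by
  have hU : π g ∈ unitary (Matrix n n ℂ) := by
    rw [Unitary.mem_iff, hπ, ← map_mul, ← map_mul, inv_mul_cancel, mul_inv_cancel, map_one]
    exact ⟨rfl, rfl⟩
  have := CStarRing.norm_mul_mem_unitary (1 : Matrix n n ℂ) hU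
  rw [one_mul] at this
  rw [this]
  exact norm_one_le'

lemma AA_sa (hπ : ∀ g, star (π g) = π g⁻¹) (g : G) : IsSelfAdjoint (AA π g) := by
  rw [IsSelfAdjoint, AA, star_smul, star_add, hπ, hπ, inv_inv, star_trivial, add_comm]

lemma AA_norm (hπ : ∀ g, star (π g) = π g⁻¹) (g : G) : ‖AA π g‖ ≤ 1 := by
  rw [AA, norm_smul, Real.norm_of_nonneg (by norm_num)]
  have := norm_add_le (π g) (π g⁻¹)
  have := norm_rep_le hπ g
  have := norm_rep_le hπ g⁻¹
  linarith

lemma AP_good (hπ : ∀ g, star (π g) = π g⁻¹) {P : Matrix n n ℂ} (hP : IsStarProjection P)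
    (g : G) : Good P (AP π P g) where
  sa := (AA_sa hπ g).conjugate_self hP.isSelfAdjoint
  left := by rw [AP, ← mul_assoc, ← mul_assoc, hP.isIdempotentElem.eq]
  right := by rw [AP, mul_assoc, hP.isIdempotentElem.eq]
  norm_le := by
    have h1 := hP.norm_le
    have h2 := AA_norm hπ g
    calc ‖P * AA π g * P‖ ≤ ‖P‖ * ‖AA π g‖ * ‖P‖ := norm_mul₃_le
      _ ≤ 1 * 1 * 1 := by gcongr
      _ = 1 := by norm_num

lemma map_good (hπ : ∀ g, star (π g) = π g⁻¹) {P : Matrix n n ℂ} (hP : IsStarProjection P)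
    (l : List G) : ∀ A ∈ l.map (AP π P), Good P A := by
  intro A hA
  obtain ⟨g, -, rfl⟩ := List.mem_map.mp hA
  exact AP_good hπ hP g

lemma tau_mul_AP (hπ : ∀ g, star (π g) = π g⁻¹) {P R : Matrix n n ℂ} (hP : IsStarProjection P)
    (hR : IsSelfAdjoint R) (hl : P * R = R) (g : G) : tau (R * AP π P g) = tau (R * π g) := by
  have hr := right_of_left hP.isSelfAdjoint hR hl
  rw [AP, ← mul_assoc, tau_mul_comm, ← mul_assoc, ← mul_assoc, hl, hr, AA, mul_smul_comm,
    tau_smul, mul_add, tau_add]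
  have : tau (R * π g⁻¹) = tau (R * π g) := by
    rw [← tau_star, star_mul, hπ, inv_inv, hR.star_eq, tau_mul_comm]
  rw [this]
  ring

lemma AP_sq_le (hπ : ∀ g, star (π g) = π g⁻¹) {P : Matrix n n ℂ} (hP : IsStarProjection P)
    (g : G) : AP π P g * AP π P g ≤
      (1 / 2 : ℝ) • (P * (π g * P * π g⁻¹) * P + P * (π g⁻¹ * P * π g) * P) := by
  have hPP := hP.isIdempotentElem.eq
  set Y := P * π g * P with hY
  have hYs : star Y = P * π g⁻¹ * P := by
    rw [hY, star_mul, star_mul, hP.isSelfAdjoint.star_eq, hπ, mul_assoc]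
  have e1 : AP π P g = (1 / 2 : ℝ) • (Y + star Y) := by
    rw [AP, AA, hYs, hY, mul_smul_comm, smul_mul_assoc, mul_add, add_mul]
  have e2 : P * (π g * P * π g⁻¹) * P = Y * star Y := by
    rw [hYs, hY]
    simp only [mul_assoc]
    rw [← mul_assoc P P, hPP]
  have e3 : P * (π g⁻¹ * P * π g) * P = star Y * Y := by
    rw [hYs, hY]
    simp only [mul_assoc]
    rw [← mul_assoc P P, hPP]
  rw [e1, e2, e3, ← sub_nonneg]
  have e4 : (1 / 2 : ℝ) • (Y * star Y + star Y * Y)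
      - (1 / 2 : ℝ) • (Y + star Y) * (1 / 2 : ℝ) • (Y + star Y)
      = (1 / 4 : ℝ) • ((Y - star Y) * star (Y - star Y)) := by
    simp only [star_sub, star_star, smul_mul_assoc, mul_smul_comm, add_mul, mul_add, sub_mul,
      mul_sub]
    module
  rw [e4]
  exact smul_nonneg (by norm_num) (mul_star_self_nonneg _)

lemma hk_small {θ : ℝ} (h0 : 0 ≤ θ) (h1 : θ ≤ 1) :
    ∀ a : ℝ, -1 ≤ a → a ≤ 1 → Real.exp (θ * a) ≤ 1 + θ * a + θ ^ 2 * a ^ 2 := by
  intro a ha1 ha2
  have h : |θ * a| ≤ 1 := by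
    rw [abs_le]; constructor <;> nlinarith
  have := Real.abs_exp_sub_one_sub_id_le h
  have h2 := le_abs_self (Real.exp (θ * a) - 1 - θ * a)
  nlinarith

lemma hk_large {θ : ℝ} (h0 : 0 ≤ θ) :
    ∀ a : ℝ, -1 ≤ a → a ≤ 1 → Real.exp (θ * a) ≤ 1 + θ * a + Real.exp (3 * θ) * a ^ 2 := by
  intro a ha1 ha2
  have h := Complex.norm_exp_sub_sum_le_norm_mul_exp ((θ * a : ℝ) : ℂ) 2
  have e : Complex.exp ((θ * a : ℝ) : ℂ) - ∑ m ∈ Finset.range 2,
      ((θ * a : ℝ) : ℂ) ^ m / (m.factorial : ℂ) = ((Real.exp (θ * a) - 1 - θ * a : ℝ) : ℂ) := by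
    simp [Finset.sum_range_succ]
    ring
  rw [e, Complex.norm_real, Complex.norm_real, Real.norm_eq_abs, Real.norm_eq_abs, sq_abs] at h
  have h2 := le_abs_self (Real.exp (θ * a) - 1 - θ * a)
  have h3 : |θ * a| ≤ θ := by
    rw [abs_le]; constructor <;> nlinarith
  have h4 : Real.exp |θ * a| ≤ Real.exp θ := Real.exp_le_exp.mpr h3
  have h5 : θ ≤ Real.exp θ := by linarith [Real.add_one_le_exp θ]
  have h6 : Real.exp (3 * θ) = Real.exp θ ^ 2 * Real.exp θ := by
    rw [← pow_succ, ← Real.exp_nat_mul]; norm_num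
  have h7 : (θ * a) ^ 2 * Real.exp |θ * a| ≤ Real.exp (3 * θ) * a ^ 2 := by
    rw [h6, mul_pow]
    calc θ ^ 2 * a ^ 2 * Real.exp |θ * a| ≤ Real.exp θ ^ 2 * a ^ 2 * Real.exp θ := by gcongr
      _ = _ := by ring
  linarith

variable [Fintype G]

lemma sum_tau_AP (hπ : ∀ g, star (π g) = π g⁻¹) (h0 : (∑ g, π g) * Q = 0)
    {P R : Matrix n n ℂ} (hP : IsStarProjection P) (hQP : Q * P = P)
    (hR : IsSelfAdjoint R) (hl : P * R = R) : ∑ g, tau (R * AP π P g) = 0 := by
  simp only [tau_mul_AP hπ hP hR hl]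
  have : Q * R = R := by rw [← hl, ← mul_assoc, hQP]
  rw [← tau_sum, ← Finset.mul_sum, tau_mul_comm, ← this, ← mul_assoc, h0, zero_mul, tau_zero]

lemma sum_tau_AP_sq (hπ : ∀ g, star (π g) = π g⁻¹) (hQ : Irr π Q)
    {P R : Matrix n n ℂ} (hP : IsStarProjection P) (hQP : Q * P = P)
    (hR : 0 ≤ R) (hl : P * R = R) :
    ∑ g, tau (R * (AP π P g * AP π P g)) ≤ Fintype.card G * (tau P / tau Q * tau R) := by
  have hRs : IsSelfAdjoint R := .of_nonneg hR
  have hr := right_of_left hP.isSelfAdjoint hRs hl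
  have hQR : Q * R = R := by rw [← hl, ← mul_assoc, hQP]
  have hRQ := right_of_left hQ.inv.proj.isSelfAdjoint hRs hQR
  refine (Finset.sum_le_sum fun g _ => tau_mul_mono hR (AP_sq_le hπ hP g)).trans ?_
  have h1 : ∀ X, tau (R * (P * X * P)) = tau (R * X) := by
    intro X
    rw [← mul_assoc, tau_mul_comm, ← mul_assoc, ← mul_assoc, hl, hr]
  simp only [mul_smul_comm, tau_smul, mul_add, tau_add, h1]
  rw [Finset.sum_add_distrib, ← Finset.mul_sum, ← Finset.mul_sum,
    sum_tau_conj hπ hQ hRQ hP.isSelfAdjoint hQP]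
  have h2 : ∑ g, tau (R * (π g⁻¹ * P * π g)) = ∑ g, tau (R * (π g * P * π g⁻¹)) := by
    rw [← Equiv.sum_comp (Equiv.inv G)]
    simp
  rw [h2, sum_tau_conj hπ hQ hRQ hP.isSelfAdjoint hQP]
  linarith

/-- first moment bound -/
theorem bound_one (hπ : ∀ g, star (π g) = π g⁻¹) (hQ : Irr π Q) (h0 : (∑ g, π g) * Q = 0)
    {P : Matrix n n ℂ} (hP : IsStarProjection P) (hQP : Q * P = P) {θ κ : ℝ} (hθ : 0 < θ)
    (hκ0 : 0 ≤ κ)
    (hκ : ∀ a : ℝ, -1 ≤ a → a ≤ 1 → Real.exp (θ * a) ≤ 1 + θ * a + κ * a ^ 2) (t : ℕ)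
    {a : ℝ} (ha0 : 0 ≤ a) (ha1 : a ≤ 1) :
    Pr t (fun l : List G => ¬ (l.map (AP π P)).sum ≤ (a * t + t / 100) • P)
      ≤ (Real.exp (θ * a * t - 1))⁻¹ * ((1 + κ * (tau P / tau Q)) ^ t * tau P) := by
  obtain ⟨R, hR0, hR1, hR2, hR3⟩ := exists_potential hP hθ hκ t
  have hσ : 0 ≤ tau P / tau Q := div_nonneg (tau_nonneg hP.nonneg) hQ.tau_pos.le
  refine (Pr_markov (Ψ := fun l => tau (R (l.map (AP π P)))) (Real.exp_pos (θ * a * t - 1))
    (fun l _ => tau_nonneg (hR1 _ (map_good hπ hP l)).1) ?_).trans ?_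
  · intro l hl hbad
    obtain ⟨P', hP', -, h1, h2⟩ := hR3 _ (map_good hπ hP l) (by simpa using hl) a ha0 ha1
    have hne : P' ≠ 0 := by
      rintro rfl
      rw [smul_zero, add_zero] at h2
      exact hbad h2
    have := one_le_tau_of_proj hP' hne
    have h3 := Real.exp_pos (θ * a * t - 1)
    nlinarith
  · refine mul_le_mul_of_nonneg_left ?_ (inv_nonneg.mpr (Real.exp_pos _).le)
    have := Ex_pot (Ψ := fun l : List G => tau (R (l.map (AP π P))))
      (γ := 1 + κ * (tau P / tau Q)) (by positivity) ?_ t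
    · simpa [hR0] using this
    · intro l
      obtain ⟨h1, h2⟩ := hR1 _ (map_good hπ hP l)
      simp only [List.map_cons]
      refine (Finset.sum_le_sum fun y _ => hR2 _ _ (AP_good hπ hP y) (map_good hπ hP l)).trans ?_
      simp only [mul_add, mul_one, mul_smul_comm, tau_add, tau_smul, Finset.sum_add_distrib,
        ← Finset.mul_sum]
      rw [sum_tau_AP hπ h0 hP hQP (.of_nonneg h1) h2]
      have h3 := mul_le_mul_of_nonneg_left (sum_tau_AP_sq hπ hQ hP hQP h1 h2) hκ0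
      simp only [Finset.sum_const, Finset.card_univ, nsmul_eq_mul]
      nlinarith

omit [Fintype G] in
lemma abs_tau_mul_good {R A : Matrix n n ℂ} (hQ : IsStarProjection Q) (hR : 0 ≤ R)
    (hl : Q * R = R) (hA : Good Q A) : tau (R * A) ≤ tau R ∧ tau (R * (A * A)) ≤ tau R := by
  have hr := right_of_left hQ.isSelfAdjoint (.of_nonneg hR) hl
  constructor
  · have := tau_mul_mono hR (le_smul_of_norm_le hQ hA.sa hA.left hA.norm_le)
    rwa [one_smul, hr] at this
  · have h1 : ‖A * A‖ ≤ 1 := (norm_mul_le _ _).trans (by nlinarith [hA.norm_le, norm_nonneg A])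
    have h2 : IsSelfAdjoint (A * A) := by rw [IsSelfAdjoint, star_mul, hA.sa.star_eq]
    have := tau_mul_mono hR (le_smul_of_norm_le hQ h2 (by rw [← mul_assoc, hA.left]) h1)
    rwa [one_smul, hr] at this

lemma pow_step {ρ x Φ : ℝ} (s : ℕ) (hρ : 0 < ρ) (hΦ0 : 0 ≤ Φ) (hx : x ≤ ρ)
    (hΦ : Φ ≤ ρ + 1 / 4 * x + (1 / 4) ^ 2 * ρ) :
    Φ ^ s ≤ (35 / 32) ^ s * ρ ^ s + (21 / 16) ^ s * ρ ^ s * (64 * x ^ 2 / ρ ^ 2) := by
  by_cases h : x ≤ ρ / 8
  · have h1 : Φ ≤ 35 / 32 * ρ := by linarith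
    have h2 : Φ ^ s ≤ (35 / 32) ^ s * ρ ^ s := by
      rw [← mul_pow]; gcongr
    have h3 : 0 ≤ (21 / 16) ^ s * ρ ^ s * (64 * x ^ 2 / ρ ^ 2) := by positivity
    linarith
  · push Not at h
    have h1 : Φ ≤ 21 / 16 * ρ := by linarith
    have h2 : Φ ^ s ≤ (21 / 16) ^ s * ρ ^ s := by
      rw [← mul_pow]; gcongr
    have h3 : 1 ≤ 64 * x ^ 2 / ρ ^ 2 := by
      rw [le_div_iff₀ (by positivity)]
      nlinarith
    have h4 : (0 : ℝ) ≤ (35 / 32) ^ s * ρ ^ s := by positivity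
    have h5 : (0 : ℝ) ≤ (21 / 16) ^ s * ρ ^ s := by positivity
    nlinarith

/-- high moment bound -/
theorem bound_two (hπ : ∀ g, star (π g) = π g⁻¹) (hQ : Irr π Q) (s t : ℕ) :
    Pr t (fun l : List G => ¬ ∃ P : Matrix n n ℂ, IsStarProjection P ∧ Q * P = P ∧
        tau P ≤ tau Q * Real.exp (1 - t / 16) ∧
        (l.map (AP π Q)).sum ≤ (3 / 4 * t + t / 100 : ℝ) • Q + ((1 - 3 / 4) * t : ℝ) • P)
      ≤ (((35 / 32) ^ s + (21 / 16) ^ s * (64 / tau Q)) * Real.exp (-(s / 8))) ^ t := by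
  have hP := hQ.inv.proj
  have hD := hQ.tau_pos
  obtain ⟨R, hR0, hR1, hR2, hR3⟩ := exists_potential hP (θ := 1 / 4) (by norm_num)
    (hk_small (by norm_num) (by norm_num)) t
  refine (Pr_markov (Ψ := fun l => tau (R (l.map (AP π Q))) ^ s)
    (c := (tau Q * Real.exp (t / 8)) ^ s) (by positivity)
    (fun l _ => pow_nonneg (tau_nonneg (hR1 _ (map_good hπ hP l)).1) _) ?_).trans ?_
  · intro l hl hbad
    obtain ⟨P', hP', hQP', h1, h2⟩ := hR3 _ (map_good hπ hP l) (by simpa using hl) (3 / 4)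
      (by norm_num) (by norm_num)
    have h3 : tau Q * Real.exp (1 - t / 16) < tau P' := by
      by_contra hc
      exact hbad ⟨P', hP', hQP', not_lt.mp hc, h2⟩
    have h4 : tau Q * Real.exp (t / 8) ≤ tau (R (l.map (AP π Q))) := by
      refine le_trans ?_ h1
      have : Real.exp (t / 8) = Real.exp (1 / 4 * (3 / 4) * t - 1) * Real.exp (1 - t / 16) := by
        rw [← Real.exp_add]; congr 1; ring
      rw [this]
      have h5 := Real.exp_pos (1 / 4 * (3 / 4) * t - 1)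
      nlinarith
    gcongr
  · have := Ex_pot (Ψ := fun l : List G => tau (R (l.map (AP π Q))) ^ s)
      (γ := (35 / 32) ^ s + (21 / 16) ^ s * (64 / tau Q)) (by positivity) ?_ t
    · simp only [List.map_nil, hR0] at this
      refine (mul_le_mul_of_nonneg_left this (by positivity)).trans (le_of_eq ?_)
      rw [mul_pow, mul_pow, ← Real.exp_nat_mul, ← Real.exp_nat_mul]
      have e : Real.exp (t * -(s / 8)) = (Real.exp (s * (t / 8)))⁻¹ := by
        rw [← Real.exp_neg]; congr 1; ring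
      rw [e]
      field_simp
    · intro l
      obtain ⟨h1, h2⟩ := hR1 _ (map_good hπ hP l)
      simp only [List.map_cons]
      set Rl := R (l.map (AP π Q)) with hRl
      have hstep : ∀ y, tau (R (AP π Q y :: l.map (AP π Q)))
          ≤ tau Rl + 1 / 4 * tau (Rl * π y) + (1 / 4) ^ 2 * tau Rl := by
        intro y
        refine (hR2 _ _ (AP_good hπ hP y) (map_good hπ hP l)).trans ?_
        simp only [mul_add, mul_one, mul_smul_comm, tau_add, tau_smul, ← hRl]
        rw [tau_mul_AP hπ hP (.of_nonneg h1) h2]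
        have := (abs_tau_mul_good hP h1 h2 (AP_good hπ hP y)).2
        linarith
      have hnn : ∀ y, 0 ≤ tau (R (AP π Q y :: l.map (AP π Q))) := fun y =>
        tau_nonneg (hR1 _ (map_good hπ hP (y :: l))).1
      have hx : ∀ y, tau (Rl * π y) ≤ tau Rl := by
        intro y
        rw [← tau_mul_AP hπ hP (.of_nonneg h1) h2]
        exact (abs_tau_mul_good hP h1 h2 (AP_good hπ hP y)).1
      rcases (tau_nonneg h1).eq_or_lt with hρ | hρ
      · have hz : ∀ y, tau (R (AP π Q y :: l.map (AP π Q))) = tau Rl := by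
          intro y
          have := hstep y
          have := hx y
          have := hnn y
          linarith
        simp only [hz, Finset.sum_const, Finset.card_univ, nsmul_eq_mul]
        have h3 : (1 : ℝ) ≤ (35 / 32) ^ s := one_le_pow₀ (by norm_num)
        have h4 : (0 : ℝ) ≤ (21 / 16) ^ s * (64 / tau Q) := by positivity
        have h5 : 0 ≤ tau Rl ^ s := pow_nonneg (tau_nonneg h1) _
        gcongr
        nlinarith
      · refine (Finset.sum_le_sum fun y _ => pow_step s hρ (hnn y) (hx y) (hstep y)).trans ?_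
        rw [Finset.sum_add_distrib, ← Finset.mul_sum _ _ ((21 / 16) ^ s * tau Rl ^ s),
          ← Finset.sum_div, ← Finset.mul_sum _ _ (64 : ℝ)]
        simp only [Finset.sum_const, Finset.card_univ, nsmul_eq_mul]
        have h3 := sum_sq_tau hπ hQ h1 h2
        have h4 : 64 * (∑ y, tau (Rl * π y) ^ 2) / tau Rl ^ 2
            ≤ Fintype.card G * (64 / tau Q) := by
          rw [div_le_iff₀ (by positivity)]
          calc 64 * (∑ y, tau (Rl * π y) ^ 2) ≤ 64 * (Fintype.card G * (tau Rl ^ 2 / tau Q)) := by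
                gcongr
            _ = _ := by ring
        have h5 : (0 : ℝ) ≤ (21 / 16) ^ s * tau Rl ^ s := by positivity
        have h6 := mul_le_mul_of_nonneg_left h4 h5
        nlinarith

end Pool.Agent.Lib.MP_c1e253_pr
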