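import Pool.Agent.Lib.MP_c1e253_pr.Main

/-! The part of the regular representation that does not factor through the abelianisation. -/

set_option autoImplicit false

open scoped MatrixOrder ComplexOrder Pointwise Matrix.Norms.L2Operator
open Matrix

namespace Pool.Agent.Lib.MP_c1e253_pr

section general

variable {G : Type*} [Group G] [Fintype G] [DecidableEq G]

theorem regular_bound_off (k L : ℕ) (N : ℕ → Finset G) (hN : ∀ s, (N s).Nonempty) (w : ℕ → ℝ)
    (hw : ∀ s, 0 ≤ w s) {Q₁ : Matrix G G ℂ} (hQ₁ : Inv (reg G) Q₁)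
    (h₁ : (∑ g, reg G g) * Q₁ = 0) (h₂ : (∑ g ∈ N 0, reg G g) * Q₁ = 0)
    (hirr : ∀ Q, Irr (reg G) Q → (∑ g, reg G g) * Q = 0 → ∃ s < L + 1,
      (∀ g ∈ N s, reg G g * Q = Q) ∧
        Pr k (fun l : List G => ¬ Gap (reg G) Q l) ≤ w s * tau Q) :
    Pr k (fun l : List G => ¬ Gap (reg G) Q₁ l)
      ≤ ∑ s ∈ Finset.range L, w (s + 1) * (Fintype.card G / (N (s + 1)).card) := by
  let E : ℕ → Matrix G G ℂ := fun s => ((N s).card : ℝ)⁻¹ • ∑ g ∈ N s, reg G g
  let W : Matrix G G ℂ := ∑ s ∈ Finset.range (L + 1), w s • (star (E s) * E s)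
  have hc : ∀ s, (0 : ℝ) < (N s).card := fun s => by exact_mod_cast (hN s).card_pos
  obtain ⟨M, hM⟩ := exists_nat_gt (tau Q₁)
  refine (union_bound (W := W) k ?_ M Q₁ hQ₁ h₁ hM).trans ?_
  · intro Q hQ h0
    obtain ⟨s, hs, h1, h2⟩ := hirr Q hQ h0
    refine h2.trans ?_
    simp only [W, Finset.sum_mul, tau_sum, smul_mul_assoc, tau_smul]
    have hEQ : E s * Q = Q := by
      simp only [E, smul_mul_assoc, Finset.sum_mul]
      rw [Finset.sum_congr rfl h1, Finset.sum_const, ← Nat.cast_smul_eq_nsmul ℝ, smul_smul,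
        inv_mul_cancel₀ (hc s).ne', one_smul]
    have h3 : tau (star (E s) * E s * Q) = tau Q := by
      rw [mul_assoc, hEQ, ← tau_star, star_mul, star_star, hQ.inv.proj.isSelfAdjoint.star_eq,
        tau_mul_comm, hEQ]
    rw [← h3]
    exact Finset.single_le_sum (f := fun s => w s * tau (star (E s) * E s * Q))
      (fun s _ => mul_nonneg (hw s) (tau_mul_nonneg (star_mul_self_nonneg _) hQ.inv.proj.nonneg))
      (Finset.mem_range.mpr hs)
  · have h0 : star (E 0) * E 0 * Q₁ = 0 := by
      rw [mul_assoc]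
      simp only [E, smul_mul_assoc, h₂, smul_zero, mul_zero]
    simp only [W, Finset.sum_mul, tau_sum, smul_mul_assoc, tau_smul]
    rw [Finset.sum_range_succ', h0, tau_zero, mul_zero, add_zero]
    refine Finset.sum_le_sum fun s _ => mul_le_mul_of_nonneg_left ?_ (hw _)
    generalize s + 1 = s
    have h1 : tau (star (E s) * E s * Q₁) ≤ tau (star (E s) * E s * 1) :=
      tau_mul_mono (star_mul_self_nonneg (E s)) hQ₁.proj.le_one
    refine h1.trans (le_of_eq ?_)
    simp only [mul_one, E, star_smul, star_trivial, star_sum, reg_star, smul_mul_assoc,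
      mul_smul_comm, tau_smul, Finset.sum_mul, Finset.mul_sum, tau_sum, ← map_mul, tau_reg,
      inv_mul_eq_one]
    have : ∀ g ∈ N s, ∑ h ∈ N s, ((N s).card : ℝ)⁻¹ * (((N s).card : ℝ)⁻¹ *
        if h = g then (Fintype.card G : ℝ) else 0)
        = ((N s).card : ℝ)⁻¹ * (((N s).card : ℝ)⁻¹ * Fintype.card G) := by
      intro g hg
      rw [Finset.sum_eq_single g]
      · simp
      · intro h _ hh; simp [hh]
      · intro h; exact absurd hg h
    rw [Finset.sum_congr rfl this, Finset.sum_const, nsmul_eq_mul]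
    have := (hc s).ne'
    field_simp

/-- projection onto the functions with zero sum on every coset of `K` -/
noncomputable def QK (K : Subgroup G) [Fintype K] : Matrix G G ℂ :=
  1 - avg ((reg G).comp K.subtype)

lemma QK_inv (K : Subgroup G) [Fintype K] [hK : K.Normal] : Inv (reg G) (QK K) := by
  refine ⟨(avg_proj fun g => by simp [reg_star]).one_sub, fun g => ?_⟩
  rw [QK, mul_sub, sub_mul, mul_one, one_mul, avg, mul_smul_comm, smul_mul_assoc, Finset.mul_sum,
    Finset.sum_mul]
  congr 2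
  refine Fintype.sum_equiv (MulAut.conjNormal g).toEquiv _ _ fun c => ?_
  simp [← map_mul]

lemma sum_mul_QK (K : Subgroup G) [Fintype K] (T : Finset G)
    (hT : ∀ g, ∀ c ∈ K, g * c ∈ T ↔ g ∈ T) : (∑ g ∈ T, reg G g) * QK K = 0 := by
  have h : ∀ c : K, (∑ g ∈ T, reg G g) * reg G c = ∑ g ∈ T, reg G g := by
    intro c
    rw [Finset.sum_mul]
    refine Finset.sum_equiv (Equiv.mulRight (c : G)) (fun g => (hT g c c.2).symm) fun g _ => ?_
    simp
  rw [QK, mul_sub, mul_one, avg, mul_smul_comm, Finset.mul_sum]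
  simp only [MonoidHom.comp_apply, Subgroup.subtype_apply, h, Finset.sum_const, Finset.card_univ]
  rw [← Nat.cast_smul_eq_nsmul ℝ, smul_smul, inv_mul_cancel₀ (by positivity), one_smul, sub_self]

/-- The Loewner inequality, tested on a real function with zero coset sums. -/
lemma gap_test (K : Subgroup G) [Fintype K] {k : ℕ} (Z : Fin k → G)
    (hZ : Gap (reg G) (QK K) (List.ofFn Z)) (f : G → ℝ) (hf : ∀ g, ∑ c : K, f (g * c) = 0) :
    ∑ i, ∑ g, f g * f (g * Z i) ≤ 299 / 300 * k * ∑ g, f g ^ 2 := by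
  let v : G → ℂ := fun x => f x
  let V : Matrix G G ℂ := Matrix.vecMulVec v (star v)
  have hV : 0 ≤ V := (Matrix.posSemidef_vecMulVec_self_star v).nonneg
  have hgV : ∀ g x y, (reg G g * V) x y = (f (x * g) : ℂ) * f y := by
    intro g x y
    simp [Matrix.mul_apply, reg_apply, V, Matrix.vecMulVec_apply, v]
  have hVg : ∀ g, tau (V * reg G g) = ∑ x, f x * f (x * g) := by
    intro g
    rw [tau_mul_comm]
    simp only [tau, Matrix.trace, Matrix.diag_apply, hgV, Complex.re_sum]
    refine Finset.sum_congr rfl fun x _ => ?_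
    simp [mul_comm]
  have hV1 : tau V = ∑ x, f x ^ 2 := by
    have := hVg 1
    rw [map_one, mul_one] at this
    rw [this]
    simp [sq]
  have hQV : QK K * V = V := by
    rw [QK, sub_mul, one_mul, sub_eq_self, avg, smul_mul_assoc, Finset.sum_mul]
    have : ∑ c : K, ((reg G).comp K.subtype) c * V = 0 := by
      ext x y
      simp only [MonoidHom.comp_apply, Subgroup.subtype_apply, Matrix.sum_apply, hgV,
        ← Finset.sum_mul, ← Complex.ofReal_sum, hf]
      simp
    rw [this, smul_zero]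
  have hSS : SS (reg G) (List.ofFn Z) = ∑ i, AA (reg G) (Z i) := by
    rw [SS, List.map_ofFn, List.sum_ofFn]
    rfl
  have hVA : ∀ g, tau (V * AA (reg G) g) = ∑ x, f x * f (x * g) := by
    intro g
    have := tau_mul_AP reg_star (IsStarProjection.one _) (.of_nonneg hV) (one_mul V) g
    rwa [AP, one_mul, mul_one, hVg] at this
  have h1 := tau_mul_mono hV hZ
  rw [← mul_assoc, tau_mul_comm, ← mul_assoc, hQV, mul_smul_comm, tau_smul, tau_mul_comm V (QK K),
    hQV, hV1, hSS, Finset.mul_sum, tau_sum] at h1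
  simpa only [hVA, List.length_ofFn] using h1

end general

variable {d p : ℕ} [NeZero p]

theorem ut_heis_pow (hp : p.Prime) {n : Type*} [Fintype n] [DecidableEq n]
    {π : UT d p →* Matrix n n ℂ} {Q : Matrix n n ℂ}
    (hπ : ∀ g, star (π g) = π g⁻¹) (hQ : Inv π Q) {a b : Fin d}
    (hne : ∃ t, π (rowEl a (Pi.single b t)) * Q ≠ Q) :
    (p : ℝ) ^ ((b : ℕ) - a - 1) ≤ tau Q := by
  have := Fact.mk hp
  let ι := ↥(Finset.Ioo a b)
  let ex : (ι → ZMod p) →+ (Fin d → ZMod p) :=
    { toFun := fun α j => if h : j ∈ Finset.Ioo a b then α ⟨j, h⟩ else 0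
      map_zero' := by ext j; simp
      map_add' := fun α β => by
        ext j
        simp only [Pi.add_apply]
        split_ifs <;> simp }
  let x : Multiplicative (ι → ZMod p) →* UT d p := (rowHom a).comp ex.toMultiplicative
  let z : Multiplicative (ZMod p) →* UT d p :=
    (rowHom a).comp (AddMonoidHom.single (fun _ : Fin d => ZMod p) b).toMultiplicative
  have hx : ∀ α, x α = rowEl a (ex α.toAdd) := fun _ => rfl
  have hz : ∀ t, z t = rowEl a (Pi.single b t.toAdd) := fun _ => rfl
  have h := heis_bound hπ hQ x z ?_ ?_ ?_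
  · refine le_trans (le_of_eq ?_) h
    rw [Fintype.card_multiplicative, Fintype.card_fun, ZMod.card, Fintype.card_coe,
      Fin.card_Ioo]
    push_cast
    rfl
  · intro α t
    rw [hx, hz, ← rowEl_add, ← rowEl_add, add_comm]
  · intro α hα t
    obtain ⟨c, hc⟩ : ∃ c, α.toAdd c ≠ 0 := by
      by_contra hcon
      push Not at hcon
      exact hα (by ext c; exact hcon c)
    have hmem := Finset.mem_Ioo.mp c.2
    have hv : ex α.toAdd c = α.toAdd c := by
      change (if h : (c : Fin d) ∈ Finset.Ioo a b then α.toAdd ⟨c, h⟩ else 0) = _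
      rw [dif_pos c.2]
    refine ⟨rowEl c (Pi.single b ((α.toAdd c)⁻¹ * t.toAdd)), fun s => ?_, ?_⟩
    · rw [hz]
      exact heis_comm hmem.1 hmem.2 _ _
    · rw [hx, hz, heis_rel hmem.1 hmem.2, hv, mul_inv_cancel_left₀ hc]
  · obtain ⟨t, ht⟩ := hne
    exact ⟨Multiplicative.ofAdd t, ht⟩

theorem exists_level_pow (hp : p.Prime) {Q : Matrix (UT d p) (UT d p) ℂ}
    (hQ : Irr (reg (UT d p)) Q) (h0 : (∑ g, reg (UT d p) g) * Q = 0) :
    ∃ s, s < d ∧ (∀ g ∈ NN d p (s + 1), reg (UT d p) g * Q = Q) ∧ (p : ℝ) ^ s ≤ tau Q := by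
  classical
  have hex : ∃ s, ∀ g ∈ NN d p s, reg (UT d p) g * Q = Q :=
    ⟨d, fun g hg => by rw [eq_one_of_mem_NN hg, map_one, one_mul]⟩
  have hle : Nat.find hex ≤ d :=
    Nat.find_min' hex fun g hg => by rw [eq_one_of_mem_NN hg, map_one, one_mul]
  have hne : Nat.find hex ≠ 0 := by
    intro h
    have h1 := Nat.find_spec hex
    rw [h] at h1
    have h2 := avg_mul_of_fixed (reg (UT d p)) fun g => h1 g (mem_NN_zero g)
    rw [avg, smul_mul_assoc, h0, smul_zero] at h2
    exact hQ.ne h2.symm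
  obtain ⟨s, hs⟩ := Nat.exists_eq_succ_of_ne_zero hne
  refine ⟨s, by omega, by rw [← Nat.succ_eq_add_one, ← hs]; exact Nat.find_spec hex, ?_⟩
  have hmin := Nat.find_min hex (m := s) (by omega)
  let F : Submonoid (UT d p) :=
    { carrier := {g | reg (UT d p) g * Q = Q}
      one_mem' := by simp
      mul_mem' := fun {a b} ha hb => by
        simp only [Set.mem_ofPred_eq] at ha hb ⊢
        rw [map_mul, mul_assoc, hb, ha] }
  have : ∃ (a b : Fin d) (t : ZMod p), (a : ℕ) + s < b ∧ rowEl a (Pi.single b t) ∉ F := by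
    by_contra hc
    push Not at hc
    exact hmin fun g hg => mem_of_NN F s hc hg
  obtain ⟨a, b, t, hab, ht⟩ := this
  refine le_trans ?_ (ut_heis_pow hp reg_star hQ.inv (a := a) (b := b) ⟨t, ht⟩)
  exact pow_le_pow_right₀ (by exact_mod_cast hp.one_le) (by omega)

/-- the first superdiagonal -/
noncomputable def supHom (d p : ℕ) [NeZero p] :
    UT d p →* Multiplicative (Fin d → Fin d → ZMod p) :=
  MonoidHom.mk' (fun g => Multiplicative.ofAdd fun i j => if (j : ℕ) = i + 1 then g.val i j else 0)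
    (by
      intro g h
      rw [← ofAdd_add]
      congr 1
      ext i j
      simp only [Pi.add_apply]
      split_ifs with hij
      · have hne : i ≠ j := fun e => by rw [e] at hij; omega
        rw [UT.val_mul, Matrix.mul_apply, Finset.sum_eq_add_of_mem i j (Finset.mem_univ _)
          (Finset.mem_univ _) hne, (g.prop i i).2, (h.prop j j).2, one_mul, mul_one, add_comm]
        intro c _ hc
        rcases lt_or_gt_of_ne hc.1 with h1 | h1
        · rw [(g.prop i c).1 h1, zero_mul]
        · have h2 : j < c := by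
            have := hc.2
            rw [Fin.lt_def] at h1 ⊢
            have h3 : (c : ℕ) ≠ j := fun e => this (Fin.ext e)
            omega
          rw [(h.prop c j).1 h2, mul_zero]
      · simp)

lemma mem_NN_one {g : UT d p} : g ∈ NN d p 1 ↔ supHom d p g = 1 := by
  rw [mem_NN]
  constructor
  · intro h
    change Multiplicative.ofAdd _ = Multiplicative.ofAdd 0
    congr 1
    ext i j
    simp only [Pi.zero_apply]
    split_ifs with hij
    · exact h i j (by rw [Fin.lt_def]; omega) hij.le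
    · rfl
  · intro h i j h1 h2
    have h3 := congrFun (congrFun (congrArg Multiplicative.toAdd h) i) j
    rw [Fin.lt_def] at h1
    have h4 : (j : ℕ) = i + 1 := by omega
    simpa [supHom, h4] using h3

theorem ut_prob_off (hp : p.Prime) (hd : 3 ≤ d) {k : ℕ}
    (hk : 2000 * (d : ℝ) * √(Real.log p) ≤ k) (K : Subgroup (UT d p)) [Fintype K] [K.Normal]
    (hK : ∀ c ∈ K, supHom d p c = 1) :
    Pr k (fun l : List (UT d p) => ¬ Gap (reg (UT d p)) (QK K) l)
      ≤ 6 * Real.exp (-(d * Real.log p)) := by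
  set L : ℝ := Real.log p with hL
  set u : ℝ := d * L with hudef
  have hd' : (3 : ℝ) ≤ d := by exact_mod_cast hd
  have hp2 : (2 : ℝ) ≤ p := by exact_mod_cast hp.two_le
  have hp0 : (0 : ℝ) < p := by linarith
  have hlog : 0.69 ≤ L := by
    have := Real.log_le_log two_pos hp2
    have := Real.log_two_gt_d9
    linarith
  have hsq : √L ^ 2 = L := Real.sq_sqrt (by linarith)
  have hsq0 : 0.83 ≤ √L := Real.le_sqrt_of_sq_le (by linarith)
  have hdu : (d : ℝ) ≤ 2 * u := by rw [hudef]; nlinarith
  have hkd : 1660 * (d : ℝ) ≤ k := by nlinarith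
  obtain ⟨t, r, hr, rfl⟩ : ∃ t r, r ≤ 1 ∧ k = t + t + r := ⟨k / 2, k % 2, by omega, by omega⟩
  have hr' : (r : ℝ) ≤ 1 := by exact_mod_cast hr
  have htd : 800 * (d : ℝ) ≤ t := by push_cast at hkd; linarith
  have hts : 999 * (d : ℝ) * √L ≤ t := by push_cast at hk; nlinarith
  have ht : 17 ≤ t := by
    have : (17 : ℝ) ≤ t := by linarith
    exact_mod_cast this
  have hpow : ∀ m : ℕ, ((p ^ (d * m) : ℕ) : ℝ) = Real.exp (u * m) := by
    intro m
    have : u * m = ((d * m : ℕ) : ℝ) * Real.log p := by rw [hudef]; push_cast; ring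
    rw [this, Real.exp_nat_mul, Real.exp_log hp0]
    push_cast
    rfl
  let σ : ℕ → ℕ := fun s => Nat.log 2 (p ^ s)
  have hσ1 : ∀ s, (2 : ℝ) ^ σ s ≤ (p : ℝ) ^ s := fun s => by
    exact_mod_cast Nat.pow_log_le_self 2 (pow_ne_zero s hp.ne_zero)
  have hσ2 : ∀ s : ℕ, s * L ≤ 0.6932 * (σ s + 1) := fun s => by
    have h1 : ((p : ℝ)) ^ s ≤ 2 ^ (σ s + 1) := by
      exact_mod_cast (Nat.lt_pow_succ_log_self one_lt_two (p ^ s)).le
    have h2 := Real.log_le_log (by positivity) h1
    rw [Real.log_pow, Real.log_pow] at h2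
    push_cast at h2
    have h3 := Real.log_two_lt_d9
    have h4 : (0 : ℝ) ≤ σ s := Nat.cast_nonneg _
    nlinarith
  let w : ℕ → ℝ := fun s => if s = 0 then 1 else
    if σ s < 64 then Real.exp (1 - ((t + t + r : ℕ) : ℝ) / 8)
    else Real.exp (-(σ s * t / 64)) + Real.exp (3 * t - t ^ 2 / 96)
  have hw : ∀ s, 0 ≤ w s := fun s => by
    simp only [w]
    split_ifs <;> positivity
  refine (regular_bound_off (t + t + r) d (fun s => NN d p (s + 1))
    (fun s => ⟨1, one_mem_NN _⟩) w hw (QK_inv K) (sum_mul_QK K _ (by simp))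
    (sum_mul_QK K _ ?_) ?_).trans ?_
  · intro g c hc
    rw [zero_add, mem_NN_one, mem_NN_one, map_mul, hK c hc, mul_one]
  · intro Q hQ h0
    obtain ⟨s, hs, h1, h2⟩ := exists_level_pow hp hQ h0
    refine ⟨s, by omega, h1, ?_⟩
    simp only [w]
    split_ifs with h' h
    · rw [one_mul]
      exact (Pr_le_one _ _).trans (one_le_tau_of_proj hQ.inv.proj hQ.ne)
    · exact rep_small reg_star hQ h0 _
    · exact rep_large reg_star hQ h0 (not_lt.mp h) ((hσ1 s).trans h2) ht hr
  · have hterm : ∀ s ∈ Finset.range d,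
        w (s + 1) * (Fintype.card (UT d p) / (NN d p (s + 1 + 1)).card)
        ≤ 3 * Real.exp (-(2 * u)) := by
      intro s _
      have hc : (0 : ℝ) < (NN d p (s + 1 + 1)).card := by
        exact_mod_cast Finset.card_pos.mpr ⟨1, one_mem_NN _⟩
      have hc1 : (1 : ℝ) ≤ (NN d p (s + 1 + 1)).card := by
        exact_mod_cast Finset.card_pos.mpr ⟨1, one_mem_NN _⟩
      have r1 : (Fintype.card (UT d p) : ℝ) / (NN d p (s + 1 + 1)).card
          ≤ Real.exp (u * (s + 1 + 1 : ℕ)) := by
        rw [div_le_iff₀ hc, ← hpow]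
        exact_mod_cast card_le_mul_NN (s + 1 + 1)
      have r2 : (Fintype.card (UT d p) : ℝ) / (NN d p (s + 1 + 1)).card ≤ Real.exp (u * d) := by
        refine (div_le_self (Nat.cast_nonneg _) hc1).trans ?_
        rw [← hpow]
        exact_mod_cast card_UT_le
      have hE := Real.exp_pos (-(2 * u))
      have hs0 : (0 : ℝ) ≤ s := Nat.cast_nonneg s
      have hσ := hσ2 (s + 1)
      push_cast at hσ
      have hL4 : (s + 4) * L ≤ 4 * ((s + 1) * L) := by nlinarith
      have hu4 : u * (s + 4) ≤ d * (4 * (0.6932 * (σ (s + 1) + 1))) := by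
        have : u * (s + 4) = d * ((s + 4) * L) := by rw [hudef]; ring
        rw [this]
        exact mul_le_mul_of_nonneg_left (by linarith) (by linarith)
      simp only [w, Nat.succ_ne_zero, if_false]
      split_ifs with h
      · have hs : (σ (s + 1) : ℝ) + 1 ≤ 64 := by exact_mod_cast h
        refine (mul_le_mul_of_nonneg_left r1 (Real.exp_pos _).le).trans ?_
        rw [← Real.exp_add]
        have h1 : Real.exp 1 ≤ 3 := (Real.exp_one_lt_d9.le).trans (by norm_num)
        calc Real.exp (1 - ((t + t + r : ℕ) : ℝ) / 8 + u * (s + 1 + 1 : ℕ))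
            ≤ Real.exp (1 + -(2 * u)) := by
              refine Real.exp_le_exp.mpr ?_
              push_cast at hkd ⊢
              nlinarith
          _ ≤ 3 * Real.exp (-(2 * u)) := by
              rw [Real.exp_add]; gcongr
      · have hs : (64 : ℝ) ≤ σ (s + 1) := by exact_mod_cast not_lt.mp h
        rw [add_mul]
        have b1 : Real.exp (-(σ (s + 1) * t / 64))
            * (Fintype.card (UT d p) / (NN d p (s + 1 + 1)).card) ≤ Real.exp (-(2 * u)) := by
          refine (mul_le_mul_of_nonneg_left r1 (Real.exp_pos _).le).trans ?_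
          rw [← Real.exp_add]
          refine Real.exp_le_exp.mpr ?_
          push_cast
          have c1 : (σ (s + 1) : ℝ) * (800 * d) ≤ σ (s + 1) * t :=
            mul_le_mul_of_nonneg_left htd (by linarith)
          nlinarith
        have b2 : Real.exp (3 * t - t ^ 2 / 96)
            * (Fintype.card (UT d p) / (NN d p (s + 1 + 1)).card) ≤ Real.exp (-(2 * u)) := by
          refine (mul_le_mul_of_nonneg_left r2 (Real.exp_pos _).le).trans ?_
          rw [← Real.exp_add]
          refine Real.exp_le_exp.mpr ?_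
          have c1 : (576 : ℝ) * t ≤ t * t :=
            mul_le_mul_of_nonneg_right (by linarith) (by linarith)
          have c2 : 3 * (t : ℝ) ≤ t ^ 2 / 192 := by rw [sq]; linarith
          have c3 : (999 * (d : ℝ) * √L) ^ 2 ≤ (t : ℝ) ^ 2 := by gcongr
          have c4 : (999 * (d : ℝ) * √L) ^ 2 = 999 ^ 2 * (u * d) := by
            rw [mul_pow, mul_pow, hsq, hudef]; ring
          have c0 : 0 ≤ u := by linarith
          have c5 : u * 3 ≤ u * d := mul_le_mul_of_nonneg_left hd' c0
          linarith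
        linarith
    refine (Finset.sum_le_sum hterm).trans ?_
    rw [Finset.sum_const, Finset.card_range, nsmul_eq_mul]
    have h1 : u ≤ Real.exp u := by linarith [Real.add_one_le_exp u]
    have h2 : Real.exp (-u) = Real.exp u * Real.exp (-(2 * u)) := by
      rw [← Real.exp_add]; congr 1; ring
    rw [h2]
    have hE := Real.exp_pos (-(2 * u))
    nlinarith

end Pool.Agent.Lib.MP_c1e253_pr
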