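import Pool.Agent.Lib.MP_c1e253_pr.Trace

/-! A Golden-Thompson type potential for sums of Hermitian contractions. -/

set_option autoImplicit false

open scoped MatrixOrder ComplexOrder Pointwise Matrix.Norms.L2Operator
open Matrix

namespace Pool.Agent.Lib.MP_c1e253_pr

variable {n : Type*} [Fintype n] [DecidableEq n]

/-- Hermitian contraction living in the corner cut out by `Q`. -/
structure Good (Q A : Matrix n n ℂ) : Prop where
  sa : IsSelfAdjoint A
  left : Q * A = A
  right : A * Q = A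
  norm_le : ‖A‖ ≤ 1

/-- the ordered product `B_t ... B_1 Q B_1 ... B_t` with `B = 1 + β A`. -/
noncomputable def TT (Q : Matrix n n ℂ) (β : ℝ) : List (Matrix n n ℂ) → Matrix n n ℂ
  | [] => Q
  | A :: l => (1 + β • A) * TT Q β l * (1 + β • A)

lemma sa_one_add_smul {A : Matrix n n ℂ} (hA : IsSelfAdjoint A) (β : ℝ) :
    IsSelfAdjoint (1 + β • A) := by
  rw [IsSelfAdjoint, star_add, star_one, star_smul, hA.star_eq, star_trivial]

lemma TT_nonneg {Q : Matrix n n ℂ} (hQ : IsStarProjection Q) (β : ℝ) :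
    ∀ l : List (Matrix n n ℂ), (∀ A ∈ l, Good Q A) → 0 ≤ TT Q β l
  | [], _ => hQ.nonneg
  | A :: l, h => by
    have ih := TT_nonneg hQ β l (fun B hB => h B (List.mem_cons_of_mem _ hB))
    exact (sa_one_add_smul (h A List.mem_cons_self).sa β).conjugate_nonneg ih

lemma TT_left {Q : Matrix n n ℂ} (hQ : IsStarProjection Q) (β : ℝ) :
    ∀ l : List (Matrix n n ℂ), (∀ A ∈ l, Good Q A) → Q * TT Q β l = TT Q β l
  | [], _ => hQ.isIdempotentElem.eq
  | A :: l, h => by
    have ih := TT_left hQ β l (fun B hB => h B (List.mem_cons_of_mem _ hB))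
    have hA := h A List.mem_cons_self
    have : Q * (1 + β • A) = (1 + β • A) * Q := by
      rw [mul_add, add_mul, mul_one, one_mul, mul_smul_comm, smul_mul_assoc, hA.left, hA.right]
    simp only [TT]
    rw [← mul_assoc, ← mul_assoc, this, mul_assoc _ Q, ih]

omit [DecidableEq n] in
lemma right_of_left {Q T : Matrix n n ℂ} (hQ : IsSelfAdjoint Q) (hT : IsSelfAdjoint T)
    (h : Q * T = T) : T * Q = T := by
  have := congrArg star h
  rwa [star_mul, hQ.star_eq, hT.star_eq] at this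

lemma norm_one_le' : ‖(1 : Matrix n n ℂ)‖ ≤ 1 := (IsStarProjection.one _).norm_le

lemma norm_one_add_smul_le {A : Matrix n n ℂ} (hA : ‖A‖ ≤ 1) {β : ℝ} (hβ : 0 ≤ β) :
    ‖1 + β • A‖ ≤ 1 + β := by
  refine (norm_add_le _ _).trans ?_
  rw [norm_smul, Real.norm_of_nonneg hβ]
  have := norm_one_le' (n := n)
  nlinarith

lemma TT_norm {Q : Matrix n n ℂ} (hQ : IsStarProjection Q) {β : ℝ} (hβ : 0 ≤ β) :
    ∀ l : List (Matrix n n ℂ), (∀ A ∈ l, Good Q A) →
      ‖TT Q β l‖ ≤ (1 + β) ^ (2 * l.length) ∧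
      ‖TT Q β l - Q‖ ≤ (1 + β) ^ (2 * l.length) - 1 ∧
      ‖TT Q β l - Q - (2 * β) • l.sum‖ ≤ (1 + β) ^ (2 * l.length) - 1 - 2 * β * l.length
  | [], _ => by simp [TT, hQ.norm_le]
  | A :: l, h => by
    obtain ⟨h1, h2, h3⟩ := TT_norm hQ hβ l (fun B hB => h B (List.mem_cons_of_mem _ hB))
    have hA := h A List.mem_cons_self
    have hB := norm_one_add_smul_le hA.norm_le hβ
    set T := TT Q β l with hT
    set M : ℝ := (1 + β) ^ (2 * l.length) with hM
    have hM' : (1 + β) ^ (2 * (A :: l).length) = M * (1 + β) ^ 2 := by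
      rw [List.length_cons, mul_add, pow_add]
    have hA1 := hA.norm_le
    have nA := norm_nonneg A
    have nT := norm_nonneg T
    have nTQ := norm_nonneg (T - Q)
    have hAT : ‖A * T‖ ≤ M := (norm_mul_le _ _).trans (by nlinarith)
    have hTA : ‖T * A‖ ≤ M := (norm_mul_le _ _).trans (by nlinarith)
    have hATA : ‖A * T * A‖ ≤ M := (norm_mul_le _ _).trans (by
      have := norm_nonneg (A * T); nlinarith)
    have hATQ : ‖A * (T - Q)‖ ≤ M - 1 := (norm_mul_le _ _).trans (by nlinarith)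
    have hTQA : ‖(T - Q) * A‖ ≤ M - 1 := (norm_mul_le _ _).trans (by nlinarith)
    have e0 : TT Q β (A :: l) = T + β • (A * T) + β • (T * A) + (β * β) • (A * T * A) := by
      simp only [TT, ← hT, add_mul, mul_add, one_mul, mul_one, smul_mul_assoc, mul_smul_comm,
        smul_add, smul_smul]
      abel
    rw [hM']
    refine ⟨?_, ?_, ?_⟩
    · simp only [TT, ← hT]
      have nB := norm_nonneg (1 + β • A)
      calc ‖(1 + β • A) * T * (1 + β • A)‖ ≤ ‖1 + β • A‖ * ‖T‖ * ‖1 + β • A‖ := norm_mul₃_le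
        _ ≤ (1 + β) * M * (1 + β) := by gcongr
        _ = M * (1 + β) ^ 2 := by ring
    · have : TT Q β (A :: l) - Q
          = (T - Q) + β • (A * T) + β • (T * A) + (β * β) • (A * T * A) := by
        rw [e0]; abel
      rw [this]
      refine (norm_add_le _ _).trans ?_
      refine (add_le_add_left (norm_add₃_le) _).trans ?_
      rw [norm_smul, norm_smul, norm_smul, Real.norm_of_nonneg hβ,
        Real.norm_of_nonneg (mul_nonneg hβ hβ)]
      have := mul_le_mul_of_nonneg_left hAT hβ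
      have := mul_le_mul_of_nonneg_left hTA hβ
      have := mul_le_mul_of_nonneg_left hATA (mul_nonneg hβ hβ)
      nlinarith
    · have : TT Q β (A :: l) - Q - (2 * β) • (A :: l).sum
          = (T - Q - (2 * β) • l.sum) + β • (A * (T - Q)) + β • ((T - Q) * A)
            + (β * β) • (A * T * A) := by
        rw [e0, List.sum_cons, mul_sub, sub_mul, hA.left, hA.right, smul_add, smul_sub, smul_sub,
          two_mul, add_smul, add_smul]
        abel
      rw [this]
      refine (norm_add_le _ _).trans ?_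
      refine (add_le_add_left (norm_add₃_le) _).trans ?_
      rw [norm_smul, norm_smul, norm_smul, Real.norm_of_nonneg hβ,
        Real.norm_of_nonneg (mul_nonneg hβ hβ)]
      have := mul_le_mul_of_nonneg_left hATQ hβ
      have := mul_le_mul_of_nonneg_left hTQA hβ
      have := mul_le_mul_of_nonneg_left hATA (mul_nonneg hβ hβ)
      rw [List.length_cons]
      push_cast
      nlinarith

lemma spectrum_le_of_norm_le {A : Matrix n n ℂ} (hA : IsSelfAdjoint A) {c : ℝ} (h : ‖A‖ ≤ c) :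
    ∀ x ∈ spectrum ℝ A, -c ≤ x ∧ x ≤ c := by
  intro x hx
  have h1 := (le_algebraMap_iff_spectrum_le (R := ℝ) hA).mp hA.le_algebraMap_norm_self x hx
  have h2 : algebraMap ℝ (Matrix n n ℂ) (-‖A‖) ≤ A := by
    rw [map_neg]; exact hA.neg_algebraMap_norm_le_self
  have h3 := (algebraMap_le_iff_le_spectrum (R := ℝ) hA).mp h2 x hx
  constructor <;> linarith

lemma contOn (f : ℝ → ℝ) (A : Matrix n n ℂ) : ContinuousOn f (spectrum ℝ A) :=
  Matrix.finite_real_spectrum.continuousOn f

lemma pow_le_quad {A : Matrix n n ℂ} (hA : IsSelfAdjoint A) (hA1 : ‖A‖ ≤ 1) {β κ : ℝ}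
    (hβ : 0 ≤ β) (hβ1 : β ≤ 1) (N : ℕ)
    (hκ : ∀ a : ℝ, -1 ≤ a → a ≤ 1 → Real.exp (N * β * a) ≤ 1 + N * β * a + κ * a ^ 2) :
    (1 + β • A) ^ N ≤ 1 + (N * β) • A + κ • (A * A) := by
  have e1 : (1 + β • A) ^ N = cfc (fun x : ℝ => (1 + β * x) ^ N) A := by
    rw [cfc_pow _ _ _ (contOn _ _) hA, cfc_add _ _ _ (contOn _ _) (contOn _ _),
      cfc_const_one ℝ A hA, cfc_const_mul _ _ _ (contOn _ _), cfc_id' ℝ A hA]
  have e2 : 1 + (N * β) • A + κ • (A * A) = cfc (fun x : ℝ => 1 + N * β * x + κ * x ^ 2) A := by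
    rw [cfc_add _ _ _ (contOn _ _) (contOn _ _), cfc_add _ _ _ (contOn _ _) (contOn _ _),
      cfc_const_one ℝ A hA, cfc_const_mul _ _ _ (contOn _ _), cfc_id' ℝ A hA,
      cfc_const_mul _ _ _ (contOn _ _), cfc_pow _ _ _ (contOn _ _) hA, cfc_id' ℝ A hA, pow_two]
  rw [e1, e2]
  refine cfc_mono (fun x hx => ?_) (contOn _ _) (contOn _ _)
  obtain ⟨h1, h2⟩ := spectrum_le_of_norm_le hA hA1 x hx
  refine le_trans ?_ (hκ x h1 h2)
  have h3 : 0 ≤ 1 + β * x := by nlinarith
  calc (1 + β * x) ^ N ≤ (Real.exp (β * x)) ^ N := by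
        gcongr
        have := Real.add_one_le_exp (β * x)
        linarith
    _ = Real.exp (N * β * x) := by rw [← Real.exp_nat_mul, mul_assoc]

lemma pow_even_nonneg {T : Matrix n n ℂ} (hT : IsSelfAdjoint T) (j : ℕ) : 0 ≤ T ^ (2 * j) := by
  have : T ^ (2 * j) = star (T ^ j) * T ^ j := by
    rw [(hT.pow j).star_eq, ← pow_add, two_mul]
  rw [this]
  exact star_mul_self_nonneg _

lemma TT_step {Q : Matrix n n ℂ} (hQ : IsStarProjection Q) {β κ : ℝ} (hβ : 0 ≤ β) (hβ1 : β ≤ 1)
    (e : ℕ) (hκ : ∀ a : ℝ, -1 ≤ a → a ≤ 1 → Real.exp (((2 * 2 ^ (e + 1) : ℕ) : ℝ) * β * a)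
      ≤ 1 + ((2 * 2 ^ (e + 1) : ℕ) : ℝ) * β * a + κ * a ^ 2)
    (A : Matrix n n ℂ) (l : List (Matrix n n ℂ)) (hA : Good Q A) (hl : ∀ B ∈ l, Good Q B) :
    tau (TT Q β (A :: l) ^ (2 ^ (e + 1))) ≤
      tau (TT Q β l ^ (2 ^ (e + 1)) *
        (1 + (((2 * 2 ^ (e + 1) : ℕ) : ℝ) * β) • A + κ • (A * A))) := by
  have hT := TT_nonneg hQ β l hl
  have hTs : IsSelfAdjoint (TT Q β l) := .of_nonneg hT
  have hB := sa_one_add_smul hA.sa β
  simp only [TT]
  rw [tau_pow_mul_comm, ← mul_assoc, ← pow_two]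
  refine (tau_alt (e + 1) (hB.pow 2) hTs).trans ?_
  rw [tau_mul_comm, ← pow_mul]
  refine tau_mul_mono ?_ (pow_le_quad hA.sa hA.norm_le hβ hβ1 _ hκ)
  rw [pow_succ' 2 e]
  exact pow_even_nonneg hTs _

lemma le_smul_of_norm_le {Q X : Matrix n n ℂ} (hQ : IsStarProjection Q) (hX : IsSelfAdjoint X)
    (hl : Q * X = X) {c : ℝ} (h : ‖X‖ ≤ c) : X ≤ c • Q := by
  have h1 : X ≤ algebraMap ℝ (Matrix n n ℂ) c :=
    le_algebraMap_of_spectrum_le (fun x hx => (spectrum_le_of_norm_le hX h x hx).2) hX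
  have h2 := hQ.isSelfAdjoint.conjugate_le_conjugate h1
  rwa [hl, right_of_left hQ.isSelfAdjoint hX hl, Algebra.algebraMap_eq_smul_one, mul_smul_comm,
    mul_one, smul_mul_assoc, hQ.isIdempotentElem.eq] at h2

/-- spectral projection of `T` above the level `c`. -/
lemma exists_spectral_proj {Q T : Matrix n n ℂ} (hQ : IsStarProjection Q) (hT : IsSelfAdjoint T)
    (hl : Q * T = T) {c M : ℝ} (hc : 0 < c) (hM : ‖T‖ ≤ M) (j : ℕ) :
    ∃ P : Matrix n n ℂ, IsStarProjection P ∧ Q * P = P ∧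
      c ^ (2 * j) * tau P ≤ tau (T ^ (2 * j)) ∧ T ≤ c • Q + (M - c) • P := by
  let f : ℝ → ℝ := fun x => if c ≤ x then 1 else 0
  have hP : IsStarProjection (cfc f T) := by
    refine ⟨?_, IsSelfAdjoint.cfc⟩
    rw [IsIdempotentElem, ← cfc_mul _ _ _ (contOn _ _) (contOn _ _)]
    congr 1
    ext x
    simp only [f]
    split_ifs <;> simp
  have hQP : Q * cfc f T = cfc f T := by
    have : cfc f T = T * cfc (fun x => f x / x) T := by
      conv_rhs => enter [1]; rw [← cfc_id' ℝ T hT]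
      rw [← cfc_mul _ _ _ (contOn _ _) (contOn _ _)]
      congr 1
      ext x
      simp only [f]
      split_ifs with h
      · have : x ≠ 0 := by linarith [ne_of_gt (lt_of_lt_of_le hc h)]
        field_simp
      · simp
    rw [this, ← mul_assoc, hl]
  refine ⟨cfc f T, hP, hQP, ?_, ?_⟩
  · rw [← tau_smul]
    refine tau_mono ?_
    rw [← cfc_const_mul _ _ _ (contOn _ _)]
    conv_rhs => rw [← cfc_id' ℝ T hT, ← cfc_pow _ _ _ (contOn _ _) hT]
    refine cfc_mono (fun x _ => ?_) (contOn _ _) (contOn _ _)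
    simp only [f]
    split_ifs with h
    · rw [mul_one]
      exact pow_le_pow_left₀ hc.le h _
    · rw [mul_zero, pow_mul]
      positivity
  · have h1 : T ≤ c • (1 : Matrix n n ℂ) + (M - c) • cfc f T := by
      rw [← cfc_const_mul _ _ _ (contOn _ _), ← Algebra.algebraMap_eq_smul_one,
        ← cfc_const c T hT, ← cfc_add _ _ _ (contOn _ _) (contOn _ _)]
      conv_lhs => rw [← cfc_id' ℝ T hT]
      refine cfc_mono (fun x hx => ?_) (contOn _ _) (contOn _ _)
      have := (spectrum_le_of_norm_le hT hM x hx).2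
      simp only [f]
      split_ifs with h
      · linarith
      · linarith
    have h2 := hQ.isSelfAdjoint.conjugate_le_conjugate h1
    rwa [hl, right_of_left hQ.isSelfAdjoint hT hl, mul_add, add_mul, mul_smul_comm, mul_smul_comm,
      mul_one, smul_mul_assoc, smul_mul_assoc, hQ.isIdempotentElem.eq, hQP,
      right_of_left hQ.isSelfAdjoint hP.isSelfAdjoint hQP] at h2

lemma exp_sub_sq_le {u : ℝ} (hu : 0 ≤ u) : Real.exp (u - u ^ 2) ≤ 1 + u := by
  have h1 : 0 < 1 + u := by linarith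
  have h2 : u - u ^ 2 ≤ u / (1 + u) := by
    rw [le_div_iff₀ h1]
    nlinarith [pow_nonneg hu 3]
  refine (Real.exp_le_exp.mpr h2).trans ?_
  have h3 := Real.add_one_le_exp (-(u / (1 + u)))
  have h4 : -(u / (1 + u)) + 1 = (1 + u)⁻¹ := by field_simp; ring
  rw [h4, Real.exp_neg] at h3
  exact (inv_le_inv₀ h1 (Real.exp_pos _)).mp h3

lemma sum_sa_left {Q : Matrix n n ℂ} : ∀ l : List (Matrix n n ℂ), (∀ A ∈ l, Good Q A) →
    IsSelfAdjoint l.sum ∧ Q * l.sum = l.sum
  | [], _ => by simp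
  | A :: l, h => by
    obtain ⟨h1, h2⟩ := sum_sa_left l (fun B hB => h B (List.mem_cons_of_mem _ hB))
    have hA := h A List.mem_cons_self
    rw [List.sum_cons]
    exact ⟨hA.sa.add h1, by rw [mul_add, hA.left, h2]⟩

lemma proj_le_of_left {Q P : Matrix n n ℂ} (hQ : IsStarProjection Q) (hP : IsStarProjection P)
    (h : Q * P = P) : P ≤ Q := by
  have := le_smul_of_norm_le hQ hP.isSelfAdjoint h hP.norm_le
  rwa [one_smul] at this

/-- The packaged potential. -/
theorem exists_potential {Q : Matrix n n ℂ} (hQ : IsStarProjection Q) {θ κ : ℝ} (hθ : 0 < θ)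
    (hκ : ∀ a : ℝ, -1 ≤ a → a ≤ 1 → Real.exp (θ * a) ≤ 1 + θ * a + κ * a ^ 2) (t : ℕ) :
    ∃ R : List (Matrix n n ℂ) → Matrix n n ℂ, R [] = Q ∧
      (∀ l, (∀ A ∈ l, Good Q A) → 0 ≤ R l ∧ Q * R l = R l) ∧
      (∀ A l, Good Q A → (∀ B ∈ l, Good Q B) →
        tau (R (A :: l)) ≤ tau (R l * (1 + θ • A + κ • (A * A)))) ∧
      (∀ l, (∀ A ∈ l, Good Q A) → l.length = t → ∀ a : ℝ, 0 ≤ a → a ≤ 1 →
        ∃ P : Matrix n n ℂ, IsStarProjection P ∧ Q * P = P ∧
          Real.exp (θ * a * t - 1) * tau P ≤ tau (R l) ∧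
          l.sum ≤ (a * t + t / 100) • Q + ((1 - a) * t) • P) := by
  obtain ⟨e, he⟩ : ∃ e : ℕ, (θ * t) ^ 2 + 200 * (θ * t) + θ + 1 ≤ (2 : ℝ) ^ (e + 1) := by
    obtain ⟨e, he⟩ := pow_unbounded_of_one_lt ((θ * t) ^ 2 + 200 * (θ * t) + θ + 1)
      (one_lt_two (α := ℝ))
    refine ⟨e, he.le.trans ?_⟩
    exact pow_le_pow_right₀ one_le_two (Nat.le_succ e)
  set m : ℝ := (2 : ℝ) ^ (e + 1) with hm
  have ht : (0 : ℝ) ≤ t := Nat.cast_nonneg t
  have hθt : 0 ≤ θ * t := by positivity
  have hm0 : 0 < m := by positivity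
  set β : ℝ := θ / (2 * m) with hβ
  have hβ0 : 0 < β := by positivity
  have hβ1 : β ≤ 1 := by
    rw [hβ, div_le_one (by positivity)]
    nlinarith [sq_nonneg (θ * t)]
  have hcast : ((2 * 2 ^ (e + 1) : ℕ) : ℝ) * β = θ := by
    push_cast
    rw [hβ, ← hm]
    field_simp
  refine ⟨fun l => TT Q β l ^ (2 ^ (e + 1)), ?_, ?_, ?_, ?_⟩
  · exact hQ.pow_eq (by positivity)
  · intro l hl
    have hT := TT_nonneg hQ β l hl
    constructor
    · simp only
      rw [pow_succ' 2 e]
      exact pow_even_nonneg (.of_nonneg hT) _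
    · simp only
      obtain ⟨j, hj⟩ : ∃ j, 2 ^ (e + 1) = j + 1 := ⟨2 ^ (e + 1) - 1, by
        have : 0 < 2 ^ (e + 1) := by positivity
        omega⟩
      rw [hj, pow_succ', ← mul_assoc, TT_left hQ β l hl]
  · intro A l hA hl
    have := TT_step (κ := κ) hQ hβ0.le hβ1 e (by rw [hcast]; exact hκ) A l hA hl
    rwa [hcast] at this
  · intro l hl hlen a ha0 ha1
    have hT := TT_nonneg hQ β l hl
    have hTs : IsSelfAdjoint (TT Q β l) := .of_nonneg hT
    have hTl := TT_left hQ β l hl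
    obtain ⟨n1, -, n3⟩ := TT_norm hQ hβ0.le l hl
    rw [hlen] at n1 n3
    have hc : 0 < 1 + 2 * β * a * t := by positivity
    obtain ⟨P, hP, hQP, h1, h2⟩ := exists_spectral_proj hQ hTs hTl hc n1 (2 ^ e)
    rw [← pow_succ' 2 e] at h1
    have hx : 2 * β * t = θ * t / m := by rw [hβ]; field_simp
    have hx1 : 2 * β * t ≤ 1 / 200 := by
      rw [hx, div_le_iff₀ hm0]
      nlinarith [sq_nonneg (θ * t)]
    have hx0 : 0 ≤ 2 * β * t := by positivity
    refine ⟨P, hP, hQP, ?_, ?_⟩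
    · refine le_trans ?_ h1
      refine mul_le_mul_of_nonneg_right ?_ (tau_nonneg hP.nonneg)
      have hu : 0 ≤ 2 * β * a * t := by positivity
      have h3 := exp_sub_sq_le hu
      calc Real.exp (θ * a * t - 1)
          ≤ Real.exp (((2 ^ (e + 1) : ℕ) : ℝ) * (2 * β * a * t - (2 * β * a * t) ^ 2)) := by
            refine Real.exp_le_exp.mpr ?_
            push_cast
            rw [← hm]
            have e1 : m * (2 * β * a * t - (2 * β * a * t) ^ 2)
                = θ * a * t - (θ * a * t) ^ 2 / m := by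
              rw [hβ]; field_simp
            rw [e1]
            have e2 : (θ * a * t) ^ 2 / m ≤ 1 := by
              rw [div_le_one hm0]
              have : θ * a * t ≤ θ * t := by nlinarith
              have : (θ * a * t) ^ 2 ≤ (θ * t) ^ 2 := by gcongr
              nlinarith
            linarith
        _ = (Real.exp (2 * β * a * t - (2 * β * a * t) ^ 2)) ^ (2 ^ (e + 1)) := by
            rw [Real.exp_nat_mul]
        _ ≤ (1 + 2 * β * a * t) ^ (2 ^ (e + 1)) := by gcongr
    · set M : ℝ := (1 + β) ^ (2 * t) with hM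
      have hδ : M - 1 - 2 * β * t ≤ (2 * β * t) ^ 2 := by
        have h3 : M ≤ Real.exp (2 * β * t) := by
          calc M ≤ (Real.exp β) ^ (2 * t) := by
                rw [hM]
                gcongr
                linarith [Real.add_one_le_exp β]
            _ = Real.exp (2 * β * t) := by
                rw [← Real.exp_nat_mul]; congr 1; push_cast; ring
        have h4 := Real.abs_exp_sub_one_sub_id_le (x := 2 * β * t)
          (by rw [abs_of_nonneg hx0]; linarith)
        have := le_abs_self (Real.exp (2 * β * t) - 1 - 2 * β * t)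
        linarith
      obtain ⟨hSs, hSl⟩ := sum_sa_left l hl
      have hX : IsSelfAdjoint (-(TT Q β l - Q - (2 * β) • l.sum)) := by
        refine ((hTs.sub hQ.isSelfAdjoint).sub ?_).neg
        rw [IsSelfAdjoint, star_smul, hSs.star_eq, star_trivial]
      have hXl : Q * (-(TT Q β l - Q - (2 * β) • l.sum)) = -(TT Q β l - Q - (2 * β) • l.sum) := by
        rw [mul_neg, mul_sub, mul_sub, hTl, hQ.isIdempotentElem.eq, mul_smul_comm, hSl]
      have h5 := le_smul_of_norm_le hQ hX hXl (c := (2 * β * t) ^ 2)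
        (by rw [norm_neg]; exact n3.trans hδ)
      have hPQ := proj_le_of_left hQ hP hQP
      have h6 : (M - (1 + 2 * β * a * t)) • P
          ≤ (2 * β * ((1 - a) * t)) • P + ((2 * β * t) ^ 2) • Q := by
        have h7 : (M - (1 + 2 * β * a * t)) • P
            ≤ (2 * β * ((1 - a) * t) + (2 * β * t) ^ 2) • P :=
          smul_le_smul_of_nonneg_right (by nlinarith) hP.nonneg
        refine h7.trans ?_
        rw [add_smul]
        exact add_le_add_right (smul_le_smul_of_nonneg_left hPQ (by positivity)) _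
      have h8 : (2 * (2 * β * t) ^ 2) • Q ≤ (2 * β * (t / 100)) • Q :=
        smul_le_smul_of_nonneg_right (by nlinarith) hQ.nonneg
      have h9 : (2 * β) • l.sum ≤ (2 * β) • ((a * t + t / 100) • Q + ((1 - a) * t) • P) := by
        have e1 : (2 * β) • ((a * t + t / 100) • Q + ((1 - a) * t) • P) - (2 * β) • l.sum
            = ((2 * β * t) ^ 2 • Q - -(TT Q β l - Q - (2 * β) • l.sum))
              + ((1 + 2 * β * a * t) • Q + (M - (1 + 2 * β * a * t)) • P - TT Q β l)
              + ((2 * β * ((1 - a) * t)) • P + ((2 * β * t) ^ 2) • Q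
                - (M - (1 + 2 * β * a * t)) • P)
              + ((2 * β * (t / 100)) • Q - (2 * (2 * β * t) ^ 2) • Q) := by
          module
        rw [← sub_nonneg, e1]
        exact add_nonneg (add_nonneg (add_nonneg (sub_nonneg.mpr h5) (sub_nonneg.mpr h2))
          (sub_nonneg.mpr h6)) (sub_nonneg.mpr h8)
      exact le_of_smul_le_smul_of_pos_left h9 (by positivity)

end Pool.Agent.Lib.MP_c1e253_pr
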