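import Pool.Agent.Lib.MP_c1e253_pr.RepBound

/-! Averaging projections, the Heisenberg dimension bound, the regular representation. -/

set_option autoImplicit false

open scoped MatrixOrder ComplexOrder Pointwise Matrix.Norms.L2Operator
open Matrix

namespace Pool.Agent.Lib.MP_c1e253_pr

section avg

variable {n : Type*} [Fintype n] [DecidableEq n] {H : Type*} [Group H] [Fintype H]

/-- averaging projection -/
noncomputable def avg (ρ : H →* Matrix n n ℂ) : Matrix n n ℂ :=
  ((Fintype.card H : ℝ)⁻¹) • ∑ h, ρ h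

lemma mul_avg (ρ : H →* Matrix n n ℂ) (g : H) : ρ g * avg ρ = avg ρ := by
  rw [avg, mul_smul_comm, Finset.mul_sum]
  congr 1
  rw [← Equiv.sum_comp (Equiv.mulLeft g) (fun h => ρ h)]
  simp

lemma avg_mul (ρ : H →* Matrix n n ℂ) (g : H) : avg ρ * ρ g = avg ρ := by
  rw [avg, smul_mul_assoc, Finset.sum_mul]
  congr 1
  rw [← Equiv.sum_comp (Equiv.mulRight g) (fun h => ρ h)]
  simp

lemma avg_mul_of_fixed (ρ : H →* Matrix n n ℂ) {Y : Matrix n n ℂ} (h : ∀ g, ρ g * Y = Y) :
    avg ρ * Y = Y := by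
  rw [avg, smul_mul_assoc, Finset.sum_mul]
  simp only [h, Finset.sum_const, Finset.card_univ]
  rw [← Nat.cast_smul_eq_nsmul ℝ, smul_smul, inv_mul_cancel₀ (by positivity), one_smul]

lemma avg_proj {ρ : H →* Matrix n n ℂ} (hρ : ∀ g, star (ρ g) = ρ g⁻¹) :
    IsStarProjection (avg ρ) := by
  refine ⟨avg_mul_of_fixed ρ (mul_avg ρ), ?_⟩
  rw [IsSelfAdjoint, avg, star_smul, star_trivial, star_sum]
  simp only [hρ]
  congr 1
  exact Equiv.sum_comp (Equiv.inv H) (fun h => ρ h)

lemma avg_comm (ρ : H →* Matrix n n ℂ) {Y : Matrix n n ℂ} (h : ∀ g, ρ g * Y = Y * ρ g) :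
    avg ρ * Y = Y * avg ρ := by
  rw [avg, smul_mul_assoc, mul_smul_comm, Finset.sum_mul, Finset.mul_sum]
  simp only [h]

end avg

section heis

variable {n : Type*} [Fintype n] [DecidableEq n] {G : Type*} [Group G]
  {π : G →* Matrix n n ℂ} {Q : Matrix n n ℂ}

theorem heis_bound (hπ : ∀ g, star (π g) = π g⁻¹) (hQ : Inv π Q) {A B : Type*} [Group A]
    [Fintype A] [Group B] [Fintype B] (x : A →* G) (z : B →* G)
    (hxz : ∀ α b, x α * z b = z b * x α)
    (hy : ∀ α, α ≠ 1 → ∀ t, ∃ y : G, (∀ b, y * z b = z b * y) ∧ x α * y = y * (x α * z t))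
    (hne : ∃ b, π (z b) * Q ≠ Q) : (Fintype.card A : ℝ) ≤ tau Q := by
  classical
  have hz : ∀ g, star ((π.comp z) g) = (π.comp z) g⁻¹ := fun g => by simp [hπ]
  have hx : ∀ g, star ((π.comp x) g) = (π.comp x) g⁻¹ := fun g => by simp [hπ]
  set E := avg (π.comp z) with hE
  have hEp : IsStarProjection E := avg_proj hz
  have hEQ : E * Q = Q * E := avg_comm _ fun b => hQ.comm _
  have hcomm : ∀ y : G, (∀ b, y * z b = z b * y) → π y * (Q * (1 - E)) = Q * (1 - E) * π y := by
    intro y hyz
    have : E * π y = π y * E := avg_comm _ fun b => by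
      simp only [MonoidHom.comp_apply]
      rw [← map_mul, ← map_mul, hyz]
    rw [← mul_assoc, hQ.comm, mul_assoc, mul_assoc, mul_sub, sub_mul, mul_one, one_mul, this]
  have hQ1 : IsStarProjection (Q * (1 - E)) := by
    refine hQ.proj.mul hEp.one_sub ?_
    rw [Commute, SemiconjBy, mul_sub, sub_mul, mul_one, one_mul, hEQ]
  have hQ1ne : Q * (1 - E) ≠ 0 := by
    intro h
    obtain ⟨b, hb⟩ := hne
    apply hb
    rw [mul_sub, mul_one, sub_eq_zero, ← hEQ] at h
    have h2 := mul_avg (π.comp z) b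
    rw [MonoidHom.comp_apply, ← hE] at h2
    rw [h, ← mul_assoc, h2]
  have hEQ1 : E * (Q * (1 - E)) = 0 := by
    rw [← mul_assoc, hEQ, mul_assoc, hEp.mul_one_sub_self, mul_zero]
  set Q1 := Q * (1 - E) with hQ1def
  have hzero : ∀ α, α ≠ 1 → tau (Q1 * π (x α)) = 0 := by
    intro α hα
    have h1 : ∀ t, tau (Q1 * π (x α)) = tau (Q1 * π (x α) * π (z t)) := by
      intro t
      obtain ⟨y, hy1, hy2⟩ := hy α hα t
      have e1 : π (x α) = π y * (π (x α) * π (z t)) * π y⁻¹ := by
        rw [← map_mul, ← map_mul, ← map_mul, ← hy2, mul_inv_cancel_right]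
      conv_lhs => rw [e1]
      rw [← mul_assoc, ← mul_assoc, ← hcomm y hy1, tau_mul_comm, ← mul_assoc, ← mul_assoc,
        ← mul_assoc, ← map_mul, inv_mul_cancel, map_one, one_mul]
    have h2 : tau (Q1 * π (x α) * E) = tau (Q1 * π (x α)) := by
      rw [hE, avg, mul_smul_comm, tau_smul, Finset.mul_sum, tau_sum]
      simp only [MonoidHom.comp_apply, ← h1, Finset.sum_const, Finset.card_univ, nsmul_eq_mul]
      have : (Fintype.card B : ℝ) ≠ 0 := by positivity
      field_simp
    rw [← h2, tau_mul_comm, ← mul_assoc, hEQ1, zero_mul, tau_zero]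
  have hF : IsStarProjection (Q1 * avg (π.comp x)) := by
    refine hQ1.mul (avg_proj hx) ?_
    exact (avg_comm (π.comp x) fun α => hcomm (x α) (hxz α)).symm
  have hc : (0 : ℝ) < Fintype.card A := by positivity
  have htau : tau (Q1 * avg (π.comp x)) = (Fintype.card A : ℝ)⁻¹ * tau Q1 := by
    rw [avg, mul_smul_comm, tau_smul, Finset.mul_sum, tau_sum, Finset.sum_eq_single 1]
    · simp
    · intro α _ hα
      exact hzero α hα
    · simp
  have h1 := one_le_tau_of_proj hQ1 hQ1ne
  have h2 : Q1 * avg (π.comp x) ≠ 0 := by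
    intro h
    rw [h, tau_zero] at htau
    have : 0 < (Fintype.card A : ℝ)⁻¹ * tau Q1 := by positivity
    linarith
  have h3 := one_le_tau_of_proj hF h2
  rw [htau, ← div_eq_inv_mul, le_div_iff₀ hc, one_mul] at h3
  refine h3.trans (tau_mono (proj_le_of_left hQ.proj hQ1 ?_))
  rw [hQ1def, ← mul_assoc, hQ.proj.isIdempotentElem.eq]

end heis

section regular

variable (G : Type*) [Group G] [Fintype G] [DecidableEq G]

/-- the right regular representation by permutation matrices -/
def reg : G →* Matrix G G ℂ where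
  toFun g := Matrix.of fun x y => if y = x * g then 1 else 0
  map_one' := by
    ext x y
    simp [Matrix.one_apply, eq_comm]
  map_mul' g h := by
    ext x y
    simp only [Matrix.mul_apply, Matrix.of_apply, ite_mul, one_mul, zero_mul,
      Finset.sum_ite_eq', Finset.mem_univ, if_true, mul_assoc]

variable {G}

lemma reg_apply (g x y : G) : reg G g x y = if y = x * g then 1 else 0 := rfl

lemma reg_star (g : G) : star (reg G g) = reg G g⁻¹ := by
  ext x y
  simp only [Matrix.star_apply, reg_apply]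
  by_cases h : x = y * g
  · simp [h]
  · have : ¬ y = x * g⁻¹ := fun h' => h (by rw [h']; simp)
    simp [h, this]

lemma tau_reg (g : G) : tau (reg G g) = if g = 1 then (Fintype.card G : ℝ) else 0 := by
  simp only [tau, Matrix.trace, Matrix.diag_apply, reg_apply, left_eq_mul]
  split_ifs <;> simp

/-- projection onto the functions of mean zero -/
noncomputable def Q0 (G : Type*) [Group G] [Fintype G] [DecidableEq G] : Matrix G G ℂ :=
  1 - avg (reg G)

lemma Q0_inv : Inv (reg G) (Q0 G) :=
  ⟨(avg_proj reg_star).one_sub, fun g => by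
    rw [Q0, mul_sub, sub_mul, mul_one, one_mul, mul_avg, avg_mul]⟩

lemma sum_reg_Q0 : (∑ g, reg G g) * Q0 G = 0 := by
  rw [Finset.sum_mul]
  simp only [Q0, mul_sub, mul_one, mul_avg, Finset.sum_sub_distrib, Finset.sum_const,
    Finset.card_univ]
  rw [avg, ← Nat.cast_smul_eq_nsmul ℝ, smul_smul, mul_inv_cancel₀ (by positivity), one_smul,
    sub_self]

theorem regular_bound (k L : ℕ) (N : ℕ → Finset G) (hN : ∀ s, (N s).Nonempty) (w : ℕ → ℝ)
    (hw : ∀ s, 0 ≤ w s)
    (hirr : ∀ Q, Irr (reg G) Q → (∑ g, reg G g) * Q = 0 → ∃ s < L,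
      (∀ g ∈ N s, reg G g * Q = Q) ∧
        Pr k (fun l : List G => ¬ Gap (reg G) Q l) ≤ w s * tau Q) :
    Pr k (fun l : List G => ¬ Gap (reg G) (Q0 G) l)
      ≤ ∑ s ∈ Finset.range L, w s * (Fintype.card G / (N s).card) := by
  let E : ℕ → Matrix G G ℂ := fun s => ((N s).card : ℝ)⁻¹ • ∑ g ∈ N s, reg G g
  let W : Matrix G G ℂ := ∑ s ∈ Finset.range L, w s • (star (E s) * E s)
  have hW : 0 ≤ W := Finset.sum_nonneg fun s _ => smul_nonneg (hw s) (star_mul_self_nonneg _)
  have hc : ∀ s, (0 : ℝ) < (N s).card := fun s => by exact_mod_cast (hN s).card_pos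
  obtain ⟨M, hM⟩ := exists_nat_gt (tau (Q0 G))
  refine (union_bound (W := W) k ?_ M (Q0 G) Q0_inv sum_reg_Q0 hM).trans ?_
  · intro Q hQ h0
    obtain ⟨s, hs, h1, h2⟩ := hirr Q hQ h0
    refine h2.trans ?_
    simp only [W, Finset.sum_mul, tau_sum, smul_mul_assoc, tau_smul]
    have hEQ : E s * Q = Q := by
      simp only [E, smul_mul_assoc, Finset.sum_mul]
      rw [Finset.sum_congr rfl h1, Finset.sum_const, ← Nat.cast_smul_eq_nsmul ℝ, smul_smul,
        inv_mul_cancel₀ (hc s).ne', one_smul]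
    have h3 : tau (star (E s) * E s * Q) = tau Q := by
      rw [mul_assoc, hEQ, ← tau_star, star_mul, star_star, hQ.inv.proj.isSelfAdjoint.star_eq,
        tau_mul_comm, hEQ]
    rw [← h3]
    exact Finset.single_le_sum (f := fun s => w s * tau (star (E s) * E s * Q))
      (fun s _ => mul_nonneg (hw s) (tau_mul_nonneg (star_mul_self_nonneg _) hQ.inv.proj.nonneg))
      (Finset.mem_range.mpr hs)
  · have h1 : tau (W * Q0 G) ≤ tau (W * 1) := tau_mul_mono hW Q0_inv.proj.le_one
    refine h1.trans (le_of_eq ?_)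
    simp only [mul_one, W, tau_sum, tau_smul]
    refine Finset.sum_congr rfl fun s _ => ?_
    congr 1
    simp only [E, star_smul, star_trivial, star_sum, reg_star, smul_mul_assoc, mul_smul_comm,
      tau_smul, Finset.sum_mul, Finset.mul_sum, tau_sum, ← map_mul, tau_reg, inv_mul_eq_one]
    have : ∀ g ∈ N s, ∑ h ∈ N s, ((N s).card : ℝ)⁻¹ * (((N s).card : ℝ)⁻¹ *
        if h = g then (Fintype.card G : ℝ) else 0)
        = ((N s).card : ℝ)⁻¹ * (((N s).card : ℝ)⁻¹ * Fintype.card G) := by
      intro g hg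
      rw [Finset.sum_eq_single g]
      · simp
      · intro h _ hh; simp [hh]
      · intro h; exact absurd hg h
    rw [Finset.sum_congr rfl this, Finset.sum_const, nsmul_eq_mul]
    have := (hc s).ne'
    field_simp

theorem cheeger {k : ℕ} (Z : Fin k → G) (hZ : Gap (reg G) (Q0 G) (List.ofFn Z)) (S : Finset G)
    (hS : 2 * S.card ≤ Fintype.card G) :
    1 / 600 * (k : ℝ) * S.card ≤
      (((S ×ˢ (Finset.univ : Finset (Fin k))).filter (fun x => x.1 * Z x.2 ∉ S)).card : ℝ) := by
  let v : G → ℂ := fun x => if x ∈ S then 1 else 0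
  let V : Matrix G G ℂ := Matrix.vecMulVec v (star v)
  have hV : 0 ≤ V := (Matrix.posSemidef_vecMulVec_self_star v).nonneg
  have hc : (0 : ℝ) < Fintype.card G := by positivity
  have hVg : ∀ g, tau (V * reg G g) = ((S.filter (fun x => x * g ∈ S)).card : ℝ) := by
    intro g
    rw [tau_mul_comm]
    simp only [tau, Matrix.trace, Matrix.diag_apply, Matrix.mul_apply, reg_apply, ite_mul, one_mul,
      zero_mul, Finset.sum_ite_eq', Finset.mem_univ, if_true, V, Matrix.vecMulVec_apply, v,
      Pi.star_apply, Complex.re_sum, Finset.card_filter]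
    push_cast
    rw [← Finset.sum_subset (Finset.subset_univ S)]
    · refine Finset.sum_congr rfl fun x hx => ?_
      split_ifs <;> simp
    · intro x _ hx
      split_ifs <;> simp
  have hV1 : tau V = S.card := by
    have := hVg 1
    rw [map_one, mul_one] at this
    rw [this]
    congr 2
    ext x
    simp
  have hVavg : tau (V * avg (reg G)) = (S.card : ℝ) ^ 2 / Fintype.card G := by
    rw [avg, mul_smul_comm, tau_smul, Finset.mul_sum, tau_sum]
    simp only [hVg, Finset.card_filter]
    push_cast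
    rw [Finset.sum_comm]
    have : ∀ x ∈ S, ∑ g : G, (if x * g ∈ S then (1 : ℝ) else 0) = S.card := by
      intro x _
      exact (Equiv.sum_comp (Equiv.mulLeft x) (fun y => if y ∈ S then (1 : ℝ) else 0)).trans
        (by simp)
    rw [Finset.sum_congr rfl this, Finset.sum_const, nsmul_eq_mul]
    field_simp
  have hSS : SS (reg G) (List.ofFn Z) = ∑ i, AA (reg G) (Z i) := by
    rw [SS, List.map_ofFn, List.sum_ofFn]
    rfl
  have hAavg : ∀ g, AA (reg G) g * avg (reg G) = avg (reg G) := by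
    intro g
    rw [AA, smul_mul_assoc, add_mul, mul_avg, mul_avg]
    module
  have hVA : ∀ g, tau (V * AA (reg G) g) = ((S.filter (fun x => x * g ∈ S)).card : ℝ) := by
    intro g
    have := tau_mul_AP reg_star (IsStarProjection.one _) (.of_nonneg hV) (one_mul V) g
    rwa [AP, one_mul, mul_one, hVg] at this
  have h1 := tau_mul_mono hV hZ
  rw [hSS, Q0, mul_smul_comm, tau_smul, mul_sub, mul_sub, mul_sub, mul_one, mul_one, tau_sub,
    tau_sub, hV1, hVavg, Finset.sum_mul, Finset.mul_sum, Finset.mul_sum, tau_sum, tau_sum] at h1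
  simp only [hAavg, hVA, hVavg, Finset.sum_const, Finset.card_univ, Fintype.card_fin,
    nsmul_eq_mul, List.length_ofFn] at h1
  have h2 : (((S ×ˢ (Finset.univ : Finset (Fin k))).filter (fun x => x.1 * Z x.2 ∉ S)).card : ℝ)
      = k * S.card - ∑ i, ((S.filter (fun x => x * Z i ∈ S)).card : ℝ) := by
    have h3 : ∀ i, ((S.filter (fun x => x * Z i ∈ S)).card : ℝ)
        = S.card - ((S.filter (fun x => x * Z i ∉ S)).card : ℝ) := by
      intro i
      have := Finset.card_filter_add_card_filter_not (s := S) (fun x => x * Z i ∈ S)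
      rw [← this]
      push_cast
      ring
    simp only [h3, Finset.sum_sub_distrib, Finset.sum_const, Finset.card_univ, Fintype.card_fin,
      nsmul_eq_mul, sub_sub_cancel]
    simp only [Finset.card_filter]
    push_cast
    rw [Finset.sum_product_right]
  rw [h2]
  have h4 : (S.card : ℝ) ^ 2 / Fintype.card G ≤ S.card / 2 := by
    rw [div_le_div_iff₀ hc two_pos]
    have : (2 * S.card : ℝ) ≤ Fintype.card G := by exact_mod_cast hS
    have : (0 : ℝ) ≤ S.card := Nat.cast_nonneg _
    nlinarith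
  have hk : (0 : ℝ) ≤ k := Nat.cast_nonneg k
  nlinarith [mul_le_mul_of_nonneg_left h4 hk]

end regular

end Pool.Agent.Lib.MP_c1e253_pr
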