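import Pool.Agent.Lib.MP_c1e253_pr.Moments

/-! Probability that an irreducible piece has no spectral gap, and the union bound. -/

set_option autoImplicit false

open scoped MatrixOrder ComplexOrder Pointwise Matrix.Norms.L2Operator
open Matrix

namespace Pool.Agent.Lib.MP_c1e253_pr

variable {n : Type*} [Fintype n] [DecidableEq n] {G : Type*} [Group G]

/-- sum of the Hermitian parts -/
noncomputable def SS (π : G →* Matrix n n ℂ) (l : List G) : Matrix n n ℂ := (l.map (AA π)).sum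

/-- spectral gap on the range of `Q` -/
def Gap (π : G →* Matrix n n ℂ) (Q : Matrix n n ℂ) (l : List G) : Prop :=
  SS π l * Q ≤ (299 / 300 * l.length : ℝ) • Q

variable {π : G →* Matrix n n ℂ} {Q : Matrix n n ℂ}

lemma SS_append (l₁ l₂ : List G) : SS π (l₁ ++ l₂) = SS π l₁ + SS π l₂ := by
  simp [SS]

lemma sum_AP (P : Matrix n n ℂ) (l : List G) : (l.map (AP π P)).sum = P * SS π l * P := by
  induction l with
  | nil => simp [SS]
  | cons g l ih =>
    simp only [List.map_cons, List.sum_cons, SS] at ih ⊢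
    rw [ih, AP, mul_add, add_mul]

lemma SS_comm (hQ : Inv π Q) (l : List G) : Q * SS π l = SS π l * Q := by
  induction l with
  | nil => simp [SS]
  | cons g l ih =>
    simp only [List.map_cons, List.sum_cons, SS] at ih ⊢
    rw [mul_add, add_mul, ih, AA, mul_smul_comm, smul_mul_assoc, mul_add, add_mul, hQ.comm,
      hQ.comm]

lemma sum_AP_inv (hQ : Inv π Q) (l : List G) : (l.map (AP π Q)).sum = SS π l * Q := by
  rw [sum_AP, SS_comm hQ, mul_assoc, hQ.proj.isIdempotentElem.eq]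

lemma SS_norm (hπ : ∀ g, star (π g) = π g⁻¹) (l : List G) : ‖SS π l‖ ≤ l.length := by
  induction l with
  | nil => simp [SS]
  | cons g l ih =>
    simp only [List.map_cons, List.sum_cons, SS, List.length_cons] at ih ⊢
    refine (norm_add_le _ _).trans ?_
    have := AA_norm hπ g
    push_cast
    linarith

lemma SS_bounds (hπ : ∀ g, star (π g) = π g⁻¹) (hQ : Inv π Q) (l : List G) :
    SS π l * Q ≤ (l.length : ℝ) • Q ∧ -(SS π l * Q) ≤ (l.length : ℝ) • Q := by
  obtain ⟨h1, h2⟩ := sum_sa_left _ (map_good hπ hQ.proj l)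
  rw [sum_AP_inv hQ] at h1 h2
  have h3 : ‖SS π l * Q‖ ≤ l.length := by
    refine (norm_mul_le _ _).trans ?_
    have := SS_norm hπ l
    have := hQ.proj.norm_le
    have := norm_nonneg (SS π l)
    nlinarith
  exact ⟨le_smul_of_norm_le hQ.proj h1 h2 h3,
    le_smul_of_norm_le hQ.proj h1.neg (by rw [mul_neg, h2]) (by rwa [norm_neg])⟩

lemma combine (hπ : ∀ g, star (π g) = π g⁻¹) (hQ : Inv π Q) {P : Matrix n n ℂ}
    (hP : IsStarProjection P) (hQP : Q * P = P) {t : ℕ} {l₁ l₂ : List G} (hl₂ : l₂.length = t)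
    (h1 : SS π l₁ * Q ≤ (3 / 4 * t + t / 100 : ℝ) • Q + ((1 - 3 / 4) * t : ℝ) • P)
    (h2 : P * SS π l₂ * P ≤ (1 / 2 * t + t / 100 : ℝ) • P) :
    SS π (l₁ ++ l₂) * Q ≤ (2 * t - t / 100 : ℝ) • Q := by
  obtain ⟨b1, b2⟩ := SS_bounds hπ hQ l₂
  rw [hl₂] at b1 b2
  have hPQ := right_of_left hQ.proj.isSelfAdjoint hP.isSelfAdjoint hQP
  have hQQ := hQ.proj.isIdempotentElem.eq
  have hPP := hP.isIdempotentElem.eq
  set Δ : Matrix n n ℂ := (t : ℝ) • Q - SS π l₂ * Q with hΔ
  have hΔ0 : 0 ≤ Δ := sub_nonneg.mpr b1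
  have hΔ1 : Δ ≤ (2 * t : ℝ) • Q := by
    rw [← sub_nonneg]
    have : (2 * t : ℝ) • Q - Δ = (t : ℝ) • Q - -(SS π l₂ * Q) := by rw [hΔ]; module
    rw [this]
    exact sub_nonneg.mpr b2
  have hQΔ : Q * Δ = Δ := by
    rw [hΔ, mul_sub, mul_smul_comm, hQQ, ← mul_assoc, SS_comm hQ, mul_assoc, hQQ]
  have hΔQ : Δ * Q = Δ := right_of_left hQ.proj.isSelfAdjoint (.of_nonneg hΔ0) hQΔ
  have hP' : IsStarProjection (Q - P) := hP.sub_of_mul_eq_left hQ.proj hPQ
  have hP's := hP'.isSelfAdjoint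
  have a1 : (Q - P) * Δ * (Q - P) ≤ (2 * t : ℝ) • (Q - P) := by
    have := hP's.conjugate_le_conjugate hΔ1
    have e : (Q - P) * Q = Q - P := by rw [sub_mul, hQQ, hPQ]
    rwa [mul_smul_comm, smul_mul_assoc, e, hP'.isIdempotentElem.eq] at this
  have a2 : 0 ≤ (Q + (Q - P)) * Δ * (Q + (Q - P)) :=
    (hQ.proj.isSelfAdjoint.add hP's).conjugate_nonneg hΔ0
  have a3 : P * Δ * P = (t : ℝ) • P - P * SS π l₂ * P := by
    rw [hΔ, mul_sub, sub_mul, mul_smul_comm, smul_mul_assoc, hPQ, hPP, mul_assoc P (_ * Q),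
      mul_assoc _ Q, hQP, mul_assoc]
  have a4 : P * Δ * P + (Q + (Q - P)) * Δ * (Q + (Q - P))
      = (2 : ℝ) • Δ + (2 : ℝ) • ((Q - P) * Δ * (Q - P)) := by
    have e1 : Q * Δ * Q = Δ := by rw [hQΔ, hΔQ]
    simp only [add_mul, mul_add, sub_mul, mul_sub, e1]
    module
  have a5 : (Q + (Q - P)) * Δ * (Q + (Q - P))
      = (2 : ℝ) • Δ + (2 : ℝ) • ((Q - P) * Δ * (Q - P)) - ((t : ℝ) • P - P * SS π l₂ * P) := by
    rw [← a3, ← a4]; abel
  have ht : (0 : ℝ) ≤ t := Nat.cast_nonneg t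
  rw [← sub_nonneg, SS_append, add_mul]
  have key : (2 * t - t / 100 : ℝ) • Q - (SS π l₁ * Q + SS π l₂ * Q)
      = ((3 / 4 * t + t / 100 : ℝ) • Q + ((1 - 3 / 4) * t : ℝ) • P - SS π l₁ * Q)
        + (9 / 10 : ℝ) • Δ
        + (1 / 20 : ℝ) • ((Q + (Q - P)) * Δ * (Q + (Q - P)))
        + (1 / 20 : ℝ) • ((1 / 2 * t + t / 100 : ℝ) • P - P * SS π l₂ * P)
        + (1 / 10 : ℝ) • ((2 * t : ℝ) • (Q - P) - (Q - P) * Δ * (Q - P))
        + (3 / 100 * t : ℝ) • (Q - P) + (9 / 2000 * t : ℝ) • P := by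
    rw [a5]
    generalize (Q - P) * Δ * (Q - P) = W
    rw [hΔ]
    module
  rw [key]
  refine add_nonneg (add_nonneg (add_nonneg (add_nonneg (add_nonneg (add_nonneg
    (sub_nonneg.mpr h1) ?_) ?_) ?_) ?_) ?_) ?_
  · exact smul_nonneg (by norm_num) hΔ0
  · exact smul_nonneg (by norm_num) a2
  · exact smul_nonneg (by norm_num) (sub_nonneg.mpr h2)
  · exact smul_nonneg (by norm_num) (sub_nonneg.mpr a1)
  · exact smul_nonneg (by positivity) hP'.nonneg
  · exact smul_nonneg (by positivity) hP.nonneg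

variable [Fintype G]

theorem rep_small (hπ : ∀ g, star (π g) = π g⁻¹) (hQ : Irr π Q) (h0 : (∑ g, π g) * Q = 0)
    (k : ℕ) : Pr k (fun l : List G => ¬ Gap π Q l) ≤ Real.exp (1 - k / 8) * tau Q := by
  have hb := bound_one hπ hQ h0 hQ.inv.proj hQ.inv.proj.isIdempotentElem.eq (θ := 1 / 2)
    (by norm_num) (by norm_num) (hk_small (by norm_num) (by norm_num)) k (a := 3 / 4)
    (by norm_num) (by norm_num)
  have hD := hQ.tau_pos
  refine (Pr_mono ?_).trans (hb.trans ?_)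
  · intro l hl hbad hgood
    refine hbad ?_
    rw [sum_AP_inv hQ.inv] at hgood
    rw [Gap, hl]
    refine hgood.trans (smul_le_smul_of_nonneg_right ?_ hQ.inv.proj.nonneg)
    have : (0 : ℝ) ≤ k := Nat.cast_nonneg k
    linarith
  · rw [div_self hD.ne', ← mul_assoc]
    refine mul_le_mul_of_nonneg_right ?_ hD.le
    have h1 : (1 + (1 / 2) ^ 2 * 1 : ℝ) ^ k ≤ Real.exp (k * (1 / 4)) := by
      rw [Real.exp_nat_mul]
      gcongr
      have := Real.add_one_le_exp (1 / 4)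
      linarith
    rw [← Real.exp_neg]
    refine (mul_le_mul_of_nonneg_left h1 (Real.exp_pos _).le).trans ?_
    rw [← Real.exp_add]
    exact Real.exp_le_exp.mpr (le_of_eq (by ring))

lemma gamma_le {s : ℕ} (hs : 64 ≤ s) {D : ℝ} (hD : 2 ^ s ≤ D) :
    ((35 / 32) ^ s + (21 / 16) ^ s * (64 / D)) * Real.exp (-(s / 8)) ≤ Real.exp (-(s / 64)) := by
  have hs' : (64 : ℝ) ≤ s := by exact_mod_cast hs
  have h1 : (35 / 32 : ℝ) ^ s ≤ Real.exp (s * (3 / 32)) := by
    rw [Real.exp_nat_mul]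
    gcongr
    have := Real.add_one_le_exp (3 / 32)
    linarith
  have h2 : (21 / 16 : ℝ) ^ s * (64 / D) ≤ 1 := by
    have h3 : (0 : ℝ) < 2 ^ s := by positivity
    calc (21 / 16 : ℝ) ^ s * (64 / D) ≤ (21 / 16 : ℝ) ^ s * (64 / 2 ^ s) := by gcongr
      _ = 64 * (21 / 32 : ℝ) ^ s := by
          rw [show (21 / 32 : ℝ) = (21 / 16) / 2 by norm_num, div_pow (21 / 16 : ℝ) 2]
          field_simp
      _ ≤ 64 * (21 / 32 : ℝ) ^ 64 := by
          gcongr 64 * ?_
          exact pow_le_pow_of_le_one (by norm_num) (by norm_num) hs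
      _ ≤ 1 := by norm_num
  have h3 : (1 : ℝ) ≤ Real.exp (s * (3 / 32)) := Real.one_le_exp (by positivity)
  have h4 : (2 : ℝ) ≤ Real.exp (s / 64) := by
    have := Real.add_one_le_exp (s / 64 : ℝ)
    linarith
  calc ((35 / 32) ^ s + (21 / 16) ^ s * (64 / D)) * Real.exp (-(s / 8))
      ≤ (Real.exp (s / 64) * Real.exp (s * (3 / 32))) * Real.exp (-(s / 8)) := by
        gcongr
        nlinarith
    _ = Real.exp (-(s / 64)) := by
        rw [← Real.exp_add, ← Real.exp_add]; congr 1; ring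

theorem rep_large_even (hπ : ∀ g, star (π g) = π g⁻¹) (hQ : Irr π Q) (h0 : (∑ g, π g) * Q = 0)
    {s t : ℕ} (hs : 64 ≤ s) (hD : 2 ^ s ≤ tau Q) (ht : 17 ≤ t) :
    Pr (t + t) (fun l : List G => ¬ SS π l * Q ≤ (2 * t - t / 100 : ℝ) • Q)
      ≤ Real.exp (-(s * t / 64)) + Real.exp (3 * t - t ^ 2 / 96) * tau Q := by
  have hDpos := hQ.tau_pos
  have ht' : (17 : ℝ) ≤ t := by exact_mod_cast ht
  refine (Pr_append (q := fun l : List G => ¬ ∃ P : Matrix n n ℂ, IsStarProjection P ∧ Q * P = P ∧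
        tau P ≤ tau Q * Real.exp (1 - t / 16) ∧
        (l.map (AP π Q)).sum ≤ (3 / 4 * t + t / 100 : ℝ) • Q + ((1 - 3 / 4) * t : ℝ) • P)
      (b := Real.exp (3 * t - t ^ 2 / 96) * tau Q) (by positivity) ?_).trans ?_
  · intro l₁ _ hq
    obtain ⟨P, hP, hQP, h1, h2⟩ := not_not.mp hq
    rw [sum_AP_inv hQ.inv] at h2
    have hθ : (0 : ℝ) < (t / 16 - 1) / 3 := by linarith
    have hb := bound_one hπ hQ h0 hP hQP hθ (Real.exp_pos _).le (hk_large hθ.le) t (a := 1 / 2)
      (by norm_num) (by norm_num)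
    refine (Pr_mono ?_).trans (hb.trans ?_)
    · intro l₂ hl₂ hbad hgood
      rw [sum_AP] at hgood
      exact hbad (combine hπ hQ.inv hP hQP hl₂ h2 hgood)
    · have hP0 := tau_nonneg hP.nonneg
      have h3 : Real.exp (3 * ((t / 16 - 1) / 3)) * (tau P / tau Q) ≤ 1 := by
        have : tau P / tau Q ≤ Real.exp (1 - t / 16) := by
          rw [div_le_iff₀ hDpos]; linarith
        refine (mul_le_mul_of_nonneg_left this (Real.exp_pos _).le).trans ?_
        rw [← Real.exp_add]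
        exact le_of_eq (by rw [← Real.exp_zero]; congr 1; ring)
      have h4 : tau P ≤ tau Q := tau_mono (proj_le_of_left hQ.inv.proj hP hQP)
      have h5 : (1 + Real.exp (3 * ((t / 16 - 1) / 3)) * (tau P / tau Q)) ^ t
          ≤ Real.exp (t * 1) := by
        rw [Real.exp_nat_mul]
        gcongr
        have := Real.add_one_le_exp 1
        linarith
      rw [← Real.exp_neg]
      calc Real.exp (-((t / 16 - 1) / 3 * (1 / 2) * t - 1)) *
            ((1 + Real.exp (3 * ((t / 16 - 1) / 3)) * (tau P / tau Q)) ^ t * tau P)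
          ≤ Real.exp (-((t / 16 - 1) / 3 * (1 / 2) * t - 1)) * (Real.exp (t * 1) * tau Q) := by
            gcongr
        _ ≤ Real.exp (3 * t - t ^ 2 / 96) * tau Q := by
            rw [← mul_assoc, ← Real.exp_add]
            gcongr
            nlinarith
  · refine add_le_add_left ((bound_two hπ hQ s t).trans ?_) _
    calc (((35 / 32) ^ s + (21 / 16) ^ s * (64 / tau Q)) * Real.exp (-(s / 8))) ^ t
        ≤ (Real.exp (-(s / 64))) ^ t := by
          gcongr
          exact gamma_le hs hD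
      _ = Real.exp (-(s * t / 64)) := by
          rw [← Real.exp_nat_mul]; congr 1; ring

theorem rep_large (hπ : ∀ g, star (π g) = π g⁻¹) (hQ : Irr π Q) (h0 : (∑ g, π g) * Q = 0)
    {s t r : ℕ} (hs : 64 ≤ s) (hD : 2 ^ s ≤ tau Q) (ht : 17 ≤ t) (hr : r ≤ 1) :
    Pr (t + t + r) (fun l : List G => ¬ Gap π Q l)
      ≤ (Real.exp (-(s * t / 64)) + Real.exp (3 * t - t ^ 2 / 96)) * tau Q := by
  have h1 := one_le_tau_of_proj hQ.inv.proj hQ.ne
  have h2 := rep_large_even hπ hQ h0 hs hD ht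
  have h3 := Pr_append (t₁ := t + t) (t₂ := r) (p := fun l : List G => ¬ Gap π Q l)
    (q := fun l : List G => ¬ SS π l * Q ≤ (2 * t - t / 100 : ℝ) • Q) (b := 0) le_rfl ?_
  · have := Real.exp_pos (-(s * t / 64))
    nlinarith
  · intro l₁ hl₁ hq
    refine le_of_eq (Pr_eq_zero fun l₂ hl₂ => ?_)
    rw [not_not] at hq ⊢
    have h4 := (SS_bounds hπ hQ.inv l₂).1
    rw [Gap, SS_append, add_mul, List.length_append, hl₁, hl₂]
    rw [hl₂] at h4
    refine (add_le_add hq h4).trans ?_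
    rw [← add_smul]
    refine smul_le_smul_of_nonneg_right ?_ hQ.inv.proj.nonneg
    have ht' : (17 : ℝ) ≤ t := by exact_mod_cast ht
    have hr' : (r : ℝ) ≤ 1 := by exact_mod_cast hr
    push_cast
    linarith

/-- union bound along a decomposition into minimal invariant projections -/
theorem union_bound (k : ℕ) {W : Matrix n n ℂ}
    (hirr : ∀ Q, Irr π Q → (∑ g, π g) * Q = 0 →
      Pr k (fun l : List G => ¬ Gap π Q l) ≤ tau (W * Q)) :
    ∀ (N : ℕ) (Q : Matrix n n ℂ), Inv π Q → (∑ g, π g) * Q = 0 → tau Q < N →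
      Pr k (fun l : List G => ¬ Gap π Q l) ≤ tau (W * Q) := by
  intro N
  induction N with
  | zero =>
    intro Q hQ _ h
    have := tau_nonneg hQ.proj.nonneg
    simp only [Nat.cast_zero] at h
    linarith
  | succ N ih =>
    intro Q hQ h0 hN
    by_cases hz : Q = 0
    · subst hz
      rw [Pr_eq_zero (fun l _ => by simp [Gap])]
      simp
    by_cases hi : Irr π Q
    · exact hirr Q hi h0
    have : ∃ P, Inv π P ∧ Q * P = P ∧ P ≠ 0 ∧ P ≠ Q := by
      by_contra hc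
      refine hi ⟨hQ, hz, fun P hP hQP => ?_⟩
      by_contra hc'
      push Not at hc'
      exact hc ⟨P, hP, hQP, hc'.1, hc'.2⟩
    obtain ⟨P, hP, hQP, hP0, hPQ⟩ := this
    have hPQ' := right_of_left hQ.proj.isSelfAdjoint hP.proj.isSelfAdjoint hQP
    have hP' : Inv π (Q - P) := ⟨hP.proj.sub_of_mul_eq_left hQ.proj hPQ', fun g => by
      rw [mul_sub, sub_mul, hQ.comm, hP.comm]⟩
    have h1 := one_le_tau_of_proj hP.proj hP0
    have h2 := one_le_tau_of_proj hP'.proj (sub_ne_zero.mpr (Ne.symm hPQ))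
    rw [tau_sub] at h2
    push_cast at hN
    have h0P : (∑ g, π g) * P = 0 := by rw [← hQP, ← mul_assoc, h0, zero_mul]
    have i1 := ih P hP h0P (by linarith)
    have i2 := ih (Q - P) hP' (by rw [mul_sub, h0, h0P, sub_zero]) (by rw [tau_sub]; linarith)
    rw [mul_sub, tau_sub] at i2
    refine (Pr_union (q := fun l : List G => ¬ Gap π P l)
      (r := fun l : List G => ¬ Gap π (Q - P) l) ?_).trans (by linarith)
    intro l _ hbad
    by_contra hc
    push Not at hc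
    refine hbad ?_
    have := add_le_add hc.1 hc.2
    rwa [← mul_add, ← smul_add, add_sub_cancel] at this

end Pool.Agent.Lib.MP_c1e253_pr
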