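import Pool.Agent.Lib.MP_c1e253_pr.Potential

/-! Schur's lemma and orthogonality relations for minimal invariant projections. -/

set_option autoImplicit false

open scoped MatrixOrder ComplexOrder Pointwise Matrix.Norms.L2Operator
open Matrix

namespace Pool.Agent.Lib.MP_c1e253_pr

variable {n : Type*} [Fintype n] [DecidableEq n] {G : Type*} [Group G]

/-- invariant projection -/
structure Inv (π : G →* Matrix n n ℂ) (Q : Matrix n n ℂ) : Prop where
  proj : IsStarProjection Q
  comm : ∀ g, π g * Q = Q * π g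

/-- minimal nonzero invariant projection -/
structure Irr (π : G →* Matrix n n ℂ) (Q : Matrix n n ℂ) : Prop where
  inv : Inv π Q
  ne : Q ≠ 0
  min : ∀ P, Inv π P → Q * P = P → P = 0 ∨ P = Q

variable {π : G →* Matrix n n ℂ} {Q : Matrix n n ℂ}

lemma schur_sa (hQ : Irr π Q) {X : Matrix n n ℂ} (hX : IsSelfAdjoint X) (hl : Q * X = X)
    (hc : ∀ g, π g * X = X * π g) : ∃ c : ℝ, X = c • Q := by
  let f : ℝ → ℝ → ℝ := fun x y => if y = x then 1 else 0
  have hE : ∀ x : ℝ, x ≠ 0 → cfc (f x) X = 0 ∨ cfc (f x) X = Q := by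
    intro x hx
    refine hQ.min _ ⟨⟨?_, IsSelfAdjoint.cfc⟩, fun g => ?_⟩ ?_
    · rw [IsIdempotentElem, ← cfc_mul _ _ _ (contOn _ _) (contOn _ _)]
      congr 1
      ext y
      simp only [f]
      split_ifs <;> simp
    · have : Commute X (π g) := (hc g).symm
      exact (this.cfc_real (f x)).symm
    · have : cfc (f x) X = X * cfc (fun y => f x y / x) X := by
        conv_rhs => enter [1]; rw [← cfc_id' ℝ X hX]
        rw [← cfc_mul _ _ _ (contOn _ _) (contOn _ _)]
        congr 1
        ext y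
        simp only [f]
        split_ifs with h
        · rw [h]; field_simp
        · simp
      rw [this, ← mul_assoc, hl]
  by_cases h : ∃ x : ℝ, x ≠ 0 ∧ cfc (f x) X = Q
  · obtain ⟨x, -, hx⟩ := h
    refine ⟨x, ?_⟩
    have h1 : X = X * Q := (right_of_left hQ.inv.proj.isSelfAdjoint hX hl).symm
    rw [h1, ← hx, ← cfc_const_mul _ _ _ (contOn _ _)]
    conv_lhs => enter [1]; rw [← cfc_id' ℝ X hX]
    rw [← cfc_mul _ _ _ (contOn _ _) (contOn _ _)]
    congr 1
    ext y
    simp only [f]
    split_ifs with h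
    · rw [h]
    · simp
  · push Not at h
    refine ⟨0, ?_⟩
    have hfin : (spectrum ℝ X).Finite := Matrix.finite_real_spectrum
    have h1 : X = cfc (∑ x ∈ hfin.toFinset, fun y => x * f x y) X := by
      conv_lhs => rw [← cfc_id' ℝ X hX]
      refine cfc_congr fun y hy => ?_
      simp only [Finset.sum_apply, f, mul_ite, mul_one, mul_zero]
      rw [Finset.sum_ite_eq]
      simp [hy]
    rw [h1, cfc_sum _ _ _ (fun _ _ => contOn _ _), zero_smul]
    refine Finset.sum_eq_zero fun x _ => ?_
    rw [cfc_const_mul _ _ _ (contOn _ _)]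
    by_cases hx : x = 0
    · simp [hx]
    · rcases hE x hx with h0 | h0
      · rw [h0, smul_zero]
      · exact absurd h0 (h x hx)

lemma schur (hπ : ∀ g, star (π g) = π g⁻¹) (hQ : Irr π Q) {X : Matrix n n ℂ}
    (hl : Q * X = X) (hr : X * Q = X) (hc : ∀ g, π g * X = X * π g) : ∃ c : ℂ, X = c • Q := by
  have hQs := hQ.inv.proj.isSelfAdjoint
  have hl' : Q * star X = star X := by
    have := congrArg star hr
    rwa [star_mul, hQs.star_eq] at this
  have hc' : ∀ g, π g * star X = star X * π g := by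
    intro g
    have := congrArg star (hc g⁻¹)
    rw [star_mul, star_mul, hπ, inv_inv] at this
    exact this.symm
  obtain ⟨a, ha⟩ := schur_sa hQ (X := X + star X) (IsSelfAdjoint.add_star_self X)
    (by rw [mul_add, hl, hl']) (fun g => by rw [mul_add, add_mul, hc, hc'])
  obtain ⟨b, hb⟩ := schur_sa hQ (X := Complex.I • (X - star X))
    (by rw [IsSelfAdjoint, star_smul, star_sub, star_star, Complex.star_def, Complex.conj_I,
      neg_smul, ← smul_neg, neg_sub])
    (by rw [mul_smul_comm, mul_sub, hl, hl'])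
    (fun g => by rw [mul_smul_comm, smul_mul_assoc, mul_sub, sub_mul, hc, hc'])
  refine ⟨((a : ℂ) - Complex.I * b) / 2, ?_⟩
  have e1 : X = (1 / 2 : ℂ) • ((X + star X) - Complex.I • (Complex.I • (X - star X))) := by
    rw [smul_smul, Complex.I_mul_I]
    module
  rw [e1, ha, hb, ← Complex.coe_smul a, ← Complex.coe_smul b]
  module

omit [DecidableEq n] in
lemma trace_eq_tau {X : Matrix n n ℂ} (hX : IsSelfAdjoint X) : Matrix.trace X = (tau X : ℂ) := by
  have h : star (Matrix.trace X) = Matrix.trace X := by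
    rw [← Matrix.trace_conjTranspose, ← Matrix.star_eq_conjTranspose, hX.star_eq]
  exact (Complex.conj_eq_iff_re.mp h).symm

lemma Irr.tau_pos (hQ : Irr π Q) : 0 < tau Q :=
  lt_of_lt_of_le one_pos (one_le_tau_of_proj hQ.inv.proj hQ.ne)

variable [Fintype G]

lemma schur_avg (hπ : ∀ g, star (π g) = π g⁻¹) (hQ : Irr π Q) {Y : Matrix n n ℂ}
    (hl : Q * Y = Y) (hr : Y * Q = Y) :
    ∑ g, π g * Y * π g⁻¹ = ((Fintype.card G : ℂ) * Matrix.trace Y / (tau Q : ℂ)) • Q := by
  obtain ⟨c, hc⟩ := schur hπ hQ (X := ∑ g, π g * Y * π g⁻¹)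
    (by
      rw [Finset.mul_sum]
      refine Finset.sum_congr rfl fun g _ => ?_
      rw [← mul_assoc, ← mul_assoc, ← hQ.inv.comm, mul_assoc _ Q, hl])
    (by
      rw [Finset.sum_mul]
      refine Finset.sum_congr rfl fun g _ => ?_
      rw [mul_assoc, hQ.inv.comm, ← mul_assoc, mul_assoc _ Y, hr])
    (fun h => by
      rw [Finset.mul_sum, Finset.sum_mul, ← Equiv.sum_comp (Equiv.mulLeft h)
        (fun g => π g * Y * π g⁻¹ * π h)]
      refine Finset.sum_congr rfl fun g _ => ?_
      simp only [Equiv.coe_mulLeft, _root_.mul_inv_rev, map_mul, mul_assoc]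
      rw [← map_mul π h⁻¹ h, inv_mul_cancel, map_one, mul_one])
  have ht := congrArg Matrix.trace hc
  rw [Matrix.trace_sum, Matrix.trace_smul, trace_eq_tau hQ.inv.proj.isSelfAdjoint] at ht
  have h2 : ∀ g, Matrix.trace (π g * Y * π g⁻¹) = Matrix.trace Y := by
    intro g
    rw [Matrix.trace_mul_comm, ← mul_assoc, ← map_mul, inv_mul_cancel, map_one, one_mul]
  simp only [h2, Finset.sum_const, Finset.card_univ, nsmul_eq_mul, smul_eq_mul] at ht
  have h3 : (tau Q : ℂ) ≠ 0 := by exact_mod_cast hQ.tau_pos.ne'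
  rw [hc, ht, mul_div_assoc, div_self h3, mul_one]

/-- first orthogonality consequence -/
lemma sum_tau_conj (hπ : ∀ g, star (π g) = π g⁻¹) (hQ : Irr π Q) {R P : Matrix n n ℂ}
    (hR : R * Q = R) (hP : IsSelfAdjoint P) (hl : Q * P = P) :
    ∑ g, tau (R * (π g * P * π g⁻¹)) = Fintype.card G * (tau P / tau Q * tau R) := by
  rw [← tau_sum, ← Finset.mul_sum, schur_avg hπ hQ hl
    (right_of_left hQ.inv.proj.isSelfAdjoint hP hl), trace_eq_tau hP, mul_smul_comm, hR]
  have : ((Fintype.card G : ℂ) * (tau P : ℂ) / (tau Q : ℂ))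
      = ((Fintype.card G * tau P / tau Q : ℝ) : ℂ) := by push_cast; ring
  rw [this, Complex.coe_smul, tau_smul]
  ring

lemma trace_mul_trace (X Y : Matrix n n ℂ) : Matrix.trace X * Matrix.trace Y
    = ∑ a, ∑ b, Matrix.trace (X * Matrix.single a b 1 * (Y * Matrix.single b a 1)) := by
  simp only [Matrix.trace, Matrix.diag_apply, Finset.sum_mul_sum]
  refine Finset.sum_congr rfl fun a _ => Finset.sum_congr rfl fun b _ => ?_
  simp [Matrix.mul_apply, Matrix.single_apply, ite_and]

/-- second orthogonality consequence -/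
lemma sum_sq_tau (hπ : ∀ g, star (π g) = π g⁻¹) (hQ : Irr π Q) {R : Matrix n n ℂ}
    (hR : 0 ≤ R) (hl : Q * R = R) :
    ∑ g, tau (R * π g) ^ 2 ≤ Fintype.card G * (tau R ^ 2 / tau Q) := by
  have hRs : IsSelfAdjoint R := .of_nonneg hR
  have hr := right_of_left hQ.inv.proj.isSelfAdjoint hRs hl
  have hQQ := hQ.inv.proj.isIdempotentElem.eq
  have h1 : ∀ g, tau (R * π g) ^ 2
      ≤ (Matrix.trace (R * π g) * Matrix.trace (π g⁻¹ * R)).re := by
    intro g
    have : Matrix.trace (π g⁻¹ * R) = star (Matrix.trace (R * π g)) := by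
      rw [← Matrix.trace_conjTranspose, ← Matrix.star_eq_conjTranspose, star_mul, hπ, hRs.star_eq]
    rw [this, Complex.star_def, Complex.mul_conj, Complex.ofReal_re, Complex.normSq_apply, tau]
    nlinarith [sq_nonneg (Matrix.trace (R * π g)).im]
  refine (Finset.sum_le_sum fun g _ => h1 g).trans ?_
  rw [← Complex.re_sum]
  have h2 : ∑ g, Matrix.trace (R * π g) * Matrix.trace (π g⁻¹ * R)
      = (Fintype.card G : ℂ) / (tau Q : ℂ) * Matrix.trace (R * R) := by
    simp only [trace_mul_trace]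
    rw [Finset.sum_comm]
    have h3 : ∀ a, ∑ g, ∑ b, Matrix.trace (R * π g * Matrix.single a b 1 *
        (π g⁻¹ * R * Matrix.single b a 1))
        = ∑ b, (Fintype.card G : ℂ) / (tau Q : ℂ) * (Q b a * (R * R) a b) := by
      intro a
      rw [Finset.sum_comm]
      refine Finset.sum_congr rfl fun b _ => ?_
      have h4 : ∀ g, R * π g * Matrix.single a b 1 * (π g⁻¹ * R * Matrix.single b a 1)
          = R * (π g * (Q * Matrix.single a b 1 * Q) * π g⁻¹) * (R * Matrix.single b a 1) := by
        intro g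
        have e1 : R * π g = R * π g * Q := by
          rw [mul_assoc, hQ.inv.comm, ← mul_assoc, hr]
        have e2 : π g⁻¹ * R = Q * (π g⁻¹ * R) := by
          rw [← mul_assoc, ← hQ.inv.comm, mul_assoc, hl]
        conv_lhs => rw [e1, e2]
        simp only [mul_assoc]
      simp only [h4]
      rw [← Matrix.trace_sum, ← Finset.sum_mul, ← Finset.mul_sum, schur_avg hπ hQ
        (by rw [← mul_assoc, ← mul_assoc, hQQ]) (by rw [mul_assoc, hQQ]),
        Matrix.trace_mul_comm _ Q, ← mul_assoc Q Q, hQQ, Matrix.trace_mul_single,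
        mul_smul_comm, hr, smul_mul_assoc, Matrix.trace_smul, ← mul_assoc,
        Matrix.trace_mul_single]
      simp only [MulOpposite.op_one, one_smul, smul_eq_mul]
      ring
    simp only [h3, ← Finset.mul_sum]
    congr 1
    have : Matrix.trace (R * R) = Matrix.trace (Q * (R * R)) := by rw [← mul_assoc, hl]
    rw [this, Finset.sum_comm]
    simp only [Matrix.trace, Matrix.diag_apply, Matrix.mul_apply (M := Q)]
  have hRR : IsSelfAdjoint (R * R) := by rw [IsSelfAdjoint, star_mul, hRs.star_eq]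
  rw [h2, trace_eq_tau hRR]
  have h5 : (Fintype.card G : ℂ) / (tau Q : ℂ) * (tau (R * R) : ℂ)
      = ((Fintype.card G / tau Q * tau (R * R) : ℝ) : ℂ) := by push_cast; ring
  rw [h5, Complex.ofReal_re]
  have h6 := tau_mul_self_le hR
  have h7 := hQ.tau_pos
  calc (Fintype.card G : ℝ) / tau Q * tau (R * R) ≤ Fintype.card G / tau Q * tau R ^ 2 := by
        gcongr
    _ = _ := by ring

end Pool.Agent.Lib.MP_c1e253_pr
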