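import Mathlib

/-! Real trace of complex matrices, a Hoelder inequality for powers of two and the
Araki-Lieb-Thirring type inequality for powers of two. -/

set_option autoImplicit false

open scoped MatrixOrder ComplexOrder Pointwise
open Matrix

namespace Pool.Agent.Lib.MP_c1e253_pr

variable {n : Type*} [Fintype n] [DecidableEq n]

/-- real part of the trace -/
noncomputable def tau (X : Matrix n n ℂ) : ℝ := (Matrix.trace X).re

omit [DecidableEq n] in
@[simp] lemma tau_zero : tau (0 : Matrix n n ℂ) = 0 := by simp [tau]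

omit [DecidableEq n] in
lemma tau_add (X Y : Matrix n n ℂ) : tau (X + Y) = tau X + tau Y := by simp [tau]

omit [DecidableEq n] in
lemma tau_sub (X Y : Matrix n n ℂ) : tau (X - Y) = tau X - tau Y := by simp [tau]

omit [DecidableEq n] in
lemma tau_neg (X : Matrix n n ℂ) : tau (-X) = - tau X := by simp [tau]

omit [DecidableEq n] in
lemma tau_smul (c : ℝ) (X : Matrix n n ℂ) : tau (c • X) = c * tau X := by
  simp [tau]

omit [DecidableEq n] in
lemma tau_sum {ι : Type*} (s : Finset ι) (f : ι → Matrix n n ℂ) :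
    tau (∑ i ∈ s, f i) = ∑ i ∈ s, tau (f i) := by
  simp [tau, Matrix.trace_sum]

omit [DecidableEq n] in
lemma tau_mul_comm (X Y : Matrix n n ℂ) : tau (X * Y) = tau (Y * X) := by
  simp only [tau, Matrix.trace_mul_comm X Y]

omit [DecidableEq n] in
lemma tau_star (X : Matrix n n ℂ) : tau (star X) = tau X := by
  simp [tau, Matrix.star_eq_conjTranspose, Matrix.trace_conjTranspose]

omit [DecidableEq n] in
lemma tau_nonneg {X : Matrix n n ℂ} (h : 0 ≤ X) : 0 ≤ tau X := by
  have := (Matrix.nonneg_iff_posSemidef.mp h).trace_nonneg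
  exact (Complex.nonneg_iff.mp this).1

omit [DecidableEq n] in
lemma tau_mono {X Y : Matrix n n ℂ} (h : X ≤ Y) : tau X ≤ tau Y := by
  have := tau_nonneg (sub_nonneg.mpr h)
  rw [tau_sub] at this
  linarith

lemma tau_mul_nonneg {R X : Matrix n n ℂ} (hR : 0 ≤ R) (hX : 0 ≤ X) : 0 ≤ tau (R * X) := by
  obtain ⟨B, rfl⟩ := CStarAlgebra.nonneg_iff_eq_star_mul_self.mp hR
  rw [mul_assoc, tau_mul_comm]
  exact tau_nonneg (star_right_conjugate_nonneg hX B)

lemma tau_mul_mono {R X Y : Matrix n n ℂ} (hR : 0 ≤ R) (h : X ≤ Y) :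
    tau (R * X) ≤ tau (R * Y) := by
  have := tau_mul_nonneg hR (sub_nonneg.mpr h)
  rw [mul_sub, tau_sub] at this
  linarith

omit [DecidableEq n] in
lemma tau_mul_le_half (A B : Matrix n n ℂ) :
    tau (A * B) ≤ (tau (A * star A) + tau (B * star B)) / 2 := by
  have h := tau_nonneg (mul_star_self_nonneg (A - star B))
  have e : (A - star B) * star (A - star B)
      = A * star A + star B * B - (A * B + star (A * B)) := by
    simp only [star_sub, star_star, star_mul]
    noncomm_ring
  rw [e, tau_sub, tau_add, tau_add, tau_star, tau_mul_comm (star B) B] at h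
  linarith

lemma tau_pow_mul_comm (X Y : Matrix n n ℂ) (m : ℕ) :
    tau ((X * Y) ^ m) = tau ((Y * X) ^ m) := by
  cases m with
  | zero => simp
  | succ m =>
    have h1 : (X * Y) ^ (m + 1) = X * ((Y * X) ^ m * Y) := by
      rw [← mul_assoc, ← mul_pow_mul, pow_succ, mul_assoc]
    rw [h1, tau_mul_comm, pow_succ, mul_assoc]

/-- Hoelder inequality for `2^(e+1)` factors. -/
lemma tau_holder (e : ℕ) : ∀ (S : Set (Matrix n n ℂ)) (K : ℝ),
    (∀ M ∈ S, tau ((M * star M) ^ (2 ^ e)) ≤ K) → ∀ X ∈ S ^ (2 ^ (e + 1)), tau X ≤ K := by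
  induction e with
  | zero =>
    intro S K hS X hX
    simp only [zero_add, pow_one, pow_zero] at hX hS
    rw [pow_two] at hX
    obtain ⟨A, hA, B, hB, rfl⟩ := hX
    have := tau_mul_le_half A B
    have := hS A hA
    have := hS B hB
    simp only
    linarith
  | succ e ih =>
    intro S K hS X hX
    have h2 : S ^ (2 ^ (e + 1 + 1)) = (S * S) ^ (2 ^ (e + 1)) := by
      rw [pow_succ' 2 (e + 1), pow_mul, pow_two]
    rw [h2] at hX
    refine ih (S * S) K ?_ X hX
    rintro _ ⟨A, hA, B, hB, rfl⟩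
    have e1 : tau ((A * B * star (A * B)) ^ (2 ^ e))
        = tau (((star A * A) * (B * star B)) ^ (2 ^ e)) := by
      have : A * B * star (A * B) = A * (B * star B * star A) := by
        simp only [star_mul, mul_assoc]
      rw [this, tau_pow_mul_comm]
      have : B * star B * star A * A = (B * star B) * (star A * A) := by
        simp only [mul_assoc]
      rw [this, tau_pow_mul_comm]
    simp only
    rw [e1]
    refine ih {star A * A, B * star B} K ?_ _ ?_
    · intro M hM
      rcases hM with rfl | rfl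
      · have : star A * A * star (star A * A) = (star A * A) ^ 2 := by
          simp only [star_mul, star_star, pow_two]
        rw [this, ← pow_mul, ← pow_succ', tau_pow_mul_comm]
        exact hS A hA
      · have : B * star B * star (B * star B) = (B * star B) ^ 2 := by
          simp only [star_mul, star_star, pow_two]
        rw [this, ← pow_mul, ← pow_succ']
        exact hS B hB
    · rw [pow_succ' 2 e, pow_mul, pow_two]
      exact Set.pow_mem_pow (Set.mul_mem_mul (by simp) (by simp))

lemma tau_pow_le (e : ℕ) (M : Matrix n n ℂ) :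
    tau (M ^ (2 ^ (e + 1))) ≤ tau ((M * star M) ^ (2 ^ e)) := by
  refine tau_holder e {M} _ ?_ _ (Set.pow_mem_pow (by simp))
  intro N hN
  rw [Set.mem_singleton_iff.mp hN]

/-- Araki-Lieb-Thirring type inequality for powers of two. -/
lemma tau_alt (e : ℕ) : ∀ {X Y : Matrix n n ℂ}, IsSelfAdjoint X → IsSelfAdjoint Y →
    tau ((X * Y) ^ (2 ^ e)) ≤ tau (X ^ (2 ^ e) * Y ^ (2 ^ e)) := by
  induction e with
  | zero => intro X Y _ _; simp
  | succ e ih =>
    intro X Y hX hY
    refine (tau_pow_le e _).trans ?_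
    have e1 : X * Y * star (X * Y) = X * (Y ^ 2 * X) := by
      simp only [star_mul, hX.star_eq, hY.star_eq, pow_two, mul_assoc]
    rw [e1, tau_pow_mul_comm]
    have e2 : Y ^ 2 * X * X = Y ^ 2 * X ^ 2 := by simp only [pow_two, mul_assoc]
    rw [e2, tau_pow_mul_comm]
    refine (ih (hX.pow 2) (hY.pow 2)).trans ?_
    rw [← pow_mul, ← pow_mul, ← pow_succ']

lemma le_tau_smul_one {R : Matrix n n ℂ} (hR : 0 ≤ R) : R ≤ tau R • (1 : Matrix n n ℂ) := by
  have hH : R.IsHermitian := (Matrix.nonneg_iff_posSemidef.mp hR).isHermitian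
  rw [← Algebra.algebraMap_eq_smul_one]
  refine le_algebraMap_of_spectrum_le (fun x hx => ?_) hH.isSelfAdjoint
  rw [hH.spectrum_real_eq_range_eigenvalues] at hx
  obtain ⟨i, rfl⟩ := hx
  have : tau R = ∑ j, hH.eigenvalues j := by
    simp [tau, hH.trace_eq_sum_eigenvalues]
  rw [this]
  exact Finset.single_le_sum
    (fun j _ => (Matrix.nonneg_iff_posSemidef.mp hR).eigenvalues_nonneg j) (Finset.mem_univ i)

lemma tau_mul_self_le {R : Matrix n n ℂ} (hR : 0 ≤ R) : tau (R * R) ≤ tau R ^ 2 := by
  have := tau_mul_mono hR (le_tau_smul_one hR)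
  rwa [mul_smul_comm, mul_one, tau_smul, ← pow_two (tau R)] at this

lemma eq_zero_of_tau_eq_zero {R : Matrix n n ℂ} (hR : 0 ≤ R) (h : tau R ≤ 0) : R = 0 := by
  have h1 := le_tau_smul_one hR
  have h2 : tau R = 0 := le_antisymm h (tau_nonneg hR)
  rw [h2, zero_smul] at h1
  exact le_antisymm h1 hR

lemma one_le_tau_of_proj {P : Matrix n n ℂ} (hP : IsStarProjection P) (h : P ≠ 0) :
    1 ≤ tau P := by
  have h0 : 0 < tau P := by
    by_contra hc
    exact h (eq_zero_of_tau_eq_zero hP.nonneg (not_lt.mp hc))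
  have h1 := tau_mul_self_le hP.nonneg
  rw [hP.isIdempotentElem.eq] at h1
  nlinarith

lemma proj_eq_zero_of_tau_lt_one {P : Matrix n n ℂ} (hP : IsStarProjection P) (h : tau P < 1) :
    P = 0 := by
  by_contra hc
  exact absurd (one_le_tau_of_proj hP hc) (not_le.mpr h)

end Pool.Agent.Lib.MP_c1e253_pr
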