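import Pool.Agent.Lib.MP_c1e253_pr.Regular

/-! The group of upper unitriangular matrices over `ZMod p`. -/

set_option autoImplicit false

open scoped MatrixOrder ComplexOrder Pointwise Matrix.Norms.L2Operator
open Matrix

namespace Pool.Agent.Lib.MP_c1e253_pr

/-- unitriangular matrices as a submonoid -/
def UTm (d p : ℕ) : Submonoid (Matrix (Fin d) (Fin d) (ZMod p)) where
  carrier := {M | ∀ i j, (j < i → M i j = 0) ∧ M i i = 1}
  one_mem' := fun i j => ⟨fun h => Matrix.one_apply_ne h.ne', Matrix.one_apply_eq i⟩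
  mul_mem' := by
    intro A B hA hB i j
    constructor
    · intro h
      rw [Matrix.mul_apply]
      refine Finset.sum_eq_zero fun c _ => ?_
      rcases lt_or_ge c i with hc | hc
      · rw [(hA i c).1 hc, zero_mul]
      · rw [(hB c j).1 (lt_of_lt_of_le h hc), mul_zero]
    · rw [Matrix.mul_apply, Finset.sum_eq_single i]
      · rw [(hA i i).2, (hB i i).2, one_mul]
      · intro c _ hc
        rcases lt_or_gt_of_ne hc with hc | hc
        · rw [(hA i c).1 hc, zero_mul]
        · rw [(hB c i).1 hc, mul_zero]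
      · simp

/-- the group of unitriangular matrices -/
def UT (d p : ℕ) : Type := UTm d p

variable {d p : ℕ}

/-- underlying matrix -/
def UT.val (g : UT d p) : Matrix (Fin d) (Fin d) (ZMod p) := Subtype.val g

lemma UT.prop (g : UT d p) (i j : Fin d) : (j < i → g.val i j = 0) ∧ g.val i i = 1 :=
  Subtype.prop g i j

lemma UT.ext' {g h : UT d p} (e : g.val = h.val) : g = h := Subtype.ext e

variable [NeZero p]

lemma UTm_isUnit (g : UTm d p) : IsUnit g := by
  refine IsLeftRegular.isUnit_of_finite fun b c h => ?_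
  have hdet : (g : Matrix (Fin d) (Fin d) (ZMod p)).det = 1 := by
    rw [Matrix.det_of_isUpperTriangular (fun i j hij => (g.2 i j).1 hij)]
    exact Finset.prod_eq_one fun i _ => (g.2 i i).2
  have hu : IsUnit (g : Matrix (Fin d) (Fin d) (ZMod p)) := by
    rw [Matrix.isUnit_iff_isUnit_det, hdet]; exact isUnit_one
  exact Subtype.ext (hu.mul_left_cancel (congrArg Subtype.val h))

noncomputable instance : Group (UT d p) := groupOfIsUnit (M := UTm d p) UTm_isUnit

noncomputable instance : Fintype (UT d p) := Fintype.ofFinite (UTm d p)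

noncomputable instance : DecidableEq (UT d p) := Classical.decEq _

lemma UT.val_mul (g h : UT d p) : (g * h).val = g.val * h.val := rfl

lemma UT.val_one : (1 : UT d p).val = 1 := rfl

/-- matrix supported in row `a`, strictly above the diagonal -/
def rowMat (a : Fin d) (v : Fin d → ZMod p) : Matrix (Fin d) (Fin d) (ZMod p) :=
  Matrix.of fun i j => if i = a ∧ a < j then v j else 0

omit [NeZero p] in
lemma rowMat_add (a : Fin d) (v w : Fin d → ZMod p) :
    rowMat a (v + w) = rowMat a v + rowMat a w := by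
  ext i j
  simp only [rowMat, Matrix.of_apply, Matrix.add_apply, Pi.add_apply]
  split_ifs <;> simp

omit [NeZero p] in
lemma rowMat_mul (a a' : Fin d) (v w : Fin d → ZMod p) :
    rowMat a v * rowMat a' w
      = rowMat a (fun j => if a < a' ∧ a' < j then v a' * w j else 0) := by
  ext i j
  simp only [rowMat, Matrix.of_apply, Matrix.mul_apply]
  rw [Finset.sum_eq_single a']
  · by_cases h1 : i = a <;> by_cases h2 : a < a' <;> by_cases h3 : a' < j <;> simp [h1, h2, h3]
    intro h4
    exact absurd (h2.trans h3) (not_lt.mpr h4)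
  · intro c _ hc
    simp [hc]
  · simp

omit [NeZero p] in
lemma rowMat_zero (a : Fin d) : rowMat a (0 : Fin d → ZMod p) = 0 := by
  ext i j
  simp [rowMat]

omit [NeZero p] in
lemma rowMat_mul_of_le {a a' : Fin d} (h : a' ≤ a) (v w : Fin d → ZMod p) :
    rowMat a v * rowMat a' w = 0 := by
  rw [rowMat_mul, ← rowMat_zero a]
  congr 1
  ext j
  simp [not_lt.mpr h]

/-- row element -/
def rowEl (a : Fin d) (v : Fin d → ZMod p) : UT d p :=
  (⟨1 + rowMat a v, fun i j => ⟨fun h => by
      have : ¬ (i = a ∧ a < j) := fun h' => absurd (h'.1 ▸ h) (not_lt.mpr h'.2.le)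
      simp [rowMat, Matrix.one_apply_ne h.ne', this],
    by
      have : ¬ (i = a ∧ a < i) := fun h' => absurd h'.2 (by rw [h'.1]; exact lt_irrefl _)
      simp [rowMat, this]⟩⟩ : UTm d p)

omit [NeZero p] in
lemma rowEl_val (a : Fin d) (v : Fin d → ZMod p) : (rowEl a v).val = 1 + rowMat a v := rfl

lemma rowEl_add (a : Fin d) (v w : Fin d → ZMod p) :
    rowEl a (v + w) = rowEl a v * rowEl a w := by
  apply UT.ext'
  rw [UT.val_mul, rowEl_val, rowEl_val, rowEl_val, rowMat_add, add_mul, mul_add, mul_add,
    rowMat_mul_of_le le_rfl]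
  simp only [one_mul, mul_one, add_zero]
  abel

lemma rowEl_zero (a : Fin d) : rowEl a (0 : Fin d → ZMod p) = 1 := by
  apply UT.ext'
  rw [rowEl_val, rowMat_zero, add_zero, UT.val_one]

/-- row homomorphism -/
def rowHom (a : Fin d) : Multiplicative (Fin d → ZMod p) →* UT d p where
  toFun v := rowEl a v.toAdd
  map_one' := rowEl_zero a
  map_mul' v w := rowEl_add a v.toAdd w.toAdd

lemma heis_rel {a b c : Fin d} (hac : a < c) (hcb : c < b) (v : Fin d → ZMod p) (β : ZMod p) :
    rowEl a v * rowEl c (Pi.single b β)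
      = rowEl c (Pi.single b β) * (rowEl a v * rowEl a (Pi.single b (v c * β))) := by
  rw [← rowEl_add]
  apply UT.ext'
  simp only [UT.val_mul, rowEl_val, add_mul, mul_add, one_mul, mul_one]
  rw [rowMat_mul_of_le hac.le, rowMat_mul, rowMat_add]
  have : (fun j => if a < c ∧ c < j then v c * (Pi.single b β : Fin d → ZMod p) j else 0)
      = Pi.single b (v c * β) := by
    ext j
    by_cases hj : j = b
    · subst hj; simp [hac, hcb]
    · simp [hj]
  rw [this]
  abel

lemma heis_comm {a b c : Fin d} (hac : a < c) (hcb : c < b) (β t : ZMod p) :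
    rowEl c (Pi.single b β) * rowEl a (Pi.single b t)
      = rowEl a (Pi.single b t) * rowEl c (Pi.single b β) := by
  rw [heis_rel hac hcb, Pi.single_eq_of_ne hcb.ne, zero_mul, Pi.single_zero, rowEl_zero, mul_one]

theorem ut_heis (hp : p.Prime) {n : Type*} [Fintype n] [DecidableEq n]
    {π : UT d p →* Matrix n n ℂ} {Q : Matrix n n ℂ}
    (hπ : ∀ g, star (π g) = π g⁻¹) (hQ : Inv π Q) {a b : Fin d}
    (hne : ∃ t, π (rowEl a (Pi.single b t)) * Q ≠ Q) : (2 : ℝ) ^ ((b : ℕ) - a - 1) ≤ tau Q := by
  have := Fact.mk hp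
  let ι := ↥(Finset.Ioo a b)
  let ex : (ι → ZMod p) →+ (Fin d → ZMod p) :=
    { toFun := fun α j => if h : j ∈ Finset.Ioo a b then α ⟨j, h⟩ else 0
      map_zero' := by ext j; simp
      map_add' := fun α β => by
        ext j
        simp only [Pi.add_apply]
        split_ifs <;> simp }
  let x : Multiplicative (ι → ZMod p) →* UT d p := (rowHom a).comp ex.toMultiplicative
  let z : Multiplicative (ZMod p) →* UT d p :=
    (rowHom a).comp (AddMonoidHom.single (fun _ : Fin d => ZMod p) b).toMultiplicative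
  have hx : ∀ α, x α = rowEl a (ex α.toAdd) := fun _ => rfl
  have hz : ∀ t, z t = rowEl a (Pi.single b t.toAdd) := fun _ => rfl
  have h := heis_bound hπ hQ x z ?_ ?_ ?_
  · refine le_trans ?_ h
    rw [Fintype.card_multiplicative, Fintype.card_fun, ZMod.card, Fintype.card_coe,
      Fin.card_Ioo]
    push_cast
    gcongr
    exact_mod_cast hp.two_le
  · intro α t
    rw [hx, hz, ← rowEl_add, ← rowEl_add, add_comm]
  · intro α hα t
    obtain ⟨c, hc⟩ : ∃ c, α.toAdd c ≠ 0 := by
      by_contra hcon
      push Not at hcon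
      exact hα (by ext c; exact hcon c)
    have hmem := Finset.mem_Ioo.mp c.2
    have hv : ex α.toAdd c = α.toAdd c := by
      change (if h : (c : Fin d) ∈ Finset.Ioo a b then α.toAdd ⟨c, h⟩ else 0) = _
      rw [dif_pos c.2]
    refine ⟨rowEl c (Pi.single b ((α.toAdd c)⁻¹ * t.toAdd)), fun s => ?_, ?_⟩
    · rw [hz]
      exact heis_comm hmem.1 hmem.2 _ _
    · rw [hx, hz, heis_rel hmem.1 hmem.2, hv, mul_inv_cancel_left₀ hc]
  · obtain ⟨t, ht⟩ := hne
    exact ⟨Multiplicative.ofAdd t, ht⟩

/-- level sets -/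
noncomputable def NN (d p : ℕ) [NeZero p] (s : ℕ) : Finset (UT d p) := by
  classical exact Finset.univ.filter fun g => ∀ i j : Fin d, i < j → (j : ℕ) ≤ i + s → g.val i j = 0

lemma mem_NN {s : ℕ} {g : UT d p} :
    g ∈ NN d p s ↔ ∀ i j : Fin d, i < j → (j : ℕ) ≤ i + s → g.val i j = 0 := by
  simp [NN]

lemma one_mem_NN (s : ℕ) : (1 : UT d p) ∈ NN d p s :=
  mem_NN.mpr fun _ _ h _ => Matrix.one_apply_ne h.ne

lemma mem_NN_zero (g : UT d p) : g ∈ NN d p 0 :=
  mem_NN.mpr fun i j h h' => absurd h (by rw [Fin.lt_def]; omega)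

lemma eq_one_of_mem_NN {g : UT d p} (h : g ∈ NN d p d) : g = 1 := by
  apply UT.ext'
  ext i j
  rw [UT.val_one]
  rcases lt_trichotomy i j with hij | rfl | hij
  · rw [mem_NN.mp h i j hij (by have := j.2; omega), Matrix.one_apply_ne hij.ne]
  · rw [(g.prop i i).2, Matrix.one_apply_eq]
  · rw [(g.prop i j).1 hij, Matrix.one_apply_ne hij.ne']

/-- first `r` rows of `g` -/
def topRows (g : UT d p) (r : ℕ) : UT d p :=
  (⟨Matrix.of fun i j => if (i : ℕ) < r then g.val i j else (1 : Matrix (Fin d) (Fin d) (ZMod p)) i j,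
    fun i j => ⟨fun h => by
      simp only [Matrix.of_apply]
      split_ifs
      · exact (g.prop i j).1 h
      · exact Matrix.one_apply_ne h.ne', by
      simp only [Matrix.of_apply]
      split_ifs
      · exact (g.prop i i).2
      · exact Matrix.one_apply_eq i⟩⟩ : UTm d p)

omit [NeZero p] in
lemma topRows_val (g : UT d p) (r : ℕ) (i j : Fin d) : (topRows g r).val i j
    = if (i : ℕ) < r then g.val i j else (1 : Matrix (Fin d) (Fin d) (ZMod p)) i j := rfl

lemma topRows_succ (g : UT d p) (a : Fin d) :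
    topRows g (a + 1) = rowEl a (g.val a) * topRows g a := by
  apply UT.ext'
  ext i j
  rw [UT.val_mul, rowEl_val, add_mul, one_mul, Matrix.add_apply, topRows_val, topRows_val,
    Matrix.mul_apply]
  have h1 : ∑ c, rowMat a (g.val a) i c * (topRows g a).val c j = rowMat a (g.val a) i j := by
    have : ∀ c, rowMat a (g.val a) i c * (topRows g a).val c j
        = rowMat a (g.val a) i c * (1 : Matrix (Fin d) (Fin d) (ZMod p)) c j := by
      intro c
      rw [topRows_val]
      split_ifs with h
      · have : ¬ (i = a ∧ a < c) := fun h' => absurd h'.2 (by rw [Fin.lt_def]; omega)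
        simp [rowMat, this]
      · rfl
    simp only [this]
    rw [← Matrix.mul_apply, mul_one]
  rw [h1]
  simp only [rowMat, Matrix.of_apply]
  by_cases hi : i = a
  · subst hi
    rcases lt_trichotomy i j with hij | rfl | hij
    · simp [hij, Matrix.one_apply_ne hij.ne]
    · simp [(g.prop i i).2]
    · simp [(g.prop i j).1 hij, Matrix.one_apply_ne hij.ne', not_lt.mpr hij.le]
  · have : ((i : ℕ) < a + 1) ↔ ((i : ℕ) < a) := by
      have : (i : ℕ) ≠ a := fun h => hi (Fin.ext h)
      omega
    simp [hi, this]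

lemma mem_of_NN (F : Submonoid (UT d p)) (s : ℕ)
    (hF : ∀ (a b : Fin d) (t : ZMod p), (a : ℕ) + s < b → rowEl a (Pi.single b t) ∈ F)
    {g : UT d p} (hg : g ∈ NN d p s) : g ∈ F := by
  have hrow : ∀ a : Fin d, rowEl a (g.val a) ∈ F := by
    intro a
    have e : rowEl a (g.val a) = rowHom a (∏ b, Multiplicative.ofAdd (Pi.single b (g.val a b))) := by
      rw [← ofAdd_sum, Finset.univ_sum_single]
      rfl
    rw [e, ← Submonoid.mem_comap]
    refine Submonoid.prod_mem _ fun b _ => ?_
    rw [Submonoid.mem_comap]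
    change rowEl a (Pi.single b (g.val a b)) ∈ F
    by_cases h : (a : ℕ) + s < b
    · exact hF a b _ h
    · have : rowEl a (Pi.single b (g.val a b)) = 1 := by
        apply UT.ext'
        rw [rowEl_val, UT.val_one, add_eq_left]
        ext i j
        simp only [rowMat, Matrix.of_apply, Matrix.zero_apply]
        split_ifs with h'
        · by_cases hj : j = b
          · subst hj
            rw [Pi.single_eq_same]
            exact mem_NN.mp hg a j h'.2 (not_lt.mp h)
          · exact Pi.single_eq_of_ne hj _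
        · rfl
      rw [this]
      exact F.one_mem
  have hind : ∀ r, r ≤ d → topRows g r ∈ F := by
    intro r
    induction r with
    | zero =>
      intro _
      have : topRows g 0 = 1 := by
        apply UT.ext'
        ext i j
        simp [topRows_val, UT.val_one]
      rw [this]
      exact F.one_mem
    | succ r ih =>
      intro hr
      have := topRows_succ g ⟨r, hr⟩
      simp only at this
      rw [this]
      exact F.mul_mem (hrow _) (ih (by omega))
  have : topRows g d = g := by
    apply UT.ext'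
    ext i j
    simp [topRows_val]
  rw [← this]
  exact hind d le_rfl

/-- the part of `g` above level `s` -/
def highPart (g : UT d p) (s : ℕ) : UT d p :=
  (⟨Matrix.of fun i j => if i < j ∧ (j : ℕ) ≤ i + s then 0 else g.val i j,
    fun i j => ⟨fun h => by
      simp only [Matrix.of_apply]
      split_ifs
      · rfl
      · exact (g.prop i j).1 h, by
      simp only [Matrix.of_apply, lt_irrefl, false_and, if_false]
      exact (g.prop i i).2⟩⟩ : UTm d p)

omit [NeZero p] in
lemma highPart_val (g : UT d p) (s : ℕ) (i j : Fin d) : (highPart g s).val i j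
    = if i < j ∧ (j : ℕ) ≤ i + s then 0 else g.val i j := rfl

lemma card_le_mul_NN (s : ℕ) : Fintype.card (UT d p) ≤ p ^ (d * s) * (NN d p s).card := by
  let f : UT d p → (Fin d → Fin s → ZMod p) × ↥(NN d p s) := fun g =>
    (fun i r => if h : (i : ℕ) + r + 1 < d then g.val i ⟨i + r + 1, h⟩ else 0,
      ⟨highPart g s, mem_NN.mpr fun i j h1 h2 => by rw [highPart_val, if_pos ⟨h1, h2⟩]⟩)
  have hf : Function.Injective f := by
    intro g h e
    have e1 := congrArg Prod.fst e
    have e2 : highPart g s = highPart h s := congrArg (fun x => (x.2 : UT d p)) e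
    apply UT.ext'
    ext i j
    by_cases hij : i < j ∧ (j : ℕ) ≤ i + s
    · have h1 : (i : ℕ) < j := hij.1
      have h2 := hij.2
      have h3 := congrFun (congrFun e1 i) ⟨j - i - 1, by omega⟩
      have h4 : (i : ℕ) + (j - i - 1) + 1 = j := by omega
      have h5 : (i : ℕ) + (j - i - 1) + 1 < d := by rw [h4]; exact j.2
      simp only [f, dif_pos h5] at h3
      have h6 : (⟨(i : ℕ) + (j - i - 1) + 1, h5⟩ : Fin d) = j := Fin.ext h4
      rwa [h6] at h3
    · have h3 := congrFun (congrFun (congrArg UT.val e2) i) j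
      rwa [highPart_val, highPart_val, if_neg hij, if_neg hij] at h3
  have := Fintype.card_le_of_injective f hf
  rwa [Fintype.card_prod, Fintype.card_fun, Fintype.card_fun, ZMod.card, Fintype.card_fin,
    Fintype.card_fin, Fintype.card_coe, ← pow_mul, mul_comm s d] at this

lemma card_UT_le : Fintype.card (UT d p) ≤ p ^ (d * d) := by
  have := Fintype.card_le_of_injective (UT.val : UT d p → _) (fun g h e => UT.ext' e)
  rwa [show Fintype.card (Matrix (Fin d) (Fin d) (ZMod p))
      = Fintype.card (Fin d → Fin d → ZMod p) from Fintype.card_congr Matrix.of.symm,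
    Fintype.card_fun, Fintype.card_fun, ZMod.card, Fintype.card_fin, ← pow_mul] at this

/-- level of an irreducible piece -/
theorem exists_level (hp : p.Prime) {Q : Matrix (UT d p) (UT d p) ℂ} (hQ : Irr (reg (UT d p)) Q)
    (h0 : (∑ g, reg (UT d p) g) * Q = 0) :
    ∃ s, s < d ∧ (∀ g ∈ NN d p (s + 1), reg (UT d p) g * Q = Q) ∧ (2 : ℝ) ^ s ≤ tau Q := by
  classical
  have hex : ∃ s, ∀ g ∈ NN d p s, reg (UT d p) g * Q = Q :=
    ⟨d, fun g hg => by rw [eq_one_of_mem_NN hg, map_one, one_mul]⟩
  have hle : Nat.find hex ≤ d :=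
    Nat.find_min' hex fun g hg => by rw [eq_one_of_mem_NN hg, map_one, one_mul]
  have hne : Nat.find hex ≠ 0 := by
    intro h
    have h1 := Nat.find_spec hex
    rw [h] at h1
    have h2 := avg_mul_of_fixed (reg (UT d p)) fun g => h1 g (mem_NN_zero g)
    rw [avg, smul_mul_assoc, h0, smul_zero] at h2
    exact hQ.ne h2.symm
  obtain ⟨s, hs⟩ := Nat.exists_eq_succ_of_ne_zero hne
  refine ⟨s, by omega, by rw [← Nat.succ_eq_add_one, ← hs]; exact Nat.find_spec hex, ?_⟩
  have hmin := Nat.find_min hex (m := s) (by omega)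
  let F : Submonoid (UT d p) :=
    { carrier := {g | reg (UT d p) g * Q = Q}
      one_mem' := by simp
      mul_mem' := fun {a b} ha hb => by
        simp only [Set.mem_ofPred_eq] at ha hb ⊢
        rw [map_mul, mul_assoc, hb, ha] }
  have : ∃ (a b : Fin d) (t : ZMod p), (a : ℕ) + s < b ∧ rowEl a (Pi.single b t) ∉ F := by
    by_contra hc
    push Not at hc
    exact hmin fun g hg => mem_of_NN F s hc hg
  obtain ⟨a, b, t, hab, ht⟩ := this
  refine le_trans ?_ (ut_heis hp reg_star hQ.inv (a := a) (b := b) ⟨t, ht⟩)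
  exact pow_le_pow_right₀ one_le_two (by omega)

end Pool.Agent.Lib.MP_c1e253_pr
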